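import Mathlib

/-!
# Houses of the values of polynomials; zeros of a polynomial in a box
-/

set_option autoImplicit false

namespace MPadcPZ

open MvPolynomial NumberField

section House

variable {K : Type} [Field K] [NumberField K]

private theorem hs_one : house (1 : K) = 1 := by
  have h := house_intCast (K := K) 1
  rw [Int.cast_one] at h
  rw [h]
  simp

private theorem hs_pow (a : K) (H : ℝ) (hH : 1 ≤ H) (h : house a ≤ H) (n : ℕ) : house (a ^ n) ≤ H ^ n := by
  induction n with
  | zero => rw [pow_zero, pow_zero, hs_one]
  | succ n ih =>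
    rw [pow_succ, pow_succ]
    exact (house_mul_le _ _).trans (mul_le_mul ih h (house_nonneg _) (by positivity))

private theorem hs_prod {σ : Type} (s : Finset σ) (a : σ → K) (H : ℝ) (hH : 1 ≤ H) (h : ∀ i, house (a i) ≤ H)
    (n : σ → ℕ) : house (∏ i ∈ s, a i ^ n i) ≤ H ^ (∑ i ∈ s, n i) := by
  classical
  induction s using Finset.induction_on with
  | empty => rw [Finset.prod_empty, Finset.sum_empty, pow_zero, hs_one]
  | insert i s hi ih =>
    rw [Finset.prod_insert hi, Finset.sum_insert hi, pow_add]
    exact (house_mul_le _ _).trans (mul_le_mul (hs_pow _ H hH (h i) _) ih (house_nonneg _) (by positivity))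

/-- The house of the value of a polynomial. -/
theorem house_value {σ : Type} [Fintype σ] (M : MvPolynomial σ ℤ) (a : σ → 𝓞 K) (H : ℝ) (hH : 1 ≤ H)
    (ha : ∀ i, house (a i : K) ≤ H) :
    house ((eval₂ (Int.castRingHom (𝓞 K)) a M : 𝓞 K) : K) ≤
      (∑ e ∈ M.support, |((coeff e M : ℤ) : ℝ)|) * H ^ M.totalDegree := by
  have h1 : ((eval₂ (Int.castRingHom (𝓞 K)) a M : 𝓞 K) : K) =
      ∑ e ∈ M.support, ((coeff e M : ℤ) : K) * ∏ i, (a i : K) ^ e i := by
    rw [eval₂_eq']
    push_cast [map_sum, map_mul, map_prod, map_pow]
    rfl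
  rw [h1, Finset.sum_mul]
  refine (house_sum_le_sum_house _ _).trans (Finset.sum_le_sum fun e he => ?_)
  refine (house_mul_le _ _).trans ?_
  rw [house_intCast, Int.cast_abs]
  refine mul_le_mul_of_nonneg_left ?_ (abs_nonneg _)
  refine (hs_prod Finset.univ (fun i => (a i : K)) H hH ha e).trans ?_
  refine pow_le_pow_right₀ hH ?_
  have h2 := le_totalDegree he
  rwa [Finsupp.sum_fintype _ _ (fun _ => rfl)] at h2

end House

section Zeros

variable {R : Type} [CommRing R] [IsDomain R]

/-- The lemma of Schwartz and Zippel. -/
theorem zeros_card {σ : Type} [Fintype σ] [DecidableEq σ] [DecidableEq R] (N : MvPolynomial σ R) (hN : N ≠ 0)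
    (T : Finset R) :
    ((Fintype.piFinset fun _ : σ => T).filter fun c => eval c N = 0).card * T.card ≤
      N.totalDegree * T.card ^ Fintype.card σ := by
  classical
  set n := Fintype.card σ with hn
  let e : σ ≃ Fin n := Fintype.equivFin σ
  have h1 : rename e N ≠ 0 := by
    intro h
    exact hN (rename_injective e e.injective (by rw [h, map_zero]))
  have h2 := schwartz_zippel_totalDegree h1 T
  have hcard : ((Fintype.piFinset fun _ : σ => T).filter fun c => eval c N = 0).card =
      ((Fintype.piFinset fun _ : Fin n => T).filter fun f => eval f (rename e N) = 0).card := by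
    refine Finset.card_bij (fun c _ => fun i => c (e.symm i)) ?_ ?_ ?_
    · intro c hc
      rw [Finset.mem_filter, Fintype.mem_piFinset] at hc ⊢
      refine ⟨fun i => hc.1 _, ?_⟩
      rw [eval_rename]
      have h3 : ((fun i => c (e.symm i)) ∘ e) = c := by
        funext i
        simp
      rw [h3]
      exact hc.2
    · intro c _ c' _ h
      funext i
      have h3 := congrFun h (e i)
      simpa using h3
    · intro f hf
      rw [Finset.mem_filter, Fintype.mem_piFinset] at hf
      refine ⟨fun i => f (e i), ?_, ?_⟩
      · rw [Finset.mem_filter, Fintype.mem_piFinset]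
        refine ⟨fun i => hf.1 _, ?_⟩
        rw [← hf.2, eval_rename]
        rfl
      · funext i
        simp
  have h4 : (rename e N).totalDegree = N.totalDegree := by
    apply le_antisymm
    · exact totalDegree_rename_le _ _
    · have h5 : rename e.symm (rename e N) = N := by
        rw [rename_rename]
        simp
      conv_lhs => rw [← h5]
      exact totalDegree_rename_le _ _
  rw [hcard]
  rw [h4] at h2
  rcases Nat.eq_zero_or_pos T.card with h0 | h0
  · rw [h0, mul_zero]
    exact Nat.zero_le _
  · have h0' : (0 : ℚ≥0) < (T.card : ℚ≥0) := by exact_mod_cast h0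
    rw [div_le_div_iff₀ (by positivity) h0'] at h2
    exact_mod_cast h2

end Zeros

end MPadcPZ
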