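import Pool.Agent.Lib.MP_adc574_ag_PZ.Cns

/-!
# Morse pencils: uniform spreading out

`G` is a form of degree `d` in `x_0, …, x_{m-1}`, `i₀` an index. The pencil `G - t x_{i₀} ^ d` is a Morse pencil over the
field `k` if `G` is smooth on the hyperplane `x_{i₀} = 0` and the members with `t ∈ k` have at most one singular point, an
ordinary double point.
-/

set_option autoImplicit false

namespace MPadcPZ

open MvPolynomial MPadcLZ

universe u

/-- The pencil `G - t x_{i₀} ^ d` is a Morse pencil (all points and all `t` in the field `k`). -/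
structure MorseOver {k : Type u} [Field k] {m : ℕ} (i₀ : Fin m) (d : ℕ) (G : MvPolynomial (Fin m) k) : Prop where
  inf : ∀ x : Fin m → k, x i₀ = 0 → (∀ i, i ≠ i₀ → eval x (pderiv i G) = 0) → x = 0
  lef : IsLef G (X i₀ ^ d)

section Systems

variable {R : Type u} [CommRing R] {m : ℕ}

/-- A singular point at infinity. -/
noncomputable def SI (i₀ : Fin m) (G : MvPolynomial (Fin m) R) (a : Fin m) : Set (MvPolynomial (Vr m) R) :=
  (fun i => rx (pderiv i G)) '' {i | i ≠ i₀} ∪ {X (Sum.inl (Sum.inl i₀)), X (Sum.inr 1) * X (Sum.inl (Sum.inl a)) - 1}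

/-- The systems of equations which have no solutions for a Morse pencil. -/
noncomputable def SM (i₀ : Fin m) (d : ℕ) (G : MvPolynomial (Fin m) R) :
    (Fin m ⊕ Fin m) ⊕ ((Fin m × Fin m) ⊕ (Fin m × Fin m)) → Set (MvPolynomial (Vr m) R)
  | Sum.inl (Sum.inl a) => SI i₀ G a
  | Sum.inl (Sum.inr a) => SB G (X i₀ ^ d) a
  | Sum.inr (Sum.inl a) => SN G (X i₀ ^ d) a.1 a.2
  | Sum.inr (Sum.inr a) => SU G (X i₀ ^ d) a.1 a.2

variable {k : Type u} [Field k] {φ : R →+* k} {G : MvPolynomial (Fin m) R} {i₀ : Fin m} {d : ℕ}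

theorem inf_iff : (∀ x : Fin m → k, x i₀ = 0 → (∀ i, i ≠ i₀ → eval x (pderiv i (G.map φ)) = 0) → x = 0) ↔
    ∀ a, ∀ z : Vr m → k, ∃ P ∈ SI i₀ G a, eval₂ φ z P ≠ 0 := by
  constructor
  · intro h a z
    by_contra hz
    push Not at hz
    rw [← pt_eta z] at hz
    have h1 := hz _ (Or.inr (Or.inl rfl))
    rw [eval₂_X] at h1
    have h2 := h (fun a => z (Sum.inl (Sum.inl a))) h1 fun i hi => by
      have h3 := hz _ (Or.inl ⟨i, hi, rfl⟩)
      rw [ev_rx, ← pderiv_map] at h3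
      exact h3
    have h4 := hz _ (Or.inr (Or.inr rfl))
    rw [ev_s] at h4
    have h5 : z (Sum.inl (Sum.inl a)) = 0 := congrFun h2 a
    rw [h5, mul_zero, zero_sub, neg_eq_zero] at h4
    exact one_ne_zero h4
  · intro h x hx0 hx
    by_contra hne
    obtain ⟨a, ha⟩ := Function.ne_iff.1 hne
    have ha' : x a ≠ 0 := ha
    obtain ⟨P, hP, h1⟩ := h a (pt x 0 0 (x a)⁻¹)
    rcases hP with ⟨l, hl, rfl⟩ | rfl | rfl
    · rw [ev_rx, ← pderiv_map, hx l hl] at h1
      exact h1 rfl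
    · rw [eval₂_X] at h1
      exact h1 hx0
    · rw [ev_s, inv_mul_cancel₀ ha', sub_self] at h1
      exact h1 rfl

theorem morse_iff : MorseOver i₀ d (G.map φ) ↔ ∀ i, ∀ z : Vr m → k, ∃ P ∈ SM i₀ d G i, eval₂ φ z P ≠ 0 := by
  have hX : (X i₀ ^ d : MvPolynomial (Fin m) k) = (X i₀ ^ d : MvPolynomial (Fin m) R).map φ := by
    rw [map_pow, map_X]
  constructor
  · rintro ⟨h1, h2⟩ i z
    rw [hX] at h2
    rcases i with (a | a) | (a | a)
    · exact inf_iff.1 h1 a z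
    · exact base_iff.1 h2.base a z
    · exact node_iff.1 h2.node a.1 a.2 z
    · exact uniq_iff.1 h2.uniq a.1 a.2 z
  · intro h
    refine ⟨inf_iff.2 fun a z => h (Sum.inl (Sum.inl a)) z, ?_⟩
    rw [hX]
    exact ⟨base_iff.2 fun a z => h (Sum.inl (Sum.inr a)) z,
      node_iff.2 fun a b z => h (Sum.inr (Sum.inl (a, b))) z, uniq_iff.2 fun a b z => h (Sum.inr (Sum.inr (a, b))) z⟩

end Systems

section Unif

variable (m d : ℕ)

/-- The exponents of degree `d`. -/
abbrev Ed : Type := ↥(Finset.finsuppAntidiag (Finset.univ : Finset (Fin m)) d)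

/-- The generic form of degree `d`. -/
noncomputable def gg : MvPolynomial (Fin m) (MvPolynomial (Ed m d) ℤ) := ∑ e : Ed m d, monomial (e : Fin m →₀ ℕ) (X e)

variable {m d}

/-- The value of `M` at the coefficients of `G`. -/
noncomputable def evc {A : Type*} [CommRing A] (G : MvPolynomial (Fin m) A) : MvPolynomial (Ed m d) ℤ →+* A :=
  eval₂Hom (Int.castRingHom A) fun e => coeff (e : Fin m →₀ ℕ) G

theorem mem_ed (e : Fin m →₀ ℕ) : e ∈ Finset.finsuppAntidiag (Finset.univ : Finset (Fin m)) d ↔ e.degree = d := by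
  rw [Finset.mem_finsuppAntidiag]
  constructor
  · rintro ⟨h, _⟩
    rw [Finsupp.degree_eq_sum]
    exact h
  · intro h
    refine ⟨?_, Finset.subset_univ _⟩
    rw [Finsupp.degree_eq_sum] at h
    exact h

theorem gg_map {A : Type*} [CommRing A] (G : MvPolynomial (Fin m) A) (hG : G.IsHomogeneous d) :
    (gg m d).map (evc G) = G := by
  classical
  ext e
  unfold gg
  rw [map_sum, coeff_sum]
  simp only [map_monomial, coeff_monomial]
  by_cases he : e.degree = d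
  · rw [Finset.sum_eq_single (⟨e, (mem_ed e).2 he⟩ : Ed m d)]
    · rw [if_pos rfl]
      exact eval₂_X _ _ _
    · intro e' _ hne
      rw [if_neg]
      intro h
      exact hne (Subtype.ext h)
    · intro h
      exact absurd (Finset.mem_univ _) h
  · rw [Finset.sum_eq_zero]
    · exact (hG.coeff_eq_zero he).symm
    · intro e' _
      rw [if_neg]
      intro h
      exact he (by rw [← h]; exact (mem_ed _).1 e'.2)

/-- Morse pencils spread out uniformly. -/
theorem unif_morse (i₀ : Fin m) (d : ℕ) : ∃ Φ : Finset (MvPolynomial (Ed m d) ℤ),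
    ∀ (A : Type) [CommRing A] (G : MvPolynomial (Fin m) A), G.IsHomogeneous d →
      ∀ (Ω : Type) [Field Ω] [IsAlgClosed Ω] (j : A →+* Ω), Function.Injective j → MorseOver i₀ d (G.map j) →
      ∃ M ∈ Φ, evc G M ≠ 0 ∧ ∀ (k : Type) [Field k] (ψ : A →+* k), ψ (evc G M) ≠ 0 → MorseOver i₀ d (G.map ψ) := by
  obtain ⟨Φ, hΦ⟩ := strat_hom (SM i₀ d (gg m d))
  refine ⟨Φ, fun A _ G hG Ω _ _ j hj hmor => ?_⟩
  obtain ⟨M, hM, h1, h2⟩ := hΦ A (evc G) Ω j hj (by
    rw [← morse_iff, ← MvPolynomial.map_map, gg_map G hG]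
    exact hmor)
  refine ⟨M, hM, h1, fun k _ ψ hψ => ?_⟩
  have h3 := h2 k ψ hψ
  rw [← morse_iff, ← MvPolynomial.map_map, gg_map G hG] at h3
  exact h3

/-- The same for the Morse pencils with `coeff e G ≠ 0` for all `e` in `E₁`. -/
theorem unif_morse' (i₀ : Fin m) (E₁ : Finset (Fin m →₀ ℕ)) (hE₁ : ∀ e ∈ E₁, e.degree = d) :
    ∃ Φ : Finset (MvPolynomial (Ed m d) ℤ),
    ∀ (A : Type) [CommRing A] [IsDomain A] (G : MvPolynomial (Fin m) A), G.IsHomogeneous d →
      ∀ (Ω : Type) [Field Ω] [IsAlgClosed Ω] (j : A →+* Ω), Function.Injective j → MorseOver i₀ d (G.map j) →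
      (∀ e ∈ E₁, coeff e G ≠ 0) →
      ∃ M ∈ Φ, evc G M ≠ 0 ∧ ∀ (k : Type) [Field k] (ψ : A →+* k), ψ (evc G M) ≠ 0 →
        MorseOver i₀ d (G.map ψ) ∧ ∀ e ∈ E₁, coeff e (G.map ψ) ≠ 0 := by
  classical
  obtain ⟨Φ, hΦ⟩ := unif_morse i₀ d
  obtain ⟨P, hP⟩ : ∃ P : MvPolynomial (Ed m d) ℤ, P = ∏ e : E₁, X (⟨e, (mem_ed _).2 (hE₁ e e.2)⟩ : Ed m d) := ⟨_, rfl⟩
  refine ⟨Φ.image fun M => M * P, fun A _ _ G hG Ω _ _ j hj hmor he => ?_⟩
  obtain ⟨M, hM, h1, h2⟩ := hΦ A G hG Ω j hj hmor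
  have h3 : evc G (M * P) = evc G M * ∏ e : E₁, coeff (e : Fin m →₀ ℕ) G := by
    rw [map_mul, hP, map_prod]
    congr 1
    refine Finset.prod_congr rfl fun e _ => ?_
    exact eval₂_X _ _ _
  refine ⟨M * P, Finset.mem_image_of_mem _ hM, ?_, fun k _ ψ hψ => ?_⟩
  · rw [h3]
    exact mul_ne_zero h1 (Finset.prod_ne_zero_iff.2 fun e _ => he e e.2)
  · rw [h3, map_mul] at hψ
    refine ⟨h2 k ψ (left_ne_zero_of_mul hψ), fun e he' => ?_⟩
    rw [coeff_map]
    have h4 := right_ne_zero_of_mul hψ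
    rw [map_prod, Finset.prod_ne_zero_iff] at h4
    exact h4 ⟨e, he'⟩ (Finset.mem_univ _)

end Unif

end MPadcPZ
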