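import Pool.Agent.Lib.MP_adc574_ag_PZ.Eng
import Pool.Agent.Lib.MP_adc574_ag_PZ.Mor
import Pool.Agent.Lib.MP_adc574_ag_PZ.Hs

/-!
# Almost all members of a linear system over a number field

`Q` is a property of forms over finite fields. The theorem over number fields follows from the theorem on Morse pencils over
finite fields (`FewM`).
-/

set_option autoImplicit false

namespace MPadcPZ

open MvPolynomial MPadcLZ MPadcBK NumberField MPadcOA

/-- The pencil `G - t x_{i₀} ^ d` is a Morse pencil: over the algebraic closure `G` is smooth on the hyperplane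
`x_{i₀} = 0` and all members of the pencil have at most one singular point, an ordinary double point. -/
def IsMorsePencil {κ : Type} [Field κ] {m : ℕ} (i₀ : Fin m) (d : ℕ) (G : MvPolynomial (Fin m) κ) : Prop :=
  MorseOver i₀ d (G.map (algebraMap κ (AlgebraicClosure κ)))

/-- The theorem over finite fields for the Morse pencils of degree `d` in `m` variables and the property `Q`; the
coefficients of `G` with exponents in `E₁` are supposed to be different from zero. -/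
def FewM {m : ℕ} (Q : ∀ (E : Type) [Field E], MvPolynomial (Fin m) E → Prop) (i₀ : Fin m) (d : ℕ)
    (E₁ : Finset (Fin m →₀ ℕ)) : Prop :=
  ∀ ε : ℝ, 0 < ε → ∃ p₀ : ℕ, ∀ p : ℕ, p.Prime → p₀ ≤ p →
    ∀ (E : Type) [Field E] [Finite E] [CharP E p] (G : MvPolynomial (Fin m) E), G.IsHomogeneous d →
      (∀ e ∈ E₁, coeff e G ≠ 0) → IsMorsePencil i₀ d G →
    (Nat.card {t : E // ¬ Q E (G - C t * X i₀ ^ d)} : ℝ) ≤ ε * Nat.card E

/-- The reduction of the form `F` over the ring of integers of the number field `K` modulo `𝔭` has the property `Q`. -/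
def HasAt {K : Type} [Field K] [NumberField K] {m : ℕ} (Q : ∀ (E : Type) [Field E], MvPolynomial (Fin m) E → Prop)
    (F : MvPolynomial (Fin m) (𝓞 K)) (𝔭 : Ideal (𝓞 K)) : Prop :=
  ∃ (E : Type) (_ : Field E) (φ : 𝓞 K →+* E), Function.Surjective φ ∧ RingHom.ker φ = 𝔭 ∧ Q E (F.map φ)

/-- The member `G₀ + ∑ c_e x ^ e` of the linear system `G₀ + ⟨S⟩`. -/
noncomputable def mb {A : Type} [CommRing A] {m : ℕ} (G₀ : MvPolynomial (Fin m) A) (S : Finset (Fin m →₀ ℕ))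
    (c : S → A) : MvPolynomial (Fin m) A :=
  G₀ + ∑ e : S, monomial (e : Fin m →₀ ℕ) (c e)

section Shift

variable {k : Type} [Field k] {m d : ℕ} {i₀ : Fin m} {G : MvPolynomial (Fin m) k} (c : k)

private theorem sing_shift (H : MvPolynomial (Fin m) k) (τ : k) (x : Fin m → k) :
    IsSing (G + C c * H) H τ x ↔ IsSing G H (τ - c) x := by
  unfold IsSing
  refine and_congr Iff.rfl (forall_congr' fun i => ?_)
  rw [map_add, pderiv_C_mul, map_add, map_mul, eval_C]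
  constructor
  · intro h
    linear_combination h
  · intro h
    linear_combination h

/-- The pencil does not change if a multiple of `x_{i₀} ^ d` is added to `G`. -/
theorem morse_shift (h : MorseOver i₀ d G) : MorseOver i₀ d (G + C c * X i₀ ^ d) := by
  refine ⟨fun x hx0 hx => h.inf x hx0 fun i hi => ?_, ?_, ?_, ?_⟩
  · have h1 := hx i hi
    rw [map_add, pderiv_C_mul, Derivation.leibniz_pow, pderiv_X, Pi.single_eq_of_ne (Ne.symm hi), smul_zero,
      smul_zero, mul_zero, add_zero] at h1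
    exact h1
  · intro τ x hx
    exact h.lef.base _ x ((sing_shift c _ τ x).1 hx)
  · intro τ x hx v hv
    refine h.lef.node _ x ((sing_shift c _ τ x).1 hx) v fun a => ?_
    rw [← hv a]
    refine Finset.sum_congr rfl fun b _ => ?_
    have h1 : G + C c * X i₀ ^ d - C τ * X i₀ ^ d = G - C (τ - c) * X i₀ ^ d := by
      rw [C_sub]
      ring
    rw [h1]
  · intro τ x y hx hy
    exact h.lef.uniq _ x y ((sing_shift c _ τ x).1 hx) ((sing_shift c _ τ y).1 hy)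

end Shift

section Good

variable {m : ℕ} (Q : ∀ (E : Type) [Field E], MvPolynomial (Fin m) E → Prop)

/-- The member `G + c x_{i₀} ^ d` over the field `E` has the property `Q`. -/
def Gm {R E : Type} [CommRing R] [Field E] (φ : R →+* E) (i₀ : Fin m) (d : ℕ) (G : MvPolynomial (Fin m) R)
    (c : E) : Prop :=
  Q E (G.map φ + C c * X i₀ ^ d)

/-- The same over the residue field. -/
def goodM {K : Type} [Field K] [NumberField K] (i₀ : Fin m) (d : ℕ) (G : MvPolynomial (Fin m) (𝓞 K))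
    (𝔭 : Ideal (𝓞 K)) (hm : 𝔭.IsMaximal) (c : 𝓞 K ⧸ 𝔭) : Prop :=
  let _ : Field (𝓞 K ⧸ 𝔭) := Ideal.Quotient.field 𝔭
  Gm Q (Ideal.Quotient.mk 𝔭) i₀ d G c

/-- The bad residue classes. -/
def badM {K : Type} [Field K] [NumberField K] (i₀ : Fin m) (d : ℕ) (G : MvPolynomial (Fin m) (𝓞 K))
    (𝔭 : Ideal (𝓞 K)) : Set (𝓞 K ⧸ 𝔭) :=
  {c | ¬ ∃ h : 𝔭.IsMaximal, goodM Q i₀ d G 𝔭 h c}

end Good

private theorem char_large {K : Type} [Field K] [NumberField K] (p₀ : ℕ) (M : 𝓞 K)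
    (hM : ((p₀.factorial : ℕ) : 𝓞 K) ∣ M) (𝔭 : Ideal (𝓞 K)) (hm : 𝔭.IsMaximal) (hp : M ∉ 𝔭) :
    Finite (𝓞 K ⧸ 𝔭) ∧ ∃ p : ℕ, p.Prime ∧ p₀ ≤ p ∧ CharP (𝓞 K ⧸ 𝔭) p := by
  let _ : Field (𝓞 K ⧸ 𝔭) := Ideal.Quotient.field 𝔭
  have hbot : 𝔭 ≠ ⊥ := fun h => NumberField.RingOfIntegers.not_isField K (by
    rw [h] at hm
    exact Ring.isField_iff_maximal_bot.2 hm)
  have hfin : Finite (𝓞 K ⧸ 𝔭) := Ideal.finiteQuotientOfFreeOfNeBot 𝔭 hbot
  obtain ⟨p, hchar⟩ := CharP.exists (𝓞 K ⧸ 𝔭)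
  have hpp : p.Prime := by
    have hne : p ≠ 0 := fun h0 => by
      subst h0
      exact absurd hfin (by
        have : CharZero (𝓞 K ⧸ 𝔭) := CharP.charP_to_charZero _
        exact not_finite_iff_infinite.2 (CharZero.infinite _))
    exact (CharP.char_is_prime_or_zero (𝓞 K ⧸ 𝔭) p).resolve_right hne
  refine ⟨hfin, p, hpp, ?_, hchar⟩
  by_contra hlt
  push Not at hlt
  apply hp
  refine Ideal.mem_of_dvd 𝔭 hM ?_
  rw [← Ideal.Quotient.eq_zero_iff_mem, map_natCast]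
  exact (CharP.cast_eq_zero_iff (𝓞 K ⧸ 𝔭) p _).2 ((Nat.Prime.dvd_factorial hpp).2 hlt.le)

/-- The pencils through the members: the larger sieve. -/
theorem pencil {m : ℕ} (Q : ∀ (E : Type) [Field E], MvPolynomial (Fin m) E → Prop) (i₀ : Fin m) (d : ℕ)
    (E₁ : Finset (Fin m →₀ ℕ)) (hA : FewM Q i₀ d E₁) (K : Type) [Field K] [NumberField K] (δ : ℝ)
    (hδ : 0 < δ) (B : ℕ) :
    ∃ p₀ : ℕ, ∀ (C₀ : ℝ) (B' : ℕ), ∃ z₀ : ℕ, ∀ z : ℕ, z₀ ≤ z → ∀ M : 𝓞 K, M ≠ 0 → house (M : K) ≤ C₀ * (z : ℝ) ^ B' →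
      ((p₀.factorial : ℕ) : 𝓞 K) ∣ M → ∀ G : MvPolynomial (Fin m) (𝓞 K), G.IsHomogeneous d →
      (∀ (k : Type) [Field k] (ψ : 𝓞 K →+* k), ψ M ≠ 0 → MorseOver i₀ d (G.map ψ) ∧
        ∀ e ∈ E₁, coeff e (G.map ψ) ≠ 0) →
      {s : 𝓞 K | house (s : K) ≤ (z : ℝ) ^ B ∧
        wtK K (HasAt Q (G + C s * X i₀ ^ d)) z < (1 - δ) * wtK K (fun _ => True) z}.encard * 2 ≤ z := by
  classical
  obtain ⟨ε, hε, heng⟩ := engine K δ hδ B
  obtain ⟨p₀, hp₀⟩ := hA ε hε
  refine ⟨p₀, fun C₀ B' => ?_⟩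
  obtain ⟨z₀, hz₀⟩ := heng C₀ B'
  refine ⟨max z₀ 1, fun z hz M hM0 hMh hdvd G hG hmor => ?_⟩
  have hz1 : 1 ≤ z := (le_max_right _ _).trans hz
  have key := hz₀ z ((le_max_left _ _).trans hz) M hM0 hMh
    (fun t 𝔭 => ∀ s : 𝓞 K, (s : K) = t → HasAt Q (G + C s * X i₀ ^ d) 𝔭) (badM Q i₀ d G) ?_ ?_
  · refine le_trans (mul_le_mul_left ?_ _) key
    rw [← (RingOfIntegers.coe_injective (K := K)).encard_image]
    refine Set.encard_le_encard ?_
    rintro _ ⟨s, ⟨hs, hw⟩, rfl⟩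
    refine ⟨⟨s, 1, one_ne_zero, by simp, hs, ?_⟩, ?_⟩
    · have h1 : house ((1 : 𝓞 K) : K) = 1 := by
        have h := house_intCast (K := K) 1
        rw [Int.cast_one] at h
        have h' : ((1 : 𝓞 K) : K) = 1 := rfl
        rw [h', h]
        simp
      rw [h1]
      exact one_le_pow₀ (by exact_mod_cast hz1)
    · refine lt_of_le_of_lt ?_ hw
      refine wtK_mono _ _ z fun 𝔭 _ _ h => ?_
      exact h s rfl
  · intro 𝔭 hm hp
    obtain ⟨hfin, p, hpp, hpp₀, hchar⟩ := char_large p₀ M hdvd 𝔭 hm hp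
    let _ : Field (𝓞 K ⧸ 𝔭) := Ideal.Quotient.field 𝔭
    have hM' : Ideal.Quotient.mk 𝔭 M ≠ 0 := fun h => hp (Ideal.Quotient.eq_zero_iff_mem.1 h)
    have hpen : IsMorsePencil i₀ d (G.map (Ideal.Quotient.mk 𝔭)) := by
      unfold IsMorsePencil
      rw [MvPolynomial.map_map]
      refine (hmor _ _ ?_).1
      rw [RingHom.comp_apply]
      exact (map_ne_zero _).2 hM'
    have hco : ∀ e ∈ E₁, coeff e (G.map (Ideal.Quotient.mk 𝔭)) ≠ 0 := (hmor _ _ hM').2
    have h3 := hp₀ p hpp hpp₀ (𝓞 K ⧸ 𝔭) (G.map (Ideal.Quotient.mk 𝔭)) (hG.map _) hco hpen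
    have h4 : (badM Q i₀ d G 𝔭).ncard ≤ ({t : 𝓞 K ⧸ 𝔭 | ¬ Q _ (G.map (Ideal.Quotient.mk 𝔭) -
        C t * X i₀ ^ d)}).ncard := by
      refine Set.ncard_le_ncard_of_injOn (fun c => -c) ?_ (fun a _ b _ h => neg_injective h) (Set.toFinite _)
      intro c hc hc'
      refine hc ⟨hm, ?_⟩
      have h5 : ∀ F : MvPolynomial (Fin m) (𝓞 K ⧸ 𝔭), F - C (-c) * X i₀ ^ d = F + C c * X i₀ ^ d := by
        intro F
        rw [C_neg]
        ring
      rw [h5] at hc'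
      exact hc'
    have h5 : (Nat.card (𝓞 K ⧸ 𝔭) : ℝ) = Ideal.absNorm 𝔭 := by
      rw [Ideal.absNorm_apply]
      rfl
    rw [h5] at h3
    exact (Nat.cast_le.2 h4).trans h3
  · intro 𝔭 hm hp t a b c hb htb hc hcbad s hs
    let _ : Field (𝓞 K ⧸ 𝔭) := Ideal.Quotient.field 𝔭
    have hb' : Ideal.Quotient.mk 𝔭 b ≠ 0 := fun h => hb (Ideal.Quotient.eq_zero_iff_mem.1 h)
    have hsb : s * b = a := by
      apply RingOfIntegers.ext
      show (s : K) * (b : K) = a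
      rw [hs]
      exact htb
    have hcc : Ideal.Quotient.mk 𝔭 s = c := by
      apply mul_right_cancel₀ hb'
      rw [← map_mul, hsb, hc]
    have h1 : ∃ h : 𝔭.IsMaximal, goodM Q i₀ d G 𝔭 h c := by
      by_contra h
      exact hcbad h
    obtain ⟨_, h2⟩ := h1
    have h3 : (G + C s * X i₀ ^ d).map (Ideal.Quotient.mk 𝔭) = G.map (Ideal.Quotient.mk 𝔭) + C c * X i₀ ^ d := by
      rw [map_add, map_mul, map_C, map_pow, map_X, hcc]
    refine ⟨𝓞 K ⧸ 𝔭, inferInstance, Ideal.Quotient.mk 𝔭, Ideal.Quotient.mk_surjective, Ideal.mk_ker, ?_⟩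
    rw [h3]
    exact h2

end MPadcPZ
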