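import Pool.Agent.Lib.MP_adc574_ag_PZ.Noe
import Pool.Agent.Lib.MP_adc574_ag_PZ.AMain

/-!
# Uniformity in the Morse pencils

The theorem on the specialisations of a fixed generic Morse pencil implies the theorem on all Morse pencils over
finite fields of large characteristic: noetherian induction.
-/

set_option autoImplicit false

namespace MPadcPZ

open MvPolynomial MPadcLZ

/-- The theorem on the specialisations of a fixed Morse pencil. -/
def LocM {m : ℕ} (Q : ∀ (E : Type) [Field E], MvPolynomial (Fin m) E → Prop) (i₀ : Fin m) (d : ℕ) : Prop :=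
  ∀ (A : Type) [CommRing A] [IsDomain A] [CharZero A], IsUnit (2 : A) → ∀ G : MvPolynomial (Fin m) A,
    G.IsHomogeneous d → MorseOver i₀ d (G.map (algebraMap A (AlgebraicClosure (FractionRing A)))) →
      ∃ dis : A, dis ≠ 0 ∧ ∀ ε : ℝ, 0 < ε → ∃ p₀ : ℕ, ∀ p : ℕ, p.Prime → p₀ ≤ p →
        ∀ (E : Type) [Field E] [Finite E] [CharP E p] (ψ : A →+* E), ψ dis ≠ 0 →
          (Nat.card {t : E // ¬ Q E (G.map ψ - C t * X i₀ ^ d)} : ℝ) ≤ ε * Nat.card E

theorem few_of_locM {m : ℕ} (Q : ∀ (E : Type) [Field E], MvPolynomial (Fin m) E → Prop) (i₀ : Fin m) (d : ℕ)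
    (h : LocM Q i₀ d) : FewM Q i₀ d ∅ := by
  intro ε hε
  have key := noeth (R := MvPolynomial (Ed m d) ℤ) (fun E _ φ => IsMorsePencil i₀ d ((gg m d).map φ) →
      (Nat.card {t : E // ¬ Q E ((gg m d).map φ - C t * X i₀ ^ d)} : ℝ) ≤ ε * Nat.card E) ?_
  · obtain ⟨p₀, hp₀⟩ := key
    refine ⟨p₀, fun p hp hle E _ _ _ G hG _ hM => ?_⟩
    have h1 := hp₀ p hp hle E (evc G)
    rw [gg_map G hG] at h1
    exact h1 hM
  intro 𝔮 h𝔮
  by_cases hchar : ∃ ℓ : ℕ, ℓ ≠ 0 ∧ (ℓ : MvPolynomial (Ed m d) ℤ) ∈ 𝔮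
  · obtain ⟨ℓ, hℓ, hmem⟩ := hchar
    refine ⟨1, (Ideal.ne_top_iff_one _).1 h𝔮.ne_top, ℓ + 1, fun p _ hle E _ _ _ φ hφ _ => ?_⟩
    have h2 := hφ _ hmem
    rw [map_natCast, CharP.cast_eq_zero_iff E p] at h2
    have h3 := Nat.le_of_dvd (Nat.pos_of_ne_zero hℓ) h2
    omega
  by_cases hZ : ∃ i, (⟨𝔮, h𝔮⟩ : PrimeSpectrum _) ∈ Zs (SM i₀ d (gg m d) i)
  · obtain ⟨M, hM, h2⟩ := strat_neg (SM i₀ d (gg m d)) ⟨𝔮, h𝔮⟩ hZ
    refine ⟨M, hM, 0, fun p _ _ E _ _ _ φ hφ hMφ hMor => ?_⟩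
    exfalso
    unfold IsMorsePencil at hMor
    rw [MvPolynomial.map_map, morse_iff] at hMor
    obtain ⟨i, hi⟩ := h2 ⟨RingHom.ker ((algebraMap E (AlgebraicClosure E)).comp φ), RingHom.ker_isPrime _⟩
      (fun r hr => by
        show (algebraMap E (AlgebraicClosure E)) (φ r) = 0
        rw [hφ r hr, map_zero])
      (fun hr => by
        have h3 : (algebraMap E (AlgebraicClosure E)) (φ M) = 0 := hr
        exact hMφ ((map_eq_zero _).1 h3))
    obtain ⟨z, hz⟩ := (mem_Zs _ _).1 hi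
    obtain ⟨P, hP, hne⟩ := hMor i z
    exact hne (hz P hP)
  -- the main case
  have hdom : IsDomain (MvPolynomial (Ed m d) ℤ ⧸ 𝔮) := Ideal.Quotient.isDomain 𝔮
  have hcz : CharZero (MvPolynomial (Ed m d) ℤ ⧸ 𝔮) := by
    refine charZero_of_inj_zero fun n hn => ?_
    by_contra hne
    refine hchar ⟨n, hne, ?_⟩
    rw [← Ideal.Quotient.eq_zero_iff_mem, map_natCast]
    exact hn
  have hw : (2 : MvPolynomial (Ed m d) ℤ ⧸ 𝔮) ≠ 0 := two_ne_zero
  have hle : Submonoid.powers (2 : MvPolynomial (Ed m d) ℤ ⧸ 𝔮) ≤ nonZeroDivisors (MvPolynomial (Ed m d) ℤ ⧸ 𝔮) :=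
    powers_le_nonZeroDivisors_of_noZeroDivisors hw
  obtain ⟨A, _, _, hloc⟩ : ∃ (A : Type) (_ : CommRing A) (_ : Algebra (MvPolynomial (Ed m d) ℤ ⧸ 𝔮) A),
      IsLocalization.Away (2 : MvPolynomial (Ed m d) ℤ ⧸ 𝔮) A :=
    ⟨Localization.Away (2 : MvPolynomial (Ed m d) ℤ ⧸ 𝔮), inferInstance, inferInstance, inferInstance⟩
  have hdA : IsDomain A := IsLocalization.isDomain_of_le_nonZeroDivisors A hle
  have hinj : Function.Injective (algebraMap (MvPolynomial (Ed m d) ℤ ⧸ 𝔮) A) := IsLocalization.injective A hle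
  have hczA : CharZero A := charZero_of_injective_algebraMap hinj
  have hun : IsUnit (algebraMap (MvPolynomial (Ed m d) ℤ ⧸ 𝔮) A 2) :=
    IsLocalization.Away.algebraMap_isUnit (2 : MvPolynomial (Ed m d) ℤ ⧸ 𝔮)
  rw [map_ofNat] at hun
  obtain ⟨α, hα⟩ : ∃ α : MvPolynomial (Ed m d) ℤ →+* A, α = (algebraMap (MvPolynomial (Ed m d) ℤ ⧸ 𝔮) A).comp
    (Ideal.Quotient.mk 𝔮) := ⟨_, rfl⟩
  have hα0 : ∀ r, α r = 0 ↔ r ∈ 𝔮 := by
    intro r
    rw [hα, RingHom.comp_apply, map_eq_zero_iff _ hinj, Ideal.Quotient.eq_zero_iff_mem]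
  have hgh : (gg m d).IsHomogeneous d := by
    unfold gg
    refine IsHomogeneous.sum _ _ _ fun e _ => isHomogeneous_monomial _ ?_
    exact (mem_ed _).1 e.2
  have hMo : MorseOver i₀ d (((gg m d).map α).map (algebraMap A (AlgebraicClosure (FractionRing A)))) := by
    rw [MvPolynomial.map_map, morse_iff]
    intro i z
    by_contra hcon
    push Not at hcon
    apply hZ
    refine ⟨i, ?_⟩
    have h5 := (mem_Zs ((algebraMap A (AlgebraicClosure (FractionRing A))).comp α) (SM i₀ d (gg m d) i)).2 ⟨z, hcon⟩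
    have h6 : (⟨RingHom.ker ((algebraMap A (AlgebraicClosure (FractionRing A))).comp α), RingHom.ker_isPrime _⟩ :
        PrimeSpectrum (MvPolynomial (Ed m d) ℤ)) = ⟨𝔮, h𝔮⟩ := by
      apply PrimeSpectrum.ext
      ext r
      show (algebraMap A (AlgebraicClosure (FractionRing A))) (α r) = 0 ↔ r ∈ 𝔮
      have hinj2 : Function.Injective (algebraMap A (AlgebraicClosure (FractionRing A))) := by
        rw [IsScalarTower.algebraMap_eq A (FractionRing A) (AlgebraicClosure (FractionRing A))]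
        exact (algebraMap (FractionRing A) (AlgebraicClosure (FractionRing A))).injective.comp
          (IsFractionRing.injective A (FractionRing A))
      rw [map_eq_zero_iff _ hinj2, hα0]
    rw [h6] at h5
    exact h5
  obtain ⟨dis, hdis0, hdis⟩ := h A hun ((gg m d).map α) (hgh.map α) hMo
  obtain ⟨p₁, hp₁⟩ := hdis ε hε
  obtain ⟨n, b, hb⟩ := IsLocalization.Away.surj (2 : MvPolynomial (Ed m d) ℤ ⧸ 𝔮) dis
  obtain ⟨r, rfl⟩ := Ideal.Quotient.mk_surjective b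
  have hr : r ∉ 𝔮 := by
    intro hr
    rw [Ideal.Quotient.eq_zero_iff_mem.2 hr, map_zero, map_ofNat] at hb
    rcases mul_eq_zero.1 hb with h3 | h3
    · exact hdis0 h3
    · have hn : n ≠ 0 := fun h0 => by
        rw [h0, pow_zero] at h3
        exact one_ne_zero h3
      exact two_ne_zero ((pow_eq_zero_iff hn).1 h3)
  have h2q : (2 : MvPolynomial (Ed m d) ℤ) ∉ 𝔮 := fun h3 => hchar ⟨2, two_ne_zero, by exact_mod_cast h3⟩
  refine ⟨r * 2, fun h3 => ?_, p₁, fun p hp hle' E _ _ _ φ hφ hMφ hMor => ?_⟩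
  · rcases h𝔮.mem_or_mem h3 with h4 | h4
    · exact hr h4
    · exact h2q h4
  · rw [map_mul, map_ofNat] at hMφ
    have hr' : φ r ≠ 0 := left_ne_zero_of_mul hMφ
    have hw' : (2 : E) ≠ 0 := right_ne_zero_of_mul hMφ
    obtain ⟨φ₀, hφ₀⟩ : ∃ φ₀ : (MvPolynomial (Ed m d) ℤ ⧸ 𝔮) →+* E, ∀ r, φ₀ (Ideal.Quotient.mk 𝔮 r) = φ r :=
      ⟨Ideal.Quotient.lift 𝔮 φ hφ, fun r => Ideal.Quotient.lift_mk _ _ _⟩
    have hunit : IsUnit (φ₀ 2) := by
      rw [map_ofNat]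
      exact isUnit_iff_ne_zero.2 hw'
    obtain ⟨ψ, hψ⟩ : ∃ ψ : A →+* E, ∀ r, ψ (algebraMap _ A r) = φ₀ r :=
      ⟨IsLocalization.Away.lift (2 : MvPolynomial (Ed m d) ℤ ⧸ 𝔮) hunit,
        fun r => IsLocalization.Away.lift_eq (2 : MvPolynomial (Ed m d) ℤ ⧸ 𝔮) hunit r⟩
    have hψα : ψ.comp α = φ := by
      refine RingHom.ext fun r => ?_
      rw [hα, RingHom.comp_apply, RingHom.comp_apply, hψ, hφ₀]
    have hdisψ : ψ dis ≠ 0 := by
      intro h3
      have h4 := congrArg ψ hb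
      rw [map_mul, h3, zero_mul, hψ, hφ₀] at h4
      exact hr' h4.symm
    have h5 := hp₁ p hp hle' E ψ hdisψ
    rw [MvPolynomial.map_map, hψα] at h5
    exact h5

end MPadcPZ
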