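import Pool.Agent.Lib.MP_adc574_ag_PZ.Crit
import Pool.Agent.Lib.MP_adc574_ag_LZ.GeoB

/-!
# The Morse property is open

If a specialisation of the form `G` over a domain defines a Morse pencil, so does `G`.
-/

set_option autoImplicit false

namespace MPadcPZ

open MvPolynomial MPadcLZ

section Val

variable {Ω : Type} [Field Ω] (V : ValuationSubring Ω) {m d : ℕ} {i₀ : Fin m}

private theorem ev_map {R k : Type*} [CommRing R] [CommRing k] {m : ℕ} (φ : R →+* k) (y : Fin m → R)
    (P : MvPolynomial (Fin m) R) : eval (fun i => φ (y i)) (P.map φ) = φ (eval y P) := by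
  rw [eval_map, ← coe_eval₂Hom]
  have h1 : (eval₂Hom φ fun i => φ (y i)) = φ.comp (eval y) := by
    refine MvPolynomial.ringHom_ext (fun r => ?_) fun i => ?_
    · rw [coe_eval₂Hom, eval₂_C, RingHom.comp_apply, eval_C]
    · rw [coe_eval₂Hom, eval₂_X, RingHom.comp_apply, eval_X]
  rw [h1]
  rfl

theorem ev_smul {k : Type} [Field k] {m n : ℕ} {P : MvPolynomial (Fin m) k} (hP : P.IsHomogeneous n)
    (c : k) (y : Fin m → k) : eval (fun i => c * y i) P = c ^ n * eval y P := by
  have h := aeval_hom (R := k) (A := k) c y P (Hm_iff.2 hP)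
  exact h

/-- Scaling of a vector. -/
theorem exists_scale (x : Fin m → Ω) (hx : x ≠ 0) : ∃ (c : Ω) (y : Fin m → V) (k : Fin m), c ≠ 0 ∧
    (∀ i, x i = c * y i) ∧ y k = 1 := by
  obtain ⟨l, hl⟩ := Function.ne_iff.1 hx
  have : Nonempty (Fin m) := ⟨l⟩
  obtain ⟨k, hk⟩ := Finite.exists_max fun i => V.valuation (x i)
  have hk0 : x k ≠ 0 := by
    intro h0
    have h1 := hk l
    simp only [h0, map_zero] at h1
    have h2 : V.valuation (x l) = 0 := le_antisymm h1 zero_le
    exact hl ((map_eq_zero _).1 h2)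
  refine ⟨x k, fun i => ⟨x i / x k, ?_⟩, k, hk0, fun i => ?_, ?_⟩
  · rw [← V.valuation_le_one_iff, map_div₀]
    exact div_le_one_of_le₀ (hk i) zero_le
  · show x i = x k * (x i / x k)
    rw [mul_div_cancel₀ _ hk0]
  · apply Subtype.ext
    show x k / x k = 1
    exact div_self hk0

variable {V} {G : MvPolynomial (Fin m) V}

private theorem ev_V (y : Fin m → V) (P : MvPolynomial (Fin m) V) :
    eval (fun i => (y i : Ω)) (P.map V.subtype) = (eval y P : V) := ev_map V.subtype y P

private theorem ev_k (y : Fin m → V) (P : MvPolynomial (Fin m) V) :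
    eval (fun i => IsLocalRing.residue V (y i)) (P.map (IsLocalRing.residue V)) = IsLocalRing.residue V (eval y P) :=
  ev_map _ y P

private theorem pd_V (i : Fin m) (P : MvPolynomial (Fin m) V) :
    pderiv i (P.map V.subtype) = (pderiv i P).map V.subtype := pderiv_map

private theorem pd_k (i : Fin m) (P : MvPolynomial (Fin m) V) :
    pderiv i (P.map (IsLocalRing.residue V)) = (pderiv i P).map (IsLocalRing.residue V) := pderiv_map

private theorem zero_of {y : Fin m → V} {P : MvPolynomial (Fin m) V}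
    (h : eval (fun i => (y i : Ω)) (P.map V.subtype) = 0) : eval y P = 0 := by
  rw [ev_V] at h
  exact Subtype.ext h

private theorem inf_key (h : InfOver i₀ (G.map (IsLocalRing.residue V))) (y : Fin m → V) (k : Fin m) (hk : y k = 1)
    (h0 : IsLocalRing.residue V (y i₀) = 0) (hy : ∀ i, i ≠ i₀ → eval y (pderiv i G) = 0) : False := by
  have h1 := h (fun i => IsLocalRing.residue V (y i)) h0 fun i hi => by
    rw [pd_k, ev_k, hy i hi, map_zero]
  have h2 := congrFun h1 k
  simp only [hk, map_one] at h2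
  exact one_ne_zero h2

theorem inf_open (hG : G.IsHomogeneous d) (h : InfOver i₀ (G.map (IsLocalRing.residue V))) :
    InfOver i₀ (G.map V.subtype) := by
  intro x hx0 hx
  by_contra hne
  obtain ⟨c, y, k, hc, hxy, hk⟩ := exists_scale V x hne
  refine inf_key h y k hk ?_ fun i hi => ?_
  · have h1 := hxy i₀
    rw [hx0] at h1
    have h2 : (y i₀ : Ω) = 0 := (mul_eq_zero.1 h1.symm).resolve_left hc
    have h3 : y i₀ = 0 := Subtype.ext h2
    rw [h3, map_zero]
  · have h1 := hx i hi
    rw [show x = fun i => c * (y i : Ω) from funext hxy, ev_smul ((hG.map _).pderiv)] at h1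
    have h2 := (mul_eq_zero.1 h1).resolve_left (pow_ne_zero _ hc)
    rw [pd_V] at h2
    exact zero_of h2

private theorem crit_mem (hG : G.IsHomogeneous d) (h : InfOver i₀ (G.map (IsLocalRing.residue V))) (x : Fin m → Ω)
    (hx0 : x i₀ = 1) (hx : ∀ i, i ≠ i₀ → eval x (pderiv i (G.map V.subtype)) = 0) :
    ∃ y : Fin m → V, ∀ i, (y i : Ω) = x i := by
  have hne : x ≠ 0 := fun h0 => one_ne_zero (by rw [← hx0, h0]; rfl)
  obtain ⟨c, y, k, hc, hxy, hk⟩ := exists_scale V x hne
  by_cases hcV : c ∈ V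
  · exact ⟨fun i => ⟨c, hcV⟩ * y i, fun i => (hxy i).symm⟩
  · exfalso
    have hinv : c⁻¹ ∈ V := (V.mem_or_inv_mem c).resolve_left hcV
    refine inf_key h y k hk ?_ fun i hi => ?_
    · have h1 := hxy i₀
      rw [hx0] at h1
      have h2 : (y i₀ : Ω) = c⁻¹ := eq_inv_of_mul_eq_one_right h1.symm
      rw [IsLocalRing.residue_eq_zero_iff, IsLocalRing.mem_maximalIdeal, mem_nonunits_iff]
      intro hu
      obtain ⟨u, hu⟩ := hu.exists_right_inv
      have h3 := congrArg (fun t : V => (t : Ω)) hu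
      have h4 : (y i₀ : Ω) * (u : Ω) = 1 := h3
      rw [h2] at h4
      have h5 : (u : Ω) = c := by
        have h6 := congrArg (fun t => c * t) h4
        simp only [mul_one] at h6
        rw [mul_inv_cancel_left₀ hc] at h6
        exact h6
      exact hcV (h5 ▸ u.2)
    · have h1 := hx i hi
      rw [show x = fun i => c * (y i : Ω) from funext hxy, ev_smul ((hG.map _).pderiv)] at h1
      have h2 := (mul_eq_zero.1 h1).resolve_left (pow_ne_zero _ hc)
      rw [pd_V] at h2
      exact zero_of h2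

private theorem pdc' {R : Type*} [CommRing R] {N : ℕ} (P : MvPolynomial (Fin N) R) (a b : Fin N) :
    pderiv a (pderiv b P) = pderiv b (pderiv a P) := by
  rcases eq_or_ne a b with rfl | h
  · rfl
  · ext e
    rw [coeff_pderiv, coeff_pderiv, coeff_pderiv, coeff_pderiv, Finsupp.add_apply, Finsupp.add_apply,
      Finsupp.single_eq_of_ne h.symm, Finsupp.single_eq_of_ne h, add_right_comm, add_zero, add_zero]
    ring

/-- The member `G - τ x_{i₀} ^ d`. -/
private noncomputable def mm {R : Type*} [CommRing R] {m : ℕ} (i₀ : Fin m) (d : ℕ) (G : MvPolynomial (Fin m) R) (τ : R) :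
    MvPolynomial (Fin m) R :=
  G - C τ * X i₀ ^ d

private theorem mm_map {R S : Type*} [CommRing R] [CommRing S] (φ : R →+* S) {m : ℕ} (i₀ : Fin m) (d : ℕ)
    (G : MvPolynomial (Fin m) R) (τ : R) : (mm i₀ d G τ).map φ = mm i₀ d (G.map φ) (φ τ) := by
  unfold mm
  rw [map_sub, map_mul, map_C, map_pow, map_X]

private theorem mm_hom {R : Type*} [CommRing R] {m : ℕ} {i₀ : Fin m} {d : ℕ} {G : MvPolynomial (Fin m) R}
    (hG : G.IsHomogeneous d) (τ : R) : (mm i₀ d G τ).IsHomogeneous d := by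
  refine hG.sub ?_
  have h1 := (isHomogeneous_C (Fin m) τ).mul (isHomogeneous_X_pow (R := R) i₀ d)
  rwa [zero_add] at h1

private theorem sing_mm {k : Type} [Field k] {m : ℕ} {i₀ : Fin m} {d : ℕ} {G : MvPolynomial (Fin m) k} {τ : k}
    {x : Fin m → k} : IsSing G (X i₀ ^ d) τ x ↔ x ≠ 0 ∧ ∀ i, eval x (pderiv i (mm i₀ d G τ)) = 0 := by
  unfold IsSing mm
  refine and_congr_right fun _ => forall_congr' fun i => ?_
  rw [map_sub, pderiv_C_mul, map_sub, map_mul, eval_C, sub_eq_zero]

private theorem pd_ne {R : Type*} [CommRing R] {m : ℕ} {i₀ i : Fin m} (hi : i ≠ i₀) (d : ℕ) :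
    pderiv i (X i₀ ^ d : MvPolynomial (Fin m) R) = 0 := by
  rw [Derivation.leibniz_pow, pderiv_X, Pi.single_eq_of_ne hi.symm, smul_zero, smul_zero]

private theorem sing_smul' {k : Type} [Field k] {m : ℕ} {i₀ : Fin m} {d : ℕ} {G : MvPolynomial (Fin m) k}
    (hG : G.IsHomogeneous d) {τ : k} {x : Fin m → k} (c : k) (hc : c ≠ 0)
    (h : IsSing G (X i₀ ^ d) τ fun i => c * x i) : IsSing G (X i₀ ^ d) τ x := by
  rw [sing_mm] at h ⊢
  obtain ⟨h1, h2⟩ := h
  refine ⟨fun h0 => h1 ?_, fun i => ?_⟩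
  · funext i
    rw [h0]
    exact mul_zero c
  · have h3 := h2 i
    rw [ev_smul ((mm_hom hG τ).pderiv)] at h3
    exact (mul_eq_zero.1 h3).resolve_left (pow_ne_zero _ hc)

/-- The data of a singular point with `x_{i₀} = 1`. -/
private theorem lift_sing (hG : G.IsHomogeneous d) (h : InfOver i₀ (G.map (IsLocalRing.residue V)))
    (hd : IsUnit (d : V)) {τ : Ω} {x : Fin m → Ω} (hx : IsSing (G.map V.subtype) (X i₀ ^ d) τ x) (hx1 : x i₀ = 1) :
    ∃ (y : Fin m → V) (σ : V), (∀ i, (y i : Ω) = x i) ∧ (σ : Ω) = τ ∧ y i₀ = 1 ∧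
      ∀ i, eval y (pderiv i (mm i₀ d G σ)) = 0 := by
  obtain ⟨y, hy⟩ := crit_mem hG h x hx1 fun i hi => by
    have h1 := hx.2 i
    rw [pd_ne hi, map_zero, mul_zero] at h1
    exact h1
  have hyx : x = fun i => (y i : Ω) := funext fun i => (hy i).symm
  obtain ⟨u, hu⟩ := hd.exists_right_inv
  have h1 := hx.2 i₀
  rw [Derivation.leibniz_pow, pderiv_X, Pi.single_eq_same, smul_eq_mul, mul_one, nsmul_eq_mul, map_mul, map_natCast,
    map_pow, eval_X, hx1, one_pow, mul_one] at h1
  have hσ : ((eval y (pderiv i₀ G) * u : V) : Ω) = τ := by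
    have h2 : ((eval y (pderiv i₀ G) : V) : Ω) = τ * d := by
      rw [← h1, hyx, pd_V, ev_V]
    have h3 : ((eval y (pderiv i₀ G) * u : V) : Ω) = ((eval y (pderiv i₀ G) : V) : Ω) * (u : Ω) :=
      map_mul V.subtype _ _
    have h5 : (d : Ω) * (u : Ω) = 1 := by
      have h6 := congrArg V.subtype hu
      rw [map_mul, map_natCast, map_one] at h6
      exact h6
    rw [h3, h2, mul_assoc, h5, mul_one]
  obtain ⟨σ, hσ'⟩ : ∃ σ : V, (σ : Ω) = τ := ⟨_, hσ⟩
  refine ⟨y, σ, hy, hσ', ?_, fun i => ?_⟩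
  · apply Subtype.ext
    rw [hy, hx1]
    rfl
  · have h2 := (sing_mm.1 hx).2 i
    rw [hyx, ← hσ'] at h2
    have h3 : mm i₀ d (G.map V.subtype) (σ : Ω) = (mm i₀ d G σ).map V.subtype := (mm_map _ _ _ _ _).symm
    rw [h3, pd_V] at h2
    exact zero_of h2

private theorem red_sing {y : Fin m → V} {σ : V} (hy1 : y i₀ = 1) (hy : ∀ i, eval y (pderiv i (mm i₀ d G σ)) = 0) :
    IsSing (G.map (IsLocalRing.residue V)) (X i₀ ^ d) (IsLocalRing.residue V σ)
      fun i => IsLocalRing.residue V (y i) := by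
  rw [sing_mm]
  refine ⟨fun h0 => ?_, fun i => ?_⟩
  · have h1 := congrFun h0 i₀
    simp only [hy1, map_one] at h1
    exact one_ne_zero h1
  · rw [← mm_map, pd_k, ev_k, hy i, map_zero]

/-- A vector with one coordinate `1` in the kernel of the Hessian modulo the maximal ideal. -/
private theorem node_key (h : MorseOver i₀ d (G.map (IsLocalRing.residue V))) {y : Fin m → V} {σ : V}
    (hy1 : y i₀ = 1) (hy : ∀ i, eval y (pderiv i (mm i₀ d G σ)) = 0) (u : Fin m → V) (k : Fin m) (hk : u k = 1)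
    (hu0 : u i₀ = 0) (hu : ∀ a, IsLocalRing.residue V (∑ b, eval y (pderiv a (pderiv b (mm i₀ d G σ))) * u b) = 0) :
    False := by
  obtain ⟨c, hc⟩ := h.lef.node _ _ (red_sing hy1 hy) (fun i => IsLocalRing.residue V (u i)) fun a => by
    have h1 := hu a
    rw [map_sum] at h1
    rw [← h1]
    refine Finset.sum_congr rfl fun b _ => ?_
    have h2 : G.map (IsLocalRing.residue V) - C (IsLocalRing.residue V σ) * X i₀ ^ d =
        (mm i₀ d G σ).map (IsLocalRing.residue V) := (mm_map _ _ _ _ _).symm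
    rw [h2, pd_k, pd_k, ev_k, map_mul]
  have h1 := congrFun hc i₀
  have h2 : IsLocalRing.residue V (u i₀) = c * IsLocalRing.residue V (y i₀) := h1
  rw [hu0, hy1, map_zero, map_one, mul_one] at h2
  have h3 := congrFun hc k
  have h4 : IsLocalRing.residue V (u k) = c * IsLocalRing.residue V (y k) := h3
  rw [hk, ← h2, zero_mul, map_one] at h4
  exact one_ne_zero h4

theorem morse_open (hG : G.IsHomogeneous d) (hd : IsUnit (d : V))
    (h : MorseOver i₀ d (G.map (IsLocalRing.residue V))) : MorseOver i₀ d (G.map V.subtype) := by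
  have hinf : InfOver i₀ (G.map V.subtype) := inf_open hG h.inf
  have hne : ∀ (τ : Ω) (x : Fin m → Ω), IsSing (G.map V.subtype) (X i₀ ^ d) τ x → x i₀ ≠ 0 := by
    intro τ x hx h0
    refine hx.1 (hinf x h0 fun i hi => ?_)
    rw [hx.2 i, pd_ne hi, map_zero, mul_zero]
  have hnorm : ∀ (τ : Ω) (x : Fin m → Ω), IsSing (G.map V.subtype) (X i₀ ^ d) τ x →
      IsSing (G.map V.subtype) (X i₀ ^ d) τ (fun i => (x i₀)⁻¹ * x i) ∧ (x i₀)⁻¹ * x i₀ = 1 := by
    intro τ x hx
    refine ⟨sing_smul' (hG.map _) (x i₀) (hne τ x hx) ?_, inv_mul_cancel₀ (hne τ x hx)⟩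
    have h1 : (fun i => x i₀ * ((x i₀)⁻¹ * x i)) = x := by
      funext i
      rw [mul_inv_cancel_left₀ (hne τ x hx)]
    rw [h1]
    exact hx
  refine ⟨hinf, fun τ x hx => ?_, fun τ x hx v hv => ?_, fun τ x z hx hz => ?_⟩
  · rw [map_pow, eval_X]
    exact pow_ne_zero _ (hne τ x hx)
  · obtain ⟨hx', hx1⟩ := hnorm τ x hx
    obtain ⟨y, σ, hyx, hσ, hy1, hy⟩ := lift_sing hG h.inf hd hx' hx1
    obtain ⟨v', hv'⟩ : ∃ v' : Fin m → Ω, ∀ i, v' i = v i - v i₀ * ((x i₀)⁻¹ * x i) := ⟨_, fun _ => rfl⟩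
    by_cases h0 : v' = 0
    · refine ⟨v i₀ * (x i₀)⁻¹, funext fun i => ?_⟩
      have h1 := hv' i
      rw [h0] at h1
      have h2 : v i = v i₀ * ((x i₀)⁻¹ * x i) := (sub_eq_zero.1 h1.symm)
      rw [h2]
      show _ = v i₀ * (x i₀)⁻¹ * x i
      ring
    · exfalso
      obtain ⟨c, u, k, hc, hu, hk⟩ := exists_scale V v' h0
      have hQ : G.map V.subtype - C τ * X i₀ ^ d = (mm i₀ d G σ).map V.subtype := by
        rw [mm_map, ← hσ]
        rfl
      have hker : ∀ a, ∑ b, eval (fun i => (y i : Ω)) (pderiv a (pderiv b ((mm i₀ d G σ).map V.subtype))) * v b = 0 := by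
        intro a
        have h1 := hv a
        rw [hQ] at h1
        have hx2 : x = fun i => x i₀ * (y i : Ω) := by
          funext i
          rw [hyx, mul_inv_cancel_left₀ (hne τ x hx)]
        have h3 : ∀ b, eval x (pderiv a (pderiv b ((mm i₀ d G σ).map V.subtype))) =
            x i₀ ^ (d - 1 - 1) * eval (fun i => (y i : Ω)) (pderiv a (pderiv b ((mm i₀ d G σ).map V.subtype))) := by
          intro b
          conv_lhs => rw [hx2]
          exact ev_smul ((((mm_hom hG σ).map _).pderiv).pderiv) _ _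
        simp only [h3, mul_assoc] at h1
        rw [← Finset.mul_sum] at h1
        exact (mul_eq_zero.1 h1).resolve_left (pow_ne_zero _ (hne τ x hx))
      have hEul : ∀ a, ∑ b, eval (fun i => (y i : Ω)) (pderiv a (pderiv b ((mm i₀ d G σ).map V.subtype))) * (y b : Ω) = 0 := by
        intro a
        have h1 := congrArg (eval fun i => (y i : Ω)) ((((mm_hom (i₀ := i₀) hG σ).map V.subtype).pderiv (i := a))).sum_X_mul_pderiv
        rw [map_sum, nsmul_eq_mul, map_mul, pd_V, ev_V, hy a] at h1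
        have h2 : ((0 : V) : Ω) = 0 := rfl
        rw [h2, mul_zero] at h1
        rw [← h1]
        refine Finset.sum_congr rfl fun b _ => ?_
        rw [map_mul, eval_X, ← pd_V, pdc', mul_comm]
      refine node_key h hy1 hy u k hk ?_ fun a => ?_
      · have h1 := hu i₀
        rw [hv', hx1, mul_one, sub_self] at h1
        exact Subtype.ext ((mul_eq_zero.1 h1.symm).resolve_left hc)
      · have h1 : ∑ b, eval (fun i => (y i : Ω)) (pderiv a (pderiv b ((mm i₀ d G σ).map V.subtype))) * v' b = 0 := by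
          have h2 : ∀ b, eval (fun i => (y i : Ω)) (pderiv a (pderiv b ((mm i₀ d G σ).map V.subtype))) * v' b =
              eval (fun i => (y i : Ω)) (pderiv a (pderiv b ((mm i₀ d G σ).map V.subtype))) * v b -
                v i₀ * (eval (fun i => (y i : Ω)) (pderiv a (pderiv b ((mm i₀ d G σ).map V.subtype))) * (y b : Ω)) := by
            intro b
            rw [hv', ← hyx]
            ring
          simp only [h2]
          rw [Finset.sum_sub_distrib, ← Finset.mul_sum, hker a, hEul a, mul_zero, sub_zero]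
        have h3 : ∑ b, eval y (pderiv a (pderiv b (mm i₀ d G σ))) * u b = 0 := by
          apply Subtype.ext
          have h4 : ((∑ b, eval y (pderiv a (pderiv b (mm i₀ d G σ))) * u b : V) : Ω) =
              ∑ b, eval (fun i => (y i : Ω)) (pderiv a (pderiv b ((mm i₀ d G σ).map V.subtype))) * (u b : Ω) := by
            rw [← V.subtype_apply, map_sum]
            refine Finset.sum_congr rfl fun b _ => ?_
            rw [map_mul, pd_V, pd_V, ev_V]
            rfl
          rw [h4]
          have h5 : c * ∑ b, eval (fun i => (y i : Ω)) (pderiv a (pderiv b ((mm i₀ d G σ).map V.subtype))) * (u b : Ω) = 0 := by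
            rw [Finset.mul_sum, ← h1]
            refine Finset.sum_congr rfl fun b _ => ?_
            rw [hu b]
            ring
          exact (mul_eq_zero.1 h5).resolve_left hc
        rw [h3, map_zero]
  · obtain ⟨hx', hx1⟩ := hnorm τ x hx
    obtain ⟨hz', hz1⟩ := hnorm τ z hz
    obtain ⟨y, σ, hyx, hσ, hy1, hy⟩ := lift_sing hG h.inf hd hx' hx1
    obtain ⟨w, σ', hwz, hσ', hw1, hw⟩ := lift_sing hG h.inf hd hz' hz1
    have hσσ : σ' = σ := Subtype.ext (by rw [hσ, hσ'])
    rw [hσσ] at hw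
    by_cases h0 : (fun i => (w i : Ω) - (y i : Ω)) = 0
    · refine ⟨z i₀ * (x i₀)⁻¹, funext fun i => ?_⟩
      have h1 := congrFun h0 i
      have h2 : (w i : Ω) = (y i : Ω) := sub_eq_zero.1 h1
      rw [hwz, hyx] at h2
      show z i = z i₀ * (x i₀)⁻¹ * x i
      have h3 : z i = z i₀ * ((z i₀)⁻¹ * z i) := by rw [mul_inv_cancel_left₀ (hne τ z hz)]
      rw [h3, h2]
      ring
    · exfalso
      obtain ⟨c, u, k, hc, hu, hk⟩ := exists_scale V _ h0
      obtain ⟨c₀, hc₀⟩ : ∃ c₀ : V, c₀ = w k - y k := ⟨_, rfl⟩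
      have hcc : (c₀ : Ω) = c := by
        have h1 := hu k
        rw [hk] at h1
        have h2 : ((1 : V) : Ω) = 1 := rfl
        rw [h2, mul_one] at h1
        rw [hc₀, ← h1]
        rfl
      have hwy : ∀ i, w i = y i + c₀ * u i := by
        intro i
        apply Subtype.ext
        have h1 := hu i
        show (w i : Ω) = (y i : Ω) + (c₀ : Ω) * (u i : Ω)
        rw [hcc]
        linear_combination h1
      have hc₀0 : c₀ ≠ 0 := fun h1 => hc (by rw [← hcc, h1]; rfl)
      have hres : IsLocalRing.residue V c₀ = 0 := by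
        obtain ⟨a, ha⟩ := h.lef.uniq _ _ _ (red_sing hy1 hy) (red_sing hw1 hw)
        have h1 : IsLocalRing.residue V (w i₀) = a * IsLocalRing.residue V (y i₀) := congrFun ha i₀
        rw [hw1, hy1, map_one, mul_one] at h1
        have h2 : IsLocalRing.residue V (w k) = a * IsLocalRing.residue V (y k) := congrFun ha k
        rw [hc₀, map_sub, h2, ← h1, one_mul, sub_self]
      refine node_key h hy1 hy u k hk ?_ fun a => ?_
      · have h1 := hwy i₀
        rw [hw1, hy1] at h1
        have h2 : c₀ * u i₀ = 0 := by linear_combination -h1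
        exact (mul_eq_zero.1 h2).resolve_left hc₀0
      · have h1 := taylor_sq (R := V) (Ideal.span {c₀}) y (fun i => c₀ * u i)
          (fun i => Ideal.mem_span_singleton.2 (dvd_mul_right _ _)) (pderiv a (mm i₀ d G σ))
        have h2 : (fun i => y i + c₀ * u i) = w := funext fun i => (hwy i).symm
        rw [h2] at h1
        have h3 : aeval w (pderiv a (mm i₀ d G σ)) = (0 : V) := hw a
        have h4 : aeval y (pderiv a (mm i₀ d G σ)) = (0 : V) := hy a
        rw [h3, h4, sub_self, zero_sub, Ideal.span_singleton_pow, neg_mem_iff, Ideal.mem_span_singleton] at h1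
        have h5 : ∑ b, aeval y (pderiv b (pderiv a (mm i₀ d G σ))) * (c₀ * u b) =
            c₀ * ∑ b, eval y (pderiv a (pderiv b (mm i₀ d G σ))) * u b := by
          rw [Finset.mul_sum]
          refine Finset.sum_congr rfl fun b _ => ?_
          rw [pdc' _ b a]
          show eval y (pderiv a (pderiv b (mm i₀ d G σ))) * (c₀ * u b) = _
          ring
        rw [h5, sq] at h1
        have h6 := (mul_dvd_mul_iff_left hc₀0).1 h1
        obtain ⟨e, he⟩ := h6
        rw [he, map_mul, hres, zero_mul]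

end Val

section Special

/-- A valuation ring with a given specialisation. -/
private theorem exists_val {A : Type} [CommRing A] [IsDomain A] {Ω₀ : Type} [Field Ω₀] (σ : A →+* Ω₀)
    {Ω : Type} [Field Ω] (j : A →+* Ω) (hj : Function.Injective j) :
    ∃ (V : ValuationSubring Ω) (ρ : A →+* V) (j₂ : A ⧸ RingHom.ker σ →+* IsLocalRing.ResidueField V),
      V.subtype.comp ρ = j ∧ Function.Injective j₂ ∧
        j₂.comp (Ideal.Quotient.mk (RingHom.ker σ)) = (IsLocalRing.residue V).comp ρ := by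
  have hpr : (RingHom.ker σ).IsPrime := RingHom.ker_isPrime σ
  have hun : ∀ a : (RingHom.ker σ).primeCompl, IsUnit (j a) := by
    intro a
    refine isUnit_iff_ne_zero.2 fun h0 => a.2 ?_
    have h1 : (a : A) = 0 := hj (by rw [h0, map_zero])
    show (a : A) ∈ RingHom.ker σ
    rw [h1]
    exact Ideal.zero_mem _
  obtain ⟨f, hf⟩ : ∃ f : Localization.AtPrime (RingHom.ker σ) →+* Ω,
      ∀ a, f (algebraMap A (Localization.AtPrime (RingHom.ker σ)) a) = j a :=
    ⟨IsLocalization.lift hun, fun a => IsLocalization.lift_eq hun a⟩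
  obtain ⟨V, hV, hloc⟩ := IsLocalRing.exists_factor_valuationRing f
  obtain ⟨ρ, hρ⟩ : ∃ ρ : A →+* V, ρ = (f.codRestrict V.toSubring hV).comp
    (algebraMap A (Localization.AtPrime (RingHom.ker σ))) := ⟨_, rfl⟩
  have hρj : V.subtype.comp ρ = j := by
    refine RingHom.ext fun a => ?_
    rw [hρ]
    exact hf a
  have hker : ∀ a, IsLocalRing.residue V (ρ a) = 0 ↔ σ a = 0 := by
    intro a
    rw [IsLocalRing.residue_eq_zero_iff, IsLocalRing.mem_maximalIdeal, mem_nonunits_iff]
    have h1 : IsUnit (ρ a) ↔ IsUnit (algebraMap A (Localization.AtPrime (RingHom.ker σ)) a) := by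
      rw [hρ]
      exact isUnit_map_iff (f.codRestrict V.toSubring hV) _
    rw [h1, IsLocalization.AtPrime.isUnit_to_map_iff (Localization.AtPrime (RingHom.ker σ)) (RingHom.ker σ)]
    show ¬ ¬ a ∈ RingHom.ker σ ↔ _
    rw [not_not]
    rfl
  obtain ⟨j₂, hj₂⟩ : ∃ j₂ : A ⧸ RingHom.ker σ →+* IsLocalRing.ResidueField V,
      ∀ a, j₂ (Ideal.Quotient.mk _ a) = IsLocalRing.residue V (ρ a) :=
    ⟨Ideal.Quotient.lift _ ((IsLocalRing.residue V).comp ρ) (fun a ha => (hker a).2 ha), fun a => rfl⟩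
  have hj₂i : Function.Injective j₂ := by
    rw [injective_iff_map_eq_zero]
    intro a ha
    obtain ⟨a, rfl⟩ := Ideal.Quotient.mk_surjective a
    rw [hj₂, hker] at ha
    exact Ideal.Quotient.eq_zero_iff_mem.2 ha
  exact ⟨V, ρ, j₂, hρj, hj₂i, RingHom.ext fun a => hj₂ a⟩

variable {m d : ℕ} {i₀ : Fin m}

/-- If a specialisation defines a Morse pencil, so does the form. -/
theorem morse_of_special {A : Type} [CommRing A] [IsDomain A] {G : MvPolynomial (Fin m) A} (hd1 : 1 ≤ d)
    (hG : G.IsHomogeneous d) {Ω₀ : Type} [Field Ω₀] [CharZero Ω₀] [IsAlgClosed Ω₀] (σ : A →+* Ω₀)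
    (h : MorseOver i₀ d (G.map σ)) {Ω : Type} [Field Ω] (j : A →+* Ω) (hj : Function.Injective j) :
    MorseOver i₀ d (G.map j) := by
  obtain ⟨V, ρ, j₂, hρj, hj₂i, hjρ⟩ := exists_val σ j hj
  have h1 : MorseOver i₀ d ((G.map (Ideal.Quotient.mk (RingHom.ker σ))).map (RingHom.kerLift σ)) := by
    rw [MvPolynomial.map_map]
    exact h
  have hpr : (RingHom.ker σ).IsPrime := RingHom.ker_isPrime σ
  have hdom : IsDomain (A ⧸ RingHom.ker σ) := Ideal.Quotient.isDomain _
  have h2 := morse_up (hG.map _) (RingHom.kerLift σ) j₂ (RingHom.kerLift_injective σ) hj₂i h1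
  have hcz : CharZero (A ⧸ RingHom.ker σ) := (RingHom.kerLift σ).charZero
  have hcz2 : CharZero (IsLocalRing.ResidueField V) := charZero_of_injective_ringHom hj₂i
  rw [MvPolynomial.map_map, hjρ, ← MvPolynomial.map_map] at h2
  have h4 := morse_open (hG.map ρ) (by
    by_contra hu
    have h5 : IsLocalRing.residue V (d : V) = 0 := by
      rw [IsLocalRing.residue_eq_zero_iff, IsLocalRing.mem_maximalIdeal, mem_nonunits_iff]
      exact hu
    rw [map_natCast] at h5
    have h6 : d = 0 := Nat.cast_eq_zero.1 h5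
    omega) h2
  rw [MvPolynomial.map_map, hρj] at h4
  exact h4

/-- If a specialisation is smooth on the hyperplane `x_{i₀} = 0`, so is the form. -/
theorem inf_of_special {A : Type} [CommRing A] [IsDomain A] {G : MvPolynomial (Fin m) A}
    (hG : G.IsHomogeneous d) {Ω₀ : Type} [Field Ω₀] [IsAlgClosed Ω₀] (σ : A →+* Ω₀)
    (h : InfOver i₀ (G.map σ)) {Ω : Type} [Field Ω] (j : A →+* Ω) (hj : Function.Injective j) :
    InfOver i₀ (G.map j) := by
  obtain ⟨V, ρ, j₂, hρj, hj₂i, hjρ⟩ := exists_val σ j hj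
  have h1 : InfOver i₀ ((G.map (Ideal.Quotient.mk (RingHom.ker σ))).map (RingHom.kerLift σ)) := by
    rw [MvPolynomial.map_map]
    exact h
  have hpr : (RingHom.ker σ).IsPrime := RingHom.ker_isPrime σ
  have hdom : IsDomain (A ⧸ RingHom.ker σ) := Ideal.Quotient.isDomain _
  have h2 := inf_up (RingHom.kerLift σ) j₂ (RingHom.kerLift_injective σ) hj₂i h1
  rw [MvPolynomial.map_map, hjρ, ← MvPolynomial.map_map] at h2
  have h4 := inf_open (hG.map ρ) h2
  rw [MvPolynomial.map_map, hρj] at h4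
  exact h4

end Special

end MPadcPZ
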