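import Pool.Agent.Lib.MP_adc574_ag_PZ.HDefs
import Pool.Agent.Lib.MP_adc574_ag_PZ.LocM
import Pool.Agent.Lib.MP_adc574_ag_PZ.Opn

/-!
# Linear systems of hypersurfaces over number fields
-/

set_option autoImplicit false

namespace MPadcPZ.Hyper

open MvPolynomial MPadcLZ NumberField MPadcOA MPadcPZ MPadcBK

section Morse

variable {κ : Type} [Field κ] {m d : ℕ} {i₀ : Fin m} {G : MvPolynomial (Fin m) κ}

private theorem pdcH {R : Type*} [CommRing R] {N : ℕ} (P : MvPolynomial (Fin N) R) (a b : Fin N) :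
    pderiv a (pderiv b P) = pderiv b (pderiv a P) := by
  rcases eq_or_ne a b with rfl | h
  · rfl
  · ext e
    rw [coeff_pderiv, coeff_pderiv, coeff_pderiv, coeff_pderiv, Finsupp.add_apply, Finsupp.add_apply,
      Finsupp.single_eq_of_ne h.symm, Finsupp.single_eq_of_ne h, add_right_comm, add_zero, add_zero]
    ring

private theorem pdH (d : ℕ) (i : Fin m) (hi : i ≠ i₀) : pderiv i (X i₀ ^ d : MvPolynomial (Fin m) κ) = 0 := by
  rw [Derivation.leibniz_pow, pderiv_X, Pi.single_eq_of_ne (Ne.symm hi), smul_zero, smul_zero]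

private theorem eulerH {d : ℕ} {P : MvPolynomial (Fin m) κ} (hP : P.IsHomogeneous d) (x : Fin m → κ) :
    ∑ i, x i * eval x (pderiv i P) = d * eval x P := by
  have h := congrArg (eval x) hP.sum_X_mul_pderiv
  rw [map_sum, nsmul_eq_mul, map_mul, map_natCast] at h
  rw [← h]
  refine Finset.sum_congr rfl fun i _ => ?_
  rw [map_mul, eval_X]

private theorem norm_sing [CharZero κ] (hd : 1 ≤ d) (hG : G.IsHomogeneous d) (h : IsTransversal i₀ G) {τ : κ}
    {x : Fin m → κ} (hx : IsSing G (X i₀ ^ d) τ x) : ∃ p : Fin m → κ, x i₀ ≠ 0 ∧ (x = fun i => x i₀ * p i) ∧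
      IsCritical i₀ G p ∧ eval p G = τ := by
  have hx2 : x i₀ ≠ 0 := by
    intro h0
    refine hx.1 (h x h0 fun i hi => ?_)
    rw [hx.2 i, pdH d i hi, map_zero, mul_zero]
  obtain ⟨p, hp⟩ : ∃ p : Fin m → κ, ∀ i, p i = x i / x i₀ := ⟨_, fun _ => rfl⟩
  have hxe : x = fun i => x i₀ * p i := by
    funext i
    rw [hp, mul_div_cancel₀ _ hx2]
  have hp1 : p i₀ = 1 := by rw [hp, div_self hx2]
  have hcr : ∀ i, i ≠ i₀ → eval p (pderiv i G) = 0 := by
    intro i hi
    have h1 := hx.2 i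
    rw [pdH d i hi, map_zero, mul_zero, hxe, ev_smul hG.pderiv] at h1
    exact (mul_eq_zero.1 h1).resolve_left (pow_ne_zero _ hx2)
  refine ⟨p, hx2, hxe, ⟨hp1, hcr⟩, ?_⟩
  have hdk : (d : κ) ≠ 0 := Nat.cast_ne_zero.2 (by omega)
  have h1 := eulerH hG p
  rw [Finset.sum_eq_single i₀ (fun i _ hi => by rw [hcr i hi, mul_zero]) (fun h => absurd (Finset.mem_univ _) h),
    hp1, one_mul] at h1
  have h2 := hx.2 i₀
  rw [Derivation.leibniz_pow, pderiv_X, Pi.single_eq_same, smul_eq_mul, mul_one, nsmul_eq_mul, map_mul, map_natCast,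
    map_pow, eval_X] at h2
  have h3 : eval x (pderiv i₀ G) = x i₀ ^ (d - 1) * eval p (pderiv i₀ G) := by
    conv_lhs => rw [hxe]
    exact ev_smul hG.pderiv _ _
  rw [h3, h1] at h2
  have h4 : x i₀ ^ (d - 1) * (d : κ) * (eval p G - τ) = 0 := by
    linear_combination h2
  exact sub_eq_zero.1 ((mul_eq_zero.1 h4).resolve_left (mul_ne_zero (pow_ne_zero _ hx2) hdk))

theorem morse_over_of [CharZero κ] (hd : 1 ≤ d) (hG : G.IsHomogeneous d) (h : IsMorse i₀ G) : MorseOver i₀ d G := by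
  refine ⟨h.inf, fun τ x hx => ?_, fun τ x hx v hv => ?_, fun τ x z hx hz => ?_⟩
  · obtain ⟨-, hx2, -⟩ := norm_sing hd hG h.inf hx
    rw [map_pow, eval_X]
    exact pow_ne_zero _ hx2
  · obtain ⟨p, hx2, hxe, hcr, -⟩ := norm_sing hd hG h.inf hx
    obtain ⟨Q, hQ⟩ : ∃ Q : MvPolynomial (Fin m) κ, Q = G - C τ * X i₀ ^ d := ⟨_, rfl⟩
    rw [← hQ] at hv
    have hQh : Q.IsHomogeneous d := by
      rw [hQ]
      refine hG.sub ?_
      have h1 := (isHomogeneous_C (Fin m) τ).mul (isHomogeneous_X_pow (R := κ) i₀ d)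
      rwa [zero_add] at h1
    have hQ0 : ∀ i, eval x (pderiv i Q) = 0 := by
      intro i
      rw [hQ, map_sub, pderiv_C_mul, map_sub, map_mul, eval_C, hx.2 i, sub_self]
    have hE : ∀ a, ∑ b, eval x (pderiv a (pderiv b Q)) * x b = 0 := by
      intro a
      have h1 := eulerH (hQh.pderiv (i := a)) x
      rw [hQ0 a, mul_zero] at h1
      rw [← h1]
      refine Finset.sum_congr rfl fun b _ => ?_
      rw [pdcH Q b a, mul_comm]
    obtain ⟨w, hw⟩ : ∃ w : Fin m → κ, ∀ i, w i = v i - v i₀ / x i₀ * x i := ⟨_, fun _ => rfl⟩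
    have hw0 : w i₀ = 0 := by rw [hw, div_mul_cancel₀ _ hx2, sub_self]
    have hK : ∀ a, ∑ b, eval x (pderiv a (pderiv b Q)) * w b = 0 := by
      intro a
      have h1 : ∀ b, eval x (pderiv a (pderiv b Q)) * w b = eval x (pderiv a (pderiv b Q)) * v b -
          v i₀ / x i₀ * (eval x (pderiv a (pderiv b Q)) * x b) := by
        intro b
        rw [hw]
        ring
      simp only [h1]
      rw [Finset.sum_sub_distrib, ← Finset.mul_sum, hv a, hE a, mul_zero, sub_zero]
    have hwz : w = 0 := by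
      refine h.hess p hcr w hw0 fun a _ => ?_
      have h1 : x i₀ ^ (d - 1 - 1) * ∑ b, eval p (pderiv a (pderiv b G)) * w b = 0 := by
        rw [← hK a, Finset.mul_sum]
        refine Finset.sum_congr rfl fun b _ => ?_
        by_cases hb : b = i₀
        · rw [hb, hw0, mul_zero, mul_zero, mul_zero]
        · have h2 : pderiv b Q = pderiv b G := by
            rw [hQ, map_sub, pderiv_C_mul, pdH d b hb, mul_zero, sub_zero]
          have h3 : eval x (pderiv a (pderiv b G)) = x i₀ ^ (d - 1 - 1) * eval p (pderiv a (pderiv b G)) := by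
            conv_lhs => rw [hxe]
            exact ev_smul hG.pderiv.pderiv _ _
          rw [h2, h3]
          ring
      exact (mul_eq_zero.1 h1).resolve_left (pow_ne_zero _ hx2)
    refine ⟨v i₀ / x i₀, funext fun i => ?_⟩
    have h1 := hw i
    rw [hwz] at h1
    exact sub_eq_zero.1 h1.symm
  · obtain ⟨p, hx2, hxe, hcr, hval⟩ := norm_sing hd hG h.inf hx
    obtain ⟨q, hz2, hze, hcr', hval'⟩ := norm_sing hd hG h.inf hz
    have hpq := h.val p q hcr hcr' (hval.trans hval'.symm)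
    refine ⟨z i₀ / x i₀, funext fun i => ?_⟩
    have h1 := congrFun hxe i
    have h2 := congrFun hze i
    rw [h2, ← hpq]
    show z i₀ * p i = z i₀ / x i₀ * x i
    rw [h1]
    show z i₀ * p i = z i₀ / x i₀ * (x i₀ * p i)
    rw [← mul_assoc, div_mul_cancel₀ _ hx2]

end Morse

section Sys

variable {K : Type} [Field K] [NumberField K] {m d : ℕ} {i₀ : Fin m} {F : MvPolynomial (Fin m) (𝓞 K)}
  {S : Finset (Fin m →₀ ℕ)}

omit [NumberField K] in
private theorem gen_spec (c : S → AlgebraicClosure K) :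
    (gen F S).map (eval₂Hom (algebraMap (𝓞 K) (AlgebraicClosure K)) c) =
      member (F.map (algebraMap (𝓞 K) (AlgebraicClosure K))) S c := by
  unfold gen mb member
  rw [map_add, MvPolynomial.map_map, map_sum]
  have h1 : (eval₂Hom (algebraMap (𝓞 K) (AlgebraicClosure K)) c).comp C = algebraMap (𝓞 K) (AlgebraicClosure K) :=
    RingHom.ext fun r => eval₂_C _ _ _
  rw [h1]
  congr 1
  refine Finset.sum_congr rfl fun e _ => ?_
  rw [map_monomial]
  congr 1
  exact eval₂_X _ _ _

/-- The generic member of a Morse system is Morse. -/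
theorem generic_of_system (hd : 2 ≤ d) (h : IsMorseSystem i₀ d F S) : GenericMorse i₀ d F S := by
  have hcz : CharZero (AlgebraicClosure K) := charZero_of_injective_algebraMap (algebraMap K _).injective
  obtain ⟨c, hc | ⟨hc, h1⟩⟩ := h.good
  · rw [generic_iff]
    have hcM := morse_over_of (d := d) (by omega) (by
      rw [← gen_spec c]
      exact (gen_hom F S h.hom h.deg).map _) hc
    refine morse_of_special (by omega) (gen_hom F S h.hom h.deg)
      (eval₂Hom (algebraMap (𝓞 K) (AlgebraicClosure K)) c) ?_ (jA (𝓞 K) S) (jA_inj S)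
    rw [gen_spec]
    exact hcM
  · have hGj : (gen F S).map (jA (𝓞 K) S) = ((gen F S).map (algebraMap (MvPolynomial S (𝓞 K))
        (FractionRing (MvPolynomial S (𝓞 K))))).map (algebraMap (FractionRing (MvPolynomial S (𝓞 K)))
          (AlgebraicClosure (FractionRing (MvPolynomial S (𝓞 K))))) := by
      rw [MvPolynomial.map_map]
      rfl
    rw [generic_iff, hGj]
    refine gen_morse _ hd h.hom h.deg h1 ?_
    rw [← hGj]
    refine inf_of_special (gen_hom F S h.hom h.deg) (eval₂Hom (algebraMap (𝓞 K) (AlgebraicClosure K)) c) ?_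
      (jA (𝓞 K) S) (jA_inj S)
    rw [gen_spec]
    exact hc

end Sys

/-- The property: smooth and ordinary in the sense of Bloch and Kato. -/
def QH {m : ℕ} (E : Type) [Field E] (F : MvPolynomial (Fin m) E) : Prop :=
  Smooth F ∧ IsBlochKatoOrdinary F

/-- The theorem over number fields, from the theorem over finite fields. -/
theorem hyper_systems {m : ℕ} (i₀ : Fin m) {d : ℕ} (hd : 2 ≤ d) (hfew : FewM (QH (m := m)) i₀ d ∅) (K : Type)
    [Field K] [NumberField K] (δ : ℝ) (hδ : 0 < δ) (B : ℕ) :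
    ∃ z₀ : ℕ, ∀ z : ℕ, z₀ ≤ z → ∀ (F : MvPolynomial (Fin m) (𝓞 K)) (S : Finset (Fin m →₀ ℕ)),
      IsMorseSystem i₀ d F S → (∀ e, house ((coeff e F : 𝓞 K) : K) ≤ (z : ℝ) ^ B) →
      ∀ T : Finset (𝓞 K), (∀ t ∈ T, house (t : K) ≤ (z : ℝ) ^ B) →
        {c : S → 𝓞 K | (∀ e, c e ∈ T) ∧
          wtK K (OrdinaryReductionAt (member F S c)) z < (1 - δ) * wtK K (fun _ => True) z}.ncard ≤
            z * T.card ^ (S.card - 1) := by
  obtain ⟨z₀, hz₀⟩ := almost_all (QH (m := m)) i₀ d ∅ (fun e he => absurd he (Finset.notMem_empty e))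
    (Finset.notMem_empty _) hfew K δ hδ B
  refine ⟨z₀, fun z hz F S hS hF T hT => ?_⟩
  exact hz₀ z hz F S hS.hom hS.deg hS.pencil (generic_of_system (by omega) hS)
    (fun e he => absurd he (Finset.notMem_empty e)) hF T hT

end MPadcPZ.Hyper
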