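import Pool.Agent.Lib.MP_adc574_ag_PZ.AMain

/-!
# Almost all members of a linear system over a number field: the count
-/

set_option autoImplicit false

namespace MPadcPZ

open MvPolynomial MPadcLZ MPadcBK NumberField MPadcOA

/-- The generic member of the linear system `G₀ + ⟨S⟩`. -/
noncomputable def gen {A : Type} [CommRing A] {m : ℕ} (G₀ : MvPolynomial (Fin m) A) (S : Finset (Fin m →₀ ℕ)) :
    MvPolynomial (Fin m) (MvPolynomial S A) :=
  mb (G₀.map C) S X

/-- The generic member of the linear system `G₀ + ⟨S⟩` defines a Morse pencil. -/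
def GenericMorse {A : Type} [CommRing A] [IsDomain A] {m : ℕ} (i₀ : Fin m) (d : ℕ) (G₀ : MvPolynomial (Fin m) A)
    (S : Finset (Fin m →₀ ℕ)) : Prop :=
  IsMorsePencil i₀ d ((gen G₀ S).map (algebraMap (MvPolynomial S A) (FractionRing (MvPolynomial S A))))

section Basic

variable {A : Type} [CommRing A] {m d : ℕ} (G₀ : MvPolynomial (Fin m) A) (S : Finset (Fin m →₀ ℕ))

theorem mb_hom (hG : G₀.IsHomogeneous d) (hS : ∀ e ∈ S, e.degree = d) (c : S → A) : (mb G₀ S c).IsHomogeneous d := by
  refine hG.add (IsHomogeneous.sum _ _ _ fun e _ => ?_)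
  exact isHomogeneous_monomial _ (hS e e.2)

theorem gen_hom (hG : G₀.IsHomogeneous d) (hS : ∀ e ∈ S, e.degree = d) : (gen G₀ S).IsHomogeneous d :=
  mb_hom _ S (hG.map _) hS _

theorem gen_eval (c : S → A) : (gen G₀ S).map (eval c) = mb G₀ S c := by
  unfold gen mb
  rw [map_add, MvPolynomial.map_map, map_sum]
  have h1 : (eval c).comp C = RingHom.id A := by
    ext a
    simp
  rw [h1, MvPolynomial.map_id]
  congr 1
  refine Finset.sum_congr rfl fun e _ => ?_
  rw [map_monomial, eval_X]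

theorem evc_gen (c : S → A) (M : MvPolynomial (Ed m d) ℤ) : eval c (evc (gen G₀ S) M) = evc (mb G₀ S c) M := by
  have h1 : (eval c).comp (evc (d := d) (gen G₀ S)) = evc (mb G₀ S c) := by
    refine MvPolynomial.ringHom_ext (fun n => ?_) fun e => ?_
    · rw [RingHom.comp_apply]
      unfold evc
      rw [coe_eval₂Hom, coe_eval₂Hom, eval₂_C, eval₂_C]
      simp
    · rw [RingHom.comp_apply]
      unfold evc
      rw [coe_eval₂Hom, coe_eval₂Hom, eval₂_X, eval₂_X, ← gen_eval G₀ S c, coeff_map]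
  exact RingHom.congr_fun h1 M

theorem coeff_mb (c : S → A) (e : Fin m →₀ ℕ) :
    coeff e (mb G₀ S c) = coeff e G₀ + if h : e ∈ S then c ⟨e, h⟩ else 0 := by
  classical
  unfold mb
  rw [coeff_add, coeff_sum]
  congr 1
  simp only [coeff_monomial]
  split_ifs with h
  · rw [Finset.sum_eq_single (⟨e, h⟩ : S)]
    · rw [if_pos rfl]
    · intro e' _ hne
      rw [if_neg]
      intro h'
      exact hne (Subtype.ext h')
    · intro h'
      exact absurd (Finset.mem_univ _) h'
  · refine Finset.sum_eq_zero fun e' _ => ?_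
    rw [if_neg]
    intro h'
    exact h (h' ▸ e'.2)

theorem coeff_gen [Nontrivial A] (e₁ : Fin m →₀ ℕ) (h : coeff e₁ G₀ ≠ 0 ∨ e₁ ∈ S) : coeff e₁ (gen G₀ S) ≠ 0 := by
  classical
  unfold gen
  rw [coeff_mb, coeff_map]
  split_ifs with he
  · intro h0
    have h1 := congrArg (coeff (Finsupp.single (⟨e₁, he⟩ : S) 1)) h0
    rw [coeff_add, coeff_C, coeff_X, if_neg (by
      intro h2
      have h3 := congrArg (fun f => f (⟨e₁, he⟩ : S)) h2
      simp at h3), zero_add, if_pos rfl, coeff_zero] at h1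
    exact one_ne_zero h1
  · rw [add_zero]
    exact (map_ne_zero_iff C (C_injective _ _)).2 (h.resolve_right he)

theorem deg_evc [Nontrivial A] (M : MvPolynomial (Ed m d) ℤ) : (evc (gen G₀ S) M).totalDegree ≤ M.totalDegree := by
  classical
  have h1 : ∀ e : Fin m →₀ ℕ, (coeff e (gen G₀ S)).totalDegree ≤ 1 := by
    intro e
    unfold gen
    rw [coeff_mb, coeff_map]
    refine (totalDegree_add _ _).trans (max_le ?_ ?_)
    · rw [totalDegree_C]
      exact Nat.zero_le _
    · split_ifs with h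
      · rw [totalDegree_X]
      · rw [totalDegree_zero]
        exact Nat.zero_le _
  unfold evc
  rw [coe_eval₂Hom, eval₂_eq']
  refine totalDegree_finsetSum_le fun s hs => ?_
  refine (totalDegree_mul _ _).trans ?_
  have h2 : ((Int.castRingHom (MvPolynomial S A)) (coeff s M)).totalDegree = 0 := by
    have h3 : (Int.castRingHom (MvPolynomial S A)) (coeff s M) = C ((coeff s M : ℤ) : A) := by
      rw [map_intCast]
      rfl
    rw [h3, totalDegree_C]
  rw [h2, zero_add]
  refine (totalDegree_finsetProd _ _).trans ?_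
  refine (Finset.sum_le_sum fun e _ => (totalDegree_pow _ _).trans (Nat.mul_le_mul_left _ (h1 _))).trans ?_
  have h4 := le_totalDegree hs
  rw [Finsupp.sum_fintype _ _ (fun _ => rfl)] at h4
  simpa using h4

end Basic

section Update

variable {A : Type} [CommRing A] {m d : ℕ} {i₀ : Fin m} (G₀ : MvPolynomial (Fin m) A) (S : Finset (Fin m →₀ ℕ))
  (h₀ : Finsupp.single i₀ d ∈ S)

theorem mb_update [DecidableEq S] (c : S → A) (s : A) :
    mb G₀ S (Function.update c ⟨Finsupp.single i₀ d, h₀⟩ s) =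
      mb G₀ S (Function.update c ⟨Finsupp.single i₀ d, h₀⟩ 0) + C s * X i₀ ^ d := by
  unfold mb
  have h1 : ∀ e : S, monomial (e : Fin m →₀ ℕ) (Function.update c ⟨Finsupp.single i₀ d, h₀⟩ s e) =
      monomial (e : Fin m →₀ ℕ) (Function.update c ⟨Finsupp.single i₀ d, h₀⟩ 0 e) +
        if e = ⟨Finsupp.single i₀ d, h₀⟩ then C s * X i₀ ^ d else 0 := by
    intro e
    by_cases he : e = ⟨Finsupp.single i₀ d, h₀⟩
    · subst he
      rw [Function.update_self, Function.update_self, if_pos rfl, map_zero, zero_add, X_pow_eq_monomial,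
        C_mul_monomial, mul_one]
    · rw [Function.update_of_ne he, Function.update_of_ne he, if_neg he, add_zero]
  simp only [h1]
  rw [Finset.sum_add_distrib, Finset.sum_ite_eq' Finset.univ, if_pos (Finset.mem_univ _), add_assoc]

end Update

private theorem house_int_le {K : Type} [Field K] [NumberField K] (n : ℕ) : house (((n : ℕ) : 𝓞 K) : K) = n := by
  have h := house_intCast (K := K) (n : ℤ)
  have h1 : (((n : ℕ) : 𝓞 K) : K) = ((n : ℤ) : K) := by
    simp
  rw [h1, h]
  simp

/-- The theorem over number fields, from the theorem on Morse pencils over finite fields. -/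
theorem almost_all {m : ℕ} (Q : ∀ (E : Type) [Field E], MvPolynomial (Fin m) E → Prop) (i₀ : Fin m) (d : ℕ)
    (E₁ : Finset (Fin m →₀ ℕ)) (hE₁ : ∀ e ∈ E₁, e.degree = d) (hne : Finsupp.single i₀ d ∉ E₁)
    (hA : FewM Q i₀ d E₁) (K : Type)
    [Field K] [NumberField K] (δ : ℝ) (hδ : 0 < δ) (B : ℕ) :
    ∃ z₀ : ℕ, ∀ z : ℕ, z₀ ≤ z → ∀ (G₀ : MvPolynomial (Fin m) (𝓞 K)) (S : Finset (Fin m →₀ ℕ)),
      G₀.IsHomogeneous d → (∀ e ∈ S, e.degree = d) → Finsupp.single i₀ d ∈ S → GenericMorse i₀ d G₀ S →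
      (∀ e ∈ E₁, coeff e G₀ ≠ 0 ∨ e ∈ S) → (∀ e, house ((coeff e G₀ : 𝓞 K) : K) ≤ (z : ℝ) ^ B) →
      ∀ T : Finset (𝓞 K), (∀ t ∈ T, house (t : K) ≤ (z : ℝ) ^ B) →
        {c : S → 𝓞 K | (∀ e, c e ∈ T) ∧
          wtK K (HasAt Q (mb G₀ S c)) z < (1 - δ) * wtK K (fun _ => True) z}.ncard ≤ z * T.card ^ (S.card - 1) := by
  classical
  obtain ⟨p₀, hp₀⟩ := pencil Q i₀ d E₁ hA K δ hδ B
  obtain ⟨Φ, hΦ⟩ := unif_morse' (d := d) i₀ E₁ hE₁
  set D : ℕ := ∑ M ∈ Φ, M.totalDegree with hD
  set Lc : ℝ := ∑ M ∈ Φ, ∑ e ∈ M.support, |((coeff e M : ℤ) : ℝ)| with hLc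
  have hLc0 : 0 ≤ Lc := Finset.sum_nonneg fun M _ => Finset.sum_nonneg fun e _ => abs_nonneg _
  obtain ⟨z₁, hz₁⟩ := hp₀ (Lc * 2 ^ D * p₀.factorial) (B * D)
  refine ⟨max z₁ (2 * D + 1), fun z hz G₀ S hG hS h₀ hgen hco hG₀ T hT => ?_⟩
  have hzz : z₁ ≤ z := (le_max_left _ _).trans hz
  have hzD : 2 * D + 1 ≤ z := (le_max_right _ _).trans hz
  have hz1r : (1 : ℝ) ≤ z := by exact_mod_cast (by omega : 1 ≤ z)
  have hzB : (1 : ℝ) ≤ (z : ℝ) ^ B := one_le_pow₀ hz1r
  set e₀ : S := ⟨Finsupp.single i₀ d, h₀⟩ with he₀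
  -- the polynomial `N`
  set j : MvPolynomial S (𝓞 K) →+* AlgebraicClosure (FractionRing (MvPolynomial S (𝓞 K))) :=
    (algebraMap _ _).comp (algebraMap (MvPolynomial S (𝓞 K)) (FractionRing (MvPolynomial S (𝓞 K)))) with hj
  have hjinj : Function.Injective j := by
    rw [hj, RingHom.coe_comp]
    exact (algebraMap (FractionRing (MvPolynomial S (𝓞 K))) (AlgebraicClosure (FractionRing
      (MvPolynomial S (𝓞 K))))).injective.comp (IsFractionRing.injective (MvPolynomial S (𝓞 K)) (FractionRing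
      (MvPolynomial S (𝓞 K))))
  obtain ⟨M, hMΦ, hN0, hmor⟩ := hΦ _ (gen G₀ S) (gen_hom G₀ S hG hS) _ j hjinj (by
    have h1 := hgen
    unfold GenericMorse IsMorsePencil at h1
    rw [MvPolynomial.map_map] at h1
    exact h1) (fun e he => coeff_gen G₀ S e (hco e he))
  set N : MvPolynomial S (𝓞 K) := evc (gen G₀ S) M with hN
  have hMD : M.totalDegree ≤ D := Finset.single_le_sum (f := fun M => M.totalDegree) (fun _ _ => Nat.zero_le _) hMΦ
  have hND : N.totalDegree ≤ D := (deg_evc G₀ S M).trans hMD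
  have hmor' : ∀ c : S → 𝓞 K, ∀ (k : Type) [Field k] (ψ : 𝓞 K →+* k), ψ (eval c N) ≠ 0 →
      MorseOver i₀ d ((mb G₀ S c).map ψ) ∧ ∀ e ∈ E₁, coeff e ((mb G₀ S c).map ψ) ≠ 0 := by
    intro c k _ ψ hψ
    have h1 := hmor k (ψ.comp (eval c)) hψ
    rw [← MvPolynomial.map_map, gen_eval] at h1
    exact h1
  have hhouse : ∀ c : S → 𝓞 K, (∀ e, c e ∈ T) → house ((eval c N : 𝓞 K) : K) ≤ Lc * 2 ^ D * (z : ℝ) ^ (B * D) := by
    intro c hc
    rw [hN, evc_gen]
    have h1 : ∀ e : Ed m d, house ((coeff (e : Fin m →₀ ℕ) (mb G₀ S c) : 𝓞 K) : K) ≤ 2 * (z : ℝ) ^ B := by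
      intro e
      rw [coeff_mb]
      have h2 := hG₀ e
      split_ifs with h
      · have h3 := hT _ (hc ⟨e, h⟩)
        have h4 : ((coeff (e : Fin m →₀ ℕ) G₀ + c ⟨e, h⟩ : 𝓞 K) : K) =
          ((coeff (e : Fin m →₀ ℕ) G₀ : 𝓞 K) : K) + ((c ⟨e, h⟩ : 𝓞 K) : K) := rfl
        rw [h4]
        refine (house_add_le _ _).trans ?_
        linarith
      · rw [add_zero]
        linarith
    have h2 := house_value M (fun e : Ed m d => coeff (e : Fin m →₀ ℕ) (mb G₀ S c)) (2 * (z : ℝ) ^ B) (by linarith) h1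
    refine h2.trans ?_
    have h3 : ∑ e ∈ M.support, |((coeff e M : ℤ) : ℝ)| ≤ Lc :=
      Finset.single_le_sum (f := fun M : MvPolynomial (Ed m d) ℤ => ∑ e ∈ M.support, |((coeff e M : ℤ) : ℝ)|)
        (fun M _ => Finset.sum_nonneg fun e _ => abs_nonneg _) hMΦ
    have h4 : (2 * (z : ℝ) ^ B) ^ M.totalDegree ≤ (2 * (z : ℝ) ^ B) ^ D := pow_le_pow_right₀ (by linarith) hMD
    refine (mul_le_mul h3 h4 (by positivity) hLc0).trans (le_of_eq ?_)
    rw [mul_pow, ← pow_mul, mul_assoc]
  -- the sets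
  set P : Finset (S → 𝓞 K) := Fintype.piFinset fun _ : S => T with hP
  have hPmem : ∀ c, c ∈ P ↔ ∀ e, c e ∈ T := fun c => Fintype.mem_piFinset
  set exc : (S → 𝓞 K) → Prop := fun c => wtK K (HasAt Q (mb G₀ S c)) z < (1 - δ) * wtK K (fun _ => True) z with hexc
  have hXset : {c : S → 𝓞 K | (∀ e, c e ∈ T) ∧ exc c} = ↑(P.filter exc) := by
    ext c
    rw [Finset.mem_coe, Finset.mem_filter, hPmem]
    rfl
  show {c : S → 𝓞 K | (∀ e, c e ∈ T) ∧ exc c}.ncard ≤ _
  rw [hXset, Set.ncard_coe_finset]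
  set X₁ := (P.filter exc).filter fun c => eval c N = 0 with hX₁
  set X₂ := (P.filter exc).filter fun c => ¬ eval c N = 0 with hX₂
  have hX : X₁.card + X₂.card = (P.filter exc).card := Finset.card_filter_add_card_filter_not _
  rw [← hX]
  have hSc : Fintype.card S = S.card := Fintype.card_coe S
  have hS1 : 1 ≤ S.card := Finset.card_pos.2 ⟨_, h₀⟩
  rcases Nat.eq_zero_or_pos T.card with hT0 | hT0
  · have hPe : P = ∅ := by
      rw [hP, Finset.card_eq_zero.1 hT0]
      exact Fintype.piFinset_eq_empty.2 ⟨e₀, rfl⟩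
    have h1 : (P.filter exc).card = 0 := by rw [hPe]; rfl
    rw [hX, h1]
    exact Nat.zero_le _
  have hbound₁ : X₁.card ≤ D * T.card ^ (S.card - 1) := by
    have h1 := zeros_card N hN0 T
    have h2 : X₁.card ≤ (P.filter fun c => eval c N = 0).card := by
      refine Finset.card_le_card fun c hc => ?_
      rw [hX₁, Finset.mem_filter, Finset.mem_filter] at hc
      exact Finset.mem_filter.2 ⟨hc.1.1, hc.2⟩
    have h3 : X₁.card * T.card ≤ (D * T.card ^ (S.card - 1)) * T.card := by
      have h4 : (D * T.card ^ (S.card - 1)) * T.card = D * T.card ^ S.card := by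
        rw [mul_assoc, ← pow_succ, Nat.sub_add_cancel hS1]
      rw [h4, ← hSc]
      exact (Nat.mul_le_mul_right _ h2).trans (h1.trans (Nat.mul_le_mul_right _ hND))
    exact Nat.le_of_mul_le_mul_right h3 hT0
  have hbound₂ : X₂.card ≤ z / 2 * T.card ^ (S.card - 1) := by
    set f : (S → 𝓞 K) → (S → 𝓞 K) := fun c => Function.update c e₀ 0 with hf
    have h1 : X₂.card ≤ z / 2 * (X₂.image f).card := by
      refine Finset.card_le_mul_card_image X₂ (z / 2) fun b hb => ?_
      obtain ⟨c, hc, rfl⟩ := Finset.mem_image.1 hb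
      rw [hX₂, Finset.mem_filter, Finset.mem_filter, hPmem] at hc
      obtain ⟨⟨hcT, _⟩, hcN⟩ := hc
      set G : MvPolynomial (Fin m) (𝓞 K) := mb G₀ S (f c) with hGdef
      have hcG : mb G₀ S c = G + C (c e₀) * X i₀ ^ d := by
        have h2 := mb_update G₀ S h₀ c (c e₀)
        rw [Function.update_eq_self] at h2
        exact h2
      have h3 := hz₁ z hzz (eval c N * (p₀.factorial : ℕ)) (mul_ne_zero hcN (Nat.cast_ne_zero.2 (Nat.factorial_ne_zero _)))
        (by
          have h4 : ((eval c N * (p₀.factorial : ℕ) : 𝓞 K) : K) = ((eval c N : 𝓞 K) : K) *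
            (((p₀.factorial : ℕ) : 𝓞 K) : K) := rfl
          rw [h4]
          refine (house_mul_le _ _).trans ?_
          rw [house_int_le]
          refine (mul_le_mul_of_nonneg_right (hhouse c hcT) (Nat.cast_nonneg _)).trans (le_of_eq ?_)
          ring) (Dvd.intro_left _ rfl) G (mb_hom G₀ S hG hS _) (by
          intro k _ ψ hψ
          rw [map_mul] at hψ
          have h4 := hmor' c k ψ (left_ne_zero_of_mul hψ)
          have h5 := morse_shift (-ψ (c e₀)) h4.1
          have h6 : (mb G₀ S c).map ψ + C (-ψ (c e₀)) * X i₀ ^ d = G.map ψ := by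
            rw [hcG, map_add, map_mul, map_C, map_pow, map_X, C_neg]
            ring
          rw [h6] at h5
          refine ⟨h5, fun e he => ?_⟩
          rw [← h6, coeff_add, coeff_C_mul, coeff_X_pow, if_neg (fun h7 => hne (by rw [h7]; exact he)), mul_zero,
            add_zero]
          exact h4.2 e he)
      set U := {s : 𝓞 K | house (s : K) ≤ (z : ℝ) ^ B ∧
        wtK K (HasAt Q (G + C s * X i₀ ^ d)) z < (1 - δ) * wtK K (fun _ => True) z} with hU
      have h4 : ((X₂.filter fun x => f x = f c).card : ℕ∞) ≤ U.encard := by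
        have h5 : ((X₂.filter fun x => f x = f c).card : ℕ∞) =
            ((((X₂.filter fun x => f x = f c).image fun x => x e₀ : Finset (𝓞 K)) : Set (𝓞 K))).encard := by
          rw [Set.encard_coe_eq_coe_finsetCard, Finset.card_image_of_injOn]
          intro x hx y hy hxy
          rw [Finset.mem_coe, Finset.mem_filter] at hx hy
          have h6 : f x = f y := hx.2.trans hy.2.symm
          funext e
          by_cases he : e = e₀
          · rw [he]
            exact hxy
          · have h7 := congrFun h6 e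
            simp only [hf] at h7
            rwa [Function.update_of_ne he, Function.update_of_ne he] at h7
        rw [h5]
        refine Set.encard_le_encard ?_
        intro s hs
        rw [Finset.mem_coe, Finset.mem_image] at hs
        obtain ⟨x, hx, rfl⟩ := hs
        rw [Finset.mem_filter, hX₂, Finset.mem_filter, Finset.mem_filter, hPmem] at hx
        obtain ⟨⟨⟨hxT, hxe⟩, _⟩, hxf⟩ := hx
        refine ⟨hT _ (hxT e₀), ?_⟩
        have h6 : mb G₀ S x = G + C (x e₀) * X i₀ ^ d := by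
          have h7 := mb_update G₀ S h₀ x (x e₀)
          rw [Function.update_eq_self] at h7
          have h8 : Function.update x e₀ 0 = f c := hxf
          rw [h7, ← he₀, h8]
        rw [← h6]
        exact hxe
      have h5 : (((X₂.filter fun x => f x = f c).card * 2 : ℕ) : ℕ∞) ≤ z := by
        push_cast
        exact (mul_le_mul_left h4 _).trans h3
      have h6 : (X₂.filter fun x => f x = f c).card * 2 ≤ z := by exact_mod_cast h5
      omega
    refine h1.trans (Nat.mul_le_mul_left _ ?_)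
    have h2 : X₂.image f ⊆ Fintype.piFinset fun e : S => if e = e₀ then ({0} : Finset (𝓞 K)) else T := by
      intro b hb
      obtain ⟨c, hc, rfl⟩ := Finset.mem_image.1 hb
      rw [hX₂, Finset.mem_filter, Finset.mem_filter, hPmem] at hc
      rw [Fintype.mem_piFinset]
      intro e
      by_cases he : e = e₀
      · rw [if_pos he, he]
        simp [hf]
      · rw [if_neg he]
        show Function.update c e₀ 0 e ∈ T
        rw [Function.update_of_ne he]
        exact hc.1.1 e
    refine (Finset.card_le_card h2).trans ?_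
    rw [Fintype.card_piFinset]
    have h3 : ∀ e : S, (if e = e₀ then ({0} : Finset (𝓞 K)) else T).card = if e = e₀ then 1 else T.card := by
      intro e
      split_ifs <;> simp
    simp only [h3]
    rw [Finset.prod_ite, Finset.prod_const_one, one_mul, Finset.prod_const]
    have h4 : (Finset.univ.filter fun e : S => ¬ e = e₀).card = S.card - 1 := by
      have h5 : (Finset.univ.filter fun e : S => ¬ e = e₀) = Finset.univ.erase e₀ := by
        ext e
        simp
      rw [h5, Finset.card_erase_of_mem (Finset.mem_univ _), Finset.card_univ, hSc]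
    rw [h4]
  have h1 : X₁.card + X₂.card ≤ (D + z / 2) * T.card ^ (S.card - 1) := by
    rw [add_mul]
    exact Nat.add_le_add hbound₁ hbound₂
  refine h1.trans (Nat.mul_le_mul_right _ ?_)
  omega

end MPadcPZ
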