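import Pool.Agent.Lib.MP_adc574_ag_PZ.Sp

/-!
# Uniform spreading out

The theorem of Chevalley: for finitely many systems of polynomial equations with coefficients in a noetherian ring `R` there
is a finite subset `Φ` of `R` such that for every homomorphism `ρ` from `R` to a domain `A` for which the systems have no
solutions over an algebraically closed field which contains `A` some `M` in `Φ` has `ρ M ≠ 0`, and the systems have no
solutions over any field `k` for the homomorphisms `ψ` from `A` to `k` with `ψ (ρ M) ≠ 0`.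
-/

set_option autoImplicit false

namespace MPadcPZ

open MvPolynomial PrimeSpectrum Topology

section

variable {R : Type*} [CommRing R] {V : Type*} [Finite V]

/-- The primes for which the system has a solution. -/
def Zs (S : Set (MvPolynomial V R)) : Set (PrimeSpectrum R) :=
  Set.range (comap (algebraMap R (MvPolynomial V R ⧸ Ideal.span S)))

theorem Zs_constr [IsNoetherianRing R] (S : Set (MvPolynomial V R)) : IsConstructible (Zs S) := by
  apply isConstructible_range_comap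
  rw [← RingHom.FinitePresentation.of_finiteType]
  have h1 : Algebra.FiniteType R (MvPolynomial V R ⧸ Ideal.span S) := inferInstance
  exact RingHom.finiteType_algebraMap.2 h1

theorem mem_Zs {k : Type*} [Field k] [IsAlgClosed k] (φ : R →+* k) (S : Set (MvPolynomial V R)) :
    (⟨RingHom.ker φ, RingHom.ker_isPrime φ⟩ : PrimeSpectrum R) ∈ Zs S ↔ ∃ z : V → k, ∀ P ∈ S, eval₂ φ z P = 0 := by
  constructor
  · rintro ⟨Q, hQ⟩
    by_contra hno
    push Not at hno
    have hQ1 : ∀ r : R, Ideal.Quotient.mk (Ideal.span S) (C r) ∈ Q.asIdeal ↔ φ r = 0 := by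
      intro r
      have h1 := congrArg PrimeSpectrum.asIdeal hQ
      have h2 : r ∈ (comap (algebraMap R (MvPolynomial V R ⧸ Ideal.span S)) Q).asIdeal ↔ r ∈ RingHom.ker φ := by
        rw [h1]
      exact h2
    have hinj : Function.Injective (RingHom.kerLift φ) := RingHom.kerLift_injective φ
    have hcomp : (RingHom.kerLift φ).comp (Ideal.Quotient.mk (RingHom.ker φ)) = φ := by
      ext r
      rfl
    have : IsDomain (R ⧸ RingHom.ker φ) := by
      have := RingHom.ker_isPrime φ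
      infer_instance
    obtain ⟨M, hM0, hM⟩ := null_den (MvPolynomial.map (Ideal.Quotient.mk (RingHom.ker φ)) '' S) (RingHom.kerLift φ) hinj
      (fun x => by
        obtain ⟨P, hP, h1⟩ := hno x
        refine ⟨_, ⟨P, hP, rfl⟩, ?_⟩
        rw [eval₂_map, hcomp]
        exact h1)
    obtain ⟨m, rfl⟩ := Ideal.Quotient.mk_surjective M
    have hm : φ m ≠ 0 := fun h => hM0 (Ideal.Quotient.eq_zero_iff_mem.2 h)
    rw [← Ideal.map_span, ← map_C, Ideal.mem_map_iff_of_surjective _
      (MvPolynomial.map_surjective _ Ideal.Quotient.mk_surjective)] at hM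
    obtain ⟨y, hy, h2⟩ := hM
    have h3 : C m - y ∈ (RingHom.ker φ).map (C : R →+* MvPolynomial V R) := by
      rw [mem_map_C_iff]
      intro e
      have h4 := congrArg (coeff e) h2
      rw [coeff_map, coeff_map] at h4
      rw [coeff_sub, ← Ideal.Quotient.eq_zero_iff_mem, map_sub, h4, sub_self]
    have h5 : (RingHom.ker φ).map (C : R →+* MvPolynomial V R) ≤ Q.asIdeal.comap (Ideal.Quotient.mk (Ideal.span S)) := by
      rw [Ideal.map_le_iff_le_comap]
      intro r hr
      exact (hQ1 r).2 hr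
    have h6 : Ideal.Quotient.mk (Ideal.span S) (C m - y) ∈ Q.asIdeal := h5 h3
    rw [map_sub, Ideal.Quotient.eq_zero_iff_mem.2 hy, sub_zero] at h6
    exact hm ((hQ1 m).1 h6)
  · rintro ⟨z, hz⟩
    have hle : ∀ a ∈ Ideal.span S, eval₂Hom φ z a = 0 := by
      intro a ha
      have h1 : Ideal.span S ≤ RingHom.ker (eval₂Hom φ z) := by
        rw [Ideal.span_le]
        intro P hP
        exact hz P hP
      exact h1 ha
    let f : MvPolynomial V R ⧸ Ideal.span S →+* k := Ideal.Quotient.lift _ (eval₂Hom φ z) hle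
    refine ⟨⟨RingHom.ker f, RingHom.ker_isPrime f⟩, ?_⟩
    apply PrimeSpectrum.ext
    ext r
    show f (algebraMap R _ r) = 0 ↔ φ r = 0
    have h2 : f (algebraMap R _ r) = φ r := by
      show eval₂Hom φ z (C r) = φ r
      exact eval₂_C _ _ _
    rw [h2]

theorem strat [IsNoetherianRing R] {ι : Type*} [Finite ι] (S : ι → Set (MvPolynomial V R)) :
    ∃ Φ : Finset R, ∀ 𝔮 : PrimeSpectrum R, (∀ i, 𝔮 ∉ Zs (S i)) → ∃ M ∈ Φ, M ∉ 𝔮.asIdeal ∧
      ∀ 𝔭 : PrimeSpectrum R, 𝔮.asIdeal ≤ 𝔭.asIdeal → M ∉ 𝔭.asIdeal → ∀ i, 𝔭 ∉ Zs (S i) := by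
  classical
  have h1 : IsConstructible (⋃ i, Zs (S i))ᶜ := (IsConstructible.iUnion fun i => Zs_constr (S i)).compl
  obtain ⟨T, hT⟩ := exists_constructibleSetData_iff.2 h1
  refine ⟨T.image fun D => D.f, fun 𝔮 h𝔮 => ?_⟩
  have h2 : 𝔮 ∈ T.toSet := by
    rw [hT]
    intro h3
    obtain ⟨i, hi⟩ := Set.mem_iUnion.1 h3
    exact h𝔮 i hi
  obtain ⟨D, hD, h3⟩ := Set.mem_iUnion₂.1 h2
  refine ⟨D.f, Finset.mem_image_of_mem _ hD, ?_, fun 𝔭 hle hM i hi => ?_⟩
  · intro h4
    apply h3.2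
    rw [mem_zeroLocus, Set.singleton_subset_iff]
    exact h4
  · have h4 : 𝔭 ∈ T.toSet := by
      refine Set.mem_iUnion₂.2 ⟨D, hD, ?_, ?_⟩
      · rw [mem_zeroLocus]
        exact ((mem_zeroLocus _ _).1 h3.1).trans hle
      · intro h5
        rw [mem_zeroLocus, Set.singleton_subset_iff] at h5
        exact hM h5
    rw [hT] at h4
    exact h4 (Set.mem_iUnion.2 ⟨i, hi⟩)

theorem strat_hom [IsNoetherianRing R] {ι : Type*} [Finite ι] (S : ι → Set (MvPolynomial V R)) :
    ∃ Φ : Finset R, ∀ (A : Type) [CommRing A] (ρ : R →+* A) (Ω : Type) [Field Ω] [IsAlgClosed Ω] (j : A →+* Ω),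
      Function.Injective j → (∀ i, ∀ z : V → Ω, ∃ P ∈ S i, eval₂ (j.comp ρ) z P ≠ 0) →
      ∃ M ∈ Φ, ρ M ≠ 0 ∧ ∀ (k : Type) [Field k] (ψ : A →+* k), ψ (ρ M) ≠ 0 →
        ∀ i, ∀ z : V → k, ∃ P ∈ S i, eval₂ (ψ.comp ρ) z P ≠ 0 := by
  obtain ⟨Φ, hΦ⟩ := strat S
  refine ⟨Φ, fun A _ ρ Ω _ _ j hj hno => ?_⟩
  obtain ⟨M, hM, h1, h2⟩ := hΦ ⟨RingHom.ker (j.comp ρ), RingHom.ker_isPrime _⟩ (fun i hi => by
    obtain ⟨z, hz⟩ := (mem_Zs (j.comp ρ) (S i)).1 hi
    obtain ⟨P, hP, hne⟩ := hno i z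
    exact hne (hz P hP))
  refine ⟨M, hM, fun h => h1 ?_, fun k _ ψ hψ i z => ?_⟩
  · show (j.comp ρ) M = 0
    rw [RingHom.comp_apply, h, map_zero]
  · by_contra hcon
    push Not at hcon
    set ψ' : A →+* AlgebraicClosure k := (algebraMap k (AlgebraicClosure k)).comp ψ with hψ'
    have h3 := h2 ⟨RingHom.ker (ψ'.comp ρ), RingHom.ker_isPrime _⟩ (by
      intro r hr
      have h4 : j (ρ r) = 0 := hr
      have h5 : ρ r = 0 := hj (by rw [h4, map_zero])
      show ψ' (ρ r) = 0
      rw [h5, map_zero]) (by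
      intro h4
      have h5 : algebraMap k (AlgebraicClosure k) (ψ (ρ M)) = 0 := h4
      exact hψ ((map_eq_zero _).1 h5)) i
    apply h3
    rw [mem_Zs]
    refine ⟨fun v => algebraMap k (AlgebraicClosure k) (z v), fun P hP => ?_⟩
    have h4 := congrArg (algebraMap k (AlgebraicClosure k)) (hcon P hP)
    rw [map_zero, eval₂_comp_left] at h4
    exact h4

end

end MPadcPZ
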