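import Pool.Agent.Lib.MP_adc574_ag_LZ.GeoD

/-!
# Generic Morse pencils

`G` over `K` (characteristic 0) is homogeneous of degree `d` and smooth on the hyperplane `x_i = 0`; `K` has derivations
`D_l` with `D_l G = x_i ^ (d - 1) x_l`. Then `G - t x_i ^ d` is a Lefschetz pencil.
-/

set_option autoImplicit false

namespace MPadcPZ

open MvPolynomial MPadcLZ MPadcHM

universe u

theorem exists_der {K : Type u} [Field K] [CharZero K] {ι : Type} [Finite ι] (D : Derivation ℤ K K)
    (x : ι → AlgebraicClosure K) :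
    ∃ (L : IntermediateField K (AlgebraicClosure K)) (D' : Derivation ℤ L L) (y : ι → L),
      (∀ i, (y i : AlgebraicClosure K) = x i) ∧
        ∀ c : K, D' (algebraMap K L c) = algebraMap K L (D c) := by
  have hfin : FiniteDimensional K (IntermediateField.adjoin K (Set.range x)) := by
    have : Finite (Set.range x) := (Set.finite_range x).to_subtype
    refine IntermediateField.finiteDimensional_adjoin fun z _ => ?_
    exact (AlgebraicClosure.isAlgebraic K).isAlgebraic z |>.isIntegral
  let dK : Differential K := ⟨D⟩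
  let dL : Differential (IntermediateField.adjoin K (Set.range x)) :=
    Differential.differentialFiniteDimensional K (IntermediateField.adjoin K (Set.range x))
  have hL : @DifferentialAlgebra K (IntermediateField.adjoin K (Set.range x)) _ _ _ dK dL :=
    Differential.differentialAlgebraFiniteDimensional
  refine ⟨IntermediateField.adjoin K (Set.range x), dL.deriv,
    fun i => ⟨x i, IntermediateField.subset_adjoin K _ (Set.mem_range_self i)⟩,
    fun i => rfl, fun c => ?_⟩
  exact @DifferentialAlgebra.deriv_algebraMap K (IntermediateField.adjoin K (Set.range x)) _ _ _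
    dK dL hL c

section Level

variable {K L : Type u} [Field K] [Field L] [Algebra K L] {m d : ℕ} (D : Derivation ℤ K K)
  (D' : Derivation ℤ L L) (hD : ∀ c : K, D' (algebraMap K L c) = algebraMap K L (D c))
  {G H : MvPolynomial (Fin m) K}

private theorem coeff_cd {R : Type*} [CommRing R] {N : ℕ} (D : Derivation ℤ R R)
    (P : MvPolynomial (Fin N) R) (e : Fin N →₀ ℕ) : coeff e (cder D P) = D (coeff e P) := by
  classical
  unfold cder
  rw [coeff_sum]
  simp only [coeff_monomial]
  rw [Finset.sum_ite_eq']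
  split_ifs with h
  · rfl
  · rw [notMem_support_iff.1 h, map_zero]

private theorem cd_pderiv {R : Type*} [CommRing R] {N : ℕ} (D : Derivation ℤ R R)
    (P : MvPolynomial (Fin N) R) (a : Fin N) : cder D (pderiv a P) = pderiv a (cder D P) := by
  ext e
  rw [coeff_cd, coeff_pderiv, coeff_pderiv, coeff_cd, Derivation.leibniz, smul_eq_mul, smul_eq_mul]
  have h1 : D ((e a : R) + 1) = 0 := by
    have h2 : ((e a : R) + 1) = ((e a + 1 : ℕ) : R) := by push_cast; ring
    rw [h2]
    exact D.map_natCast _
  rw [h1]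
  ring

private theorem pd_comm {R : Type*} [CommRing R] {N : ℕ} (P : MvPolynomial (Fin N) R) (a b : Fin N) :
    pderiv a (pderiv b P) = pderiv b (pderiv a P) := by
  rcases eq_or_ne a b with rfl | h
  · rfl
  · ext e
    rw [coeff_pderiv, coeff_pderiv, coeff_pderiv, coeff_pderiv, Finsupp.add_apply, Finsupp.add_apply,
      Finsupp.single_eq_of_ne h.symm, Finsupp.single_eq_of_ne h, add_right_comm, add_zero, add_zero]
    ring

include hD in
theorem dif_a [CharZero L] (hd : 1 ≤ d) (hG : Hm d G) (hH : Hm d H) (hcH : cder D H = 0) (y : Fin m → L) (τ : L)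
    (hy : ∀ k, aeval y (pderiv k G) = τ * aeval y (pderiv k H)) :
    aeval y (cder D G) = D' τ * aeval y H := by
  have hE : ∀ {P : MvPolynomial (Fin m) K}, Hm d P → ∑ k, y k * aeval y (pderiv k P) = d * aeval y P := by
    intro P hP
    have h2 := congrArg (aeval y) ((Hm_iff.1 hP).sum_X_mul_pderiv)
    rw [map_sum, map_nsmul, nsmul_eq_mul] at h2
    rw [← h2]
    refine Finset.sum_congr rfl fun k _ => ?_
    rw [map_mul, aeval_X]
  have hdL : (d : L) ≠ 0 := Nat.cast_ne_zero.2 (by omega)
  have h1 : aeval y G = τ * aeval y H := by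
    apply mul_left_cancel₀ hdL
    rw [← hE hG, mul_left_comm, ← hE hH, Finset.mul_sum]
    refine Finset.sum_congr rfl fun k _ => ?_
    rw [hy]
    ring
  have h2 := der_aeval D D' hD y G
  have h3 := der_aeval D D' hD y H
  rw [hcH, map_zero, zero_add] at h3
  rw [h1, Derivation.leibniz, smul_eq_mul, smul_eq_mul, h3] at h2
  have h4 : ∑ k, aeval y (pderiv k G) * D' (y k) = τ * ∑ k, aeval y (pderiv k H) * D' (y k) := by
    rw [Finset.mul_sum]
    refine Finset.sum_congr rfl fun k _ => ?_
    rw [hy]
    ring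
  rw [h4] at h2
  linear_combination -h2

include hD in
theorem dif_b (hcH : cder D H = 0) (y : Fin m → L) (τ : L)
    (hy : ∀ k, aeval y (pderiv k G) = τ * aeval y (pderiv k H)) (v : Fin m → L)
    (hv : ∀ a, ∑ b, (aeval y (pderiv a (pderiv b G)) - τ * aeval y (pderiv a (pderiv b H))) * v b = 0) :
    ∑ a, v a * aeval y (pderiv a (cder D G)) = D' τ * ∑ a, v a * aeval y (pderiv a H) := by
  have h1 : ∀ a, aeval y (pderiv a (cder D G)) = D' τ * aeval y (pderiv a H) -
      ∑ k, (aeval y (pderiv k (pderiv a G)) - τ * aeval y (pderiv k (pderiv a H))) * D' (y k) := by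
    intro a
    have h2 := der_aeval D D' hD y (pderiv a G)
    have h3 := der_aeval D D' hD y (pderiv a H)
    have h5 : cder D (pderiv a H) = 0 := by rw [cd_pderiv, hcH, map_zero]
    rw [h5, map_zero, zero_add] at h3
    rw [hy, Derivation.leibniz, smul_eq_mul, smul_eq_mul, h3, cd_pderiv] at h2
    have h4 : ∑ k, (aeval y (pderiv k (pderiv a G)) - τ * aeval y (pderiv k (pderiv a H))) * D' (y k) =
        ∑ k, aeval y (pderiv k (pderiv a G)) * D' (y k) - τ * ∑ k, aeval y (pderiv k (pderiv a H)) * D' (y k) := by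
      rw [Finset.mul_sum, ← Finset.sum_sub_distrib]
      refine Finset.sum_congr rfl fun k _ => ?_
      ring
    rw [h4]
    linear_combination -h2
  have h6 : ∑ a, v a * ∑ k, (aeval y (pderiv k (pderiv a G)) - τ * aeval y (pderiv k (pderiv a H))) * D' (y k) = 0 := by
    simp only [Finset.mul_sum]
    rw [Finset.sum_comm]
    refine Finset.sum_eq_zero fun k _ => ?_
    have h7 := hv k
    have hco : ∀ (P : MvPolynomial (Fin m) K) (a : Fin m), pderiv k (pderiv a P) = pderiv a (pderiv k P) := by
      intro P a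
      exact pd_comm P k a
    have h8 : ∑ a, v a * ((aeval y (pderiv k (pderiv a G)) - τ * aeval y (pderiv k (pderiv a H))) * D' (y k)) =
        (∑ a, (aeval y (pderiv k (pderiv a G)) - τ * aeval y (pderiv k (pderiv a H))) * v a) * D' (y k) := by
      rw [Finset.sum_mul]
      refine Finset.sum_congr rfl fun a _ => ?_
      ring
    rw [h8, h7, zero_mul]
  simp only [h1, mul_sub, Finset.sum_sub_distrib]
  rw [h6, sub_zero, Finset.mul_sum]
  refine Finset.sum_congr rfl fun a _ => ?_
  ring

end Level

section Gen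

variable {K : Type u} [Field K] [CharZero K] {m d : ℕ}

private theorem lift3 (D : Derivation ℤ K K) (x v : Fin m → AlgebraicClosure K) (τ : AlgebraicClosure K) :
    ∃ (L : IntermediateField K (AlgebraicClosure K)) (D' : Derivation ℤ L L) (y w : Fin m → L) (σ : L),
      (∀ i, (y i : AlgebraicClosure K) = x i) ∧ (∀ i, (w i : AlgebraicClosure K) = v i) ∧
        (σ : AlgebraicClosure K) = τ ∧ ∀ c : K, D' (algebraMap K L c) = algebraMap K L (D c) := by
  obtain ⟨L, D', y, hy, hD'⟩ := exists_der D (Sum.elim (Sum.elim x v) (fun _ : Unit => τ))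
  exact ⟨L, D', fun i => y (Sum.inl (Sum.inl i)), fun i => y (Sum.inl (Sum.inr i)), y (Sum.inr ()),
    fun i => hy _, fun i => hy _, hy _, hD'⟩

omit [CharZero K] in
private theorem ev_coe (L : IntermediateField K (AlgebraicClosure K)) (x : Fin m → AlgebraicClosure K) (y : Fin m → L)
    (hy : ∀ i, (y i : AlgebraicClosure K) = x i) (P : MvPolynomial (Fin m) K) :
    ((aeval y P : L) : AlgebraicClosure K) = eval x (P.map (algebraMap K (AlgebraicClosure K))) := by
  have h1 := comp_aeval_apply (f := y) L.val P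
  have h2 : (fun i => L.val (y i)) = x := funext hy
  rw [h2] at h1
  rw [eval_map, ← aeval_def]
  exact h1.symm ▸ rfl

private theorem pd_pow {R : Type*} [CommRing R] (i₀ : Fin m) (d : ℕ) (a : Fin m) :
    pderiv a (X i₀ ^ d : MvPolynomial (Fin m) R) = if a = i₀ then C (d : R) * X i₀ ^ (d - 1) else 0 := by
  rw [Derivation.leibniz_pow, pderiv_X]
  split_ifs with h
  · subst h
    rw [Pi.single_eq_same, smul_eq_mul, mul_one, nsmul_eq_mul, map_natCast]
  · rw [Pi.single_eq_of_ne (Ne.symm h), smul_zero, smul_zero]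

omit [CharZero K] in
private theorem cd_pow (D : Derivation ℤ K K) (i₀ : Fin m) (d : ℕ) :
    cder D (X i₀ ^ d : MvPolynomial (Fin m) K) = 0 := by
  classical
  ext e
  rw [coeff_cd, coeff_zero, X_pow_eq_monomial, coeff_monomial]
  split_ifs
  · exact D.map_one_eq_zero
  · exact map_zero _

omit [CharZero K] in
private theorem hm_pow (i₀ : Fin m) (d : ℕ) : Hm d (X i₀ ^ d : MvPolynomial (Fin m) K) :=
  Hm_iff.2 (isHomogeneous_X_pow i₀ d)

/-- The generic Morse pencil. -/
theorem gen_lef (i₀ : Fin m) (hd : 2 ≤ d) (G : MvPolynomial (Fin m) K) (hG : Hm d G) (D : Fin m → Derivation ℤ K K)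
    (hD : ∀ l, l ≠ i₀ → cder (D l) G = X i₀ ^ (d - 1) * X l)
    (hs : ∀ x : Fin m → AlgebraicClosure K, x i₀ = 0 →
      (∀ i, i ≠ i₀ → eval x (pderiv i (G.map (algebraMap K (AlgebraicClosure K)))) = 0) → x = 0) :
    IsLef (G.map (algebraMap K (AlgebraicClosure K)))
      ((X i₀ ^ d : MvPolynomial (Fin m) K).map (algebraMap K (AlgebraicClosure K))) := by
  have hev : ∀ x : Fin m → AlgebraicClosure K, ∀ n : ℕ, eval x ((X i₀ ^ n : MvPolynomial (Fin m) K).map
      (algebraMap K (AlgebraicClosure K))) = x i₀ ^ n := by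
    intro x n
    rw [map_pow, map_X, map_pow, eval_X]
  have hne : ∀ τ x, IsSing (G.map (algebraMap K (AlgebraicClosure K)))
      ((X i₀ ^ d : MvPolynomial (Fin m) K).map (algebraMap K (AlgebraicClosure K))) τ x → x i₀ ≠ 0 := by
    intro τ x hx h0
    refine hx.1 (hs x h0 fun i hi => ?_)
    rw [hx.2 i, map_pow, map_X, pd_pow, if_neg hi, map_zero, mul_zero]
  -- the value of the derivation at `τ`
  have hA : ∀ l, l ≠ i₀ → ∀ (L : IntermediateField K (AlgebraicClosure K)) (D' : Derivation ℤ L L)
      (_ : ∀ c : K, D' (algebraMap K L c) = algebraMap K L (D l c)) (x : Fin m → AlgebraicClosure K) (y : Fin m → L)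
      (_ : ∀ i, (y i : AlgebraicClosure K) = x i) (τ : AlgebraicClosure K) (σ : L) (_ : (σ : AlgebraicClosure K) = τ),
      IsSing (G.map (algebraMap K (AlgebraicClosure K)))
        ((X i₀ ^ d : MvPolynomial (Fin m) K).map (algebraMap K (AlgebraicClosure K))) τ x →
      (∀ k, aeval y (pderiv k G) = σ * aeval y (pderiv k (X i₀ ^ d : MvPolynomial (Fin m) K))) ∧
      (D' σ : AlgebraicClosure K) * x i₀ = x l := by
    intro l hl L D' hD' x y hy τ σ hσ hx
    have hczL : CharZero L := charZero_of_injective_algebraMap (algebraMap K L).injective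
    have h1 : ∀ k, aeval y (pderiv k G) = σ * aeval y (pderiv k (X i₀ ^ d : MvPolynomial (Fin m) K)) := by
      intro k
      apply Subtype.ext
      show ((aeval y (pderiv k G) : L) : AlgebraicClosure K) = (σ : AlgebraicClosure K) *
        ((aeval y (pderiv k (X i₀ ^ d : MvPolynomial (Fin m) K)) : L) : AlgebraicClosure K)
      rw [ev_coe L x y hy, ev_coe L x y hy, hσ, ← pderiv_map, ← pderiv_map]
      exact hx.2 k
    refine ⟨h1, ?_⟩
    have h2 := dif_a (D l) D' hD' (by omega) hG (hm_pow i₀ d) (cd_pow (D l) i₀ d) y σ h1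
    rw [hD l hl] at h2
    have h3 := congrArg (algebraMap L (AlgebraicClosure K)) h2
    rw [map_mul, map_mul, map_mul, map_pow, map_pow, map_pow, aeval_X, aeval_X] at h3
    have h4 : x i₀ ^ (d - 1) * x l = (D' σ : AlgebraicClosure K) * x i₀ ^ d := by
      rw [← hy, ← hy]
      exact h3
    have h5 : x i₀ ^ d = x i₀ ^ (d - 1) * x i₀ := by
      rw [← pow_succ]
      congr 1
      omega
    have h6 := hne τ x hx
    apply mul_left_cancel₀ (pow_ne_zero (d - 1) h6)
    rw [h4, h5]
    ring
  refine ⟨fun τ x hx => ?_, fun τ x hx v hv => ?_, fun τ x y hx hy => ?_⟩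
  · rw [hev]
    exact pow_ne_zero _ (hne τ x hx)
  · have h0 := hne τ x hx
    refine ⟨v i₀ / x i₀, funext fun l => ?_⟩
    rw [Pi.smul_apply, smul_eq_mul]
    by_cases hl : l = i₀
    · rw [hl, div_mul_cancel₀ _ h0]
    · obtain ⟨L, D', y, w, σ, hy, hw, hσ, hD'⟩ := lift3 (D l) x v τ
      obtain ⟨h1, h2⟩ := hA l hl L D' hD' x y hy τ σ hσ hx
      have h3 := dif_b (D l) D' hD' (cd_pow (D l) i₀ d) y σ h1 w (by
        intro a
        apply Subtype.ext
        have h4 := hv a
        show ((∑ b, (aeval y (pderiv a (pderiv b G)) -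
          σ * aeval y (pderiv a (pderiv b (X i₀ ^ d : MvPolynomial (Fin m) K)))) * w b : L) : AlgebraicClosure K) =
            (0 : AlgebraicClosure K)
        rw [← h4, AddSubmonoidClass.coe_finsetSum]
        refine Finset.sum_congr rfl fun b _ => ?_
        show (((aeval y (pderiv a (pderiv b G)) : L) : AlgebraicClosure K) - (σ : AlgebraicClosure K) *
          ((aeval y (pderiv a (pderiv b (X i₀ ^ d : MvPolynomial (Fin m) K))) : L) : AlgebraicClosure K)) *
            (w b : AlgebraicClosure K) = _
        rw [ev_coe L x y hy, ev_coe L x y hy, hσ, hw, map_sub, map_sub, map_sub, pderiv_C_mul,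
          pderiv_C_mul, map_mul, eval_C, pderiv_map, pderiv_map, pderiv_map, pderiv_map])
      rw [hD l hl] at h3
      have h5 : ∀ a, aeval y (pderiv a (X i₀ ^ (d - 1) * X l : MvPolynomial (Fin m) K)) =
          (if a = l then y i₀ ^ (d - 1) else 0) + y l * (if a = i₀ then ((d - 1 : ℕ) : L) * y i₀ ^ (d - 1 - 1) else 0) := by
        intro a
        rw [pderiv_mul, pd_pow, pderiv_X]
        by_cases ha : a = i₀
        · subst ha
          rw [if_pos rfl, if_pos rfl, Pi.single_eq_of_ne hl, if_neg (fun h => hl h.symm)]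
          simp
          ring
        · rw [if_neg ha, if_neg ha]
          by_cases hal : a = l
          · subst hal
            simp
          · rw [if_neg hal, Pi.single_eq_of_ne (Ne.symm hal)]
            simp
      have h6 : ∀ a, aeval y (pderiv a (X i₀ ^ d : MvPolynomial (Fin m) K)) =
          if a = i₀ then (d : L) * y i₀ ^ (d - 1) else 0 := by
        intro a
        rw [pd_pow]
        split_ifs <;> simp
      simp only [h5, h6, mul_add, mul_ite, mul_zero, Finset.sum_add_distrib, Finset.sum_ite_eq', Finset.mem_univ,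
        if_true] at h3
      have h7 := congrArg (algebraMap L (AlgebraicClosure K)) h3
      simp only [map_add, map_mul, map_pow, map_natCast] at h7
      have h8 : v l * x i₀ ^ (d - 1) + v i₀ * (x l * (((d - 1 : ℕ) : AlgebraicClosure K) * x i₀ ^ (d - 1 - 1))) =
          (D' σ : AlgebraicClosure K) * (v i₀ * ((d : AlgebraicClosure K) * x i₀ ^ (d - 1))) := by
        rw [← hy, ← hy, ← hw, ← hw]
        exact h7
      obtain ⟨e, rfl⟩ : ∃ e, d = e + 2 := ⟨d - 2, by omega⟩
      have e1 : e + 2 - 1 = e + 1 := rfl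
      have e2 : e + 1 - 1 = e := rfl
      rw [e1, e2] at h8
      rw [div_mul_eq_mul_div, eq_div_iff h0]
      apply mul_left_cancel₀ (pow_ne_zero e h0)
      push_cast at h8
      linear_combination h8 + v i₀ * ((e : AlgebraicClosure K) + 2) * x i₀ ^ e * h2
  · have hx0 := hne τ x hx
    have hy0 := hne τ y hy
    refine ⟨y i₀ / x i₀, funext fun l => ?_⟩
    rw [Pi.smul_apply, smul_eq_mul]
    by_cases hl : l = i₀
    · rw [hl, div_mul_cancel₀ _ hx0]
    · obtain ⟨L, D', x', y', σ, hx', hy', hσ, hD'⟩ := lift3 (D l) x y τ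
      obtain ⟨_, h2⟩ := hA l hl L D' hD' x x' hx' τ σ hσ hx
      obtain ⟨_, h3⟩ := hA l hl L D' hD' y y' hy' τ σ hσ hy
      rw [← h2, ← h3]
      field_simp

end Gen

end MPadcPZ
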