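import Pool.Agent.Lib.MP_adc574_ag_PZ.All
import Pool.Agent.Lib.MP_adc574_ag_PZ.Gen
import Pool.Agent.Lib.MP_adc574_ag_Cov.Der

/-!
# Linear systems whose generic member defines a Morse pencil
-/

set_option autoImplicit false

namespace MPadcPZ

open MvPolynomial MPadcLZ MPadcHM

/-- The form `G` is smooth on the hyperplane `x_{i₀} = 0` (all points in the field `k`). -/
def InfOver {k : Type} [Field k] {m : ℕ} (i₀ : Fin m) (G : MvPolynomial (Fin m) k) : Prop :=
  ∀ x : Fin m → k, x i₀ = 0 → (∀ i, i ≠ i₀ → eval x (pderiv i G) = 0) → x = 0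

section Up

variable {A : Type} [CommRing A] {m d : ℕ} {i₀ : Fin m} {G : MvPolynomial (Fin m) A}

theorem morse_up (hG : G.IsHomogeneous d) {Ω₁ Ω₂ : Type} [Field Ω₁] [Field Ω₂] [IsAlgClosed Ω₁] (j₁ : A →+* Ω₁)
    (j₂ : A →+* Ω₂) (h₁ : Function.Injective j₁) (h₂ : Function.Injective j₂) (h : MorseOver i₀ d (G.map j₁)) :
    MorseOver i₀ d (G.map j₂) := by
  obtain ⟨Φ, hΦ⟩ := unif_morse i₀ d
  obtain ⟨M, _, hM0, hM⟩ := hΦ A G hG Ω₁ j₁ h₁ h
  exact hM Ω₂ j₂ (fun h3 => hM0 (h₂ (by rw [h3, map_zero])))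

theorem inf_up [IsDomain A] {Ω₁ Ω₂ : Type} [Field Ω₁] [Field Ω₂] [IsAlgClosed Ω₁] (j₁ : A →+* Ω₁)
    (j₂ : A →+* Ω₂) (h₁ : Function.Injective j₁) (h₂ : Function.Injective j₂) (h : InfOver i₀ (G.map j₁)) :
    InfOver i₀ (G.map j₂) := by
  refine inf_iff.2 fun a z => ?_
  obtain ⟨M, hM0, hM⟩ := null_den (SI i₀ G a) j₁ h₁ (inf_iff.1 h a)
  exact null_use _ M hM j₂ (fun h3 => hM0 (h₂ (by rw [h3, map_zero]))) z

end Up

section Pencil

variable {A : Type} [CommRing A] [IsDomain A] {m d : ℕ} {i₀ : Fin m} {G₀ : MvPolynomial (Fin m) A}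

/-- The embedding of the ring of the parameters in an algebraically closed field. -/
noncomputable def jA (A : Type) [CommRing A] [IsDomain A] {m : ℕ} (S : Finset (Fin m →₀ ℕ)) :
    MvPolynomial S A →+* AlgebraicClosure (FractionRing (MvPolynomial S A)) :=
  (algebraMap (FractionRing (MvPolynomial S A)) (AlgebraicClosure (FractionRing (MvPolynomial S A)))).comp
    (algebraMap (MvPolynomial S A) (FractionRing (MvPolynomial S A)))

theorem jA_inj (S : Finset (Fin m →₀ ℕ)) : Function.Injective (jA A S) := by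
  unfold jA
  rw [RingHom.coe_comp]
  exact (algebraMap (FractionRing (MvPolynomial S A)) (AlgebraicClosure (FractionRing
    (MvPolynomial S A)))).injective.comp (IsFractionRing.injective (MvPolynomial S A) (FractionRing
    (MvPolynomial S A)))

theorem generic_iff (S : Finset (Fin m →₀ ℕ)) : GenericMorse i₀ d G₀ S ↔ MorseOver i₀ d ((gen G₀ S).map (jA A S)) := by
  unfold GenericMorse IsMorsePencil jA
  rw [MvPolynomial.map_map]

/-- A Morse pencil. -/
theorem generic_pencil (hG : G₀.IsHomogeneous d) {Ω : Type} [Field Ω] [IsAlgClosed Ω] (j : A →+* Ω)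
    (hj : Function.Injective j) (h : MorseOver i₀ d (G₀.map j)) : GenericMorse i₀ d G₀ {Finsupp.single i₀ d} := by
  rw [generic_iff]
  have h1 : MorseOver i₀ d (G₀.map ((jA A {Finsupp.single i₀ d}).comp C)) :=
    morse_up hG j _ hj ((jA_inj _).comp (C_injective _ _)) h
  have h2 := morse_shift (jA A {Finsupp.single i₀ d} (X ⟨Finsupp.single i₀ d, Finset.mem_singleton_self _⟩)) h1
  have h3 : (gen G₀ {Finsupp.single i₀ d}).map (jA A {Finsupp.single i₀ d}) =
      G₀.map ((jA A {Finsupp.single i₀ d}).comp C) +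
        C (jA A {Finsupp.single i₀ d} (X ⟨Finsupp.single i₀ d, Finset.mem_singleton_self _⟩)) * X i₀ ^ d := by
    unfold gen mb
    rw [map_add, MvPolynomial.map_map, map_sum]
    congr 1
    rw [Finset.sum_eq_single (⟨Finsupp.single i₀ d, Finset.mem_singleton_self _⟩ : ({Finsupp.single i₀ d} : Finset _))]
    · rw [map_monomial, X_pow_eq_monomial, C_mul_monomial, mul_one]
    · intro e _ he
      exact absurd (Subtype.ext (Finset.mem_singleton.1 e.2)) he
    · intro h
      exact absurd (Finset.mem_univ _) h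
  rw [h3]
  exact h2

end Pencil

section Der

variable {A : Type} [CommRing A] [IsDomain A] [CharZero A] {m d : ℕ} {i₀ : Fin m} {G₀ : MvPolynomial (Fin m) A}
  {S : Finset (Fin m →₀ ℕ)} (K : Type) [Field K] [Algebra (MvPolynomial S A) K] [IsFractionRing (MvPolynomial S A) K]

include A S in
omit [IsDomain A] in
private theorem charZero_frac : CharZero K := by
  have h1 : CharZero (MvPolynomial S A) := charZero_of_injective_ringHom (C_injective S A)
  exact charZero_of_injective_ringHom (IsFractionRing.injective (MvPolynomial S A) K)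

private theorem cd_coeff {R : Type*} [CommRing R] {N : ℕ} (D : Derivation ℤ R R)
    (P : MvPolynomial (Fin N) R) (e : Fin N →₀ ℕ) : coeff e (cder D P) = D (coeff e P) := by
  classical
  unfold cder
  rw [coeff_sum]
  simp only [coeff_monomial]
  rw [Finset.sum_ite_eq']
  split_ifs with h
  · rfl
  · rw [notMem_support_iff.1 h, map_zero]

omit [CharZero A] in
/-- The derivation with respect to one parameter. -/
theorem exists_par (e₁ : Fin m →₀ ℕ) (he : e₁ ∈ S) :
    ∃ D : Derivation ℤ K K, cder D ((gen G₀ S).map (algebraMap (MvPolynomial S A) K)) = monomial e₁ 1 := by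
  classical
  obtain ⟨D, hD⟩ := MPadcCov.ext_frac (K := K)
    ((pderiv (⟨e₁, he⟩ : S) : Derivation A (MvPolynomial S A) (MvPolynomial S A)).restrictScalars ℤ)
  have hD' : ∀ r : MvPolynomial S A, D (algebraMap (MvPolynomial S A) K r) =
      algebraMap (MvPolynomial S A) K (pderiv (⟨e₁, he⟩ : S) r) := fun r => hD r
  refine ⟨D, ?_⟩
  ext e
  rw [cd_coeff, coeff_map, hD', coeff_monomial]
  unfold gen
  rw [coeff_mb, coeff_map, map_add, pderiv_C, zero_add]
  by_cases h : e ∈ S
  · rw [dif_pos h, pderiv_X]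
    by_cases h2 : e₁ = e
    · subst h2
      rw [if_pos rfl, Pi.single_eq_same, map_one]
    · rw [if_neg h2, Pi.single_eq_of_ne, map_zero]
      intro h3
      exact h2 (congrArg Subtype.val h3).symm
  · rw [dif_neg h, map_zero, map_zero, if_neg]
    intro h3
    exact h (h3 ▸ he)

/-- If the coefficients of the `x_l ^ d` vary, the generic member is smooth at infinity. -/
theorem inf_gen (hd : 1 ≤ d) (hG : G₀.IsHomogeneous d) (hS : ∀ e ∈ S, e.degree = d)
    (h₂ : ∀ l, l ≠ i₀ → Finsupp.single l d ∈ S) : InfOver i₀ (((gen G₀ S).map (algebraMap (MvPolynomial S A) K)).map (algebraMap K (AlgebraicClosure K))) := by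
  have hcz : CharZero K := charZero_frac (A := A) (S := S) K
  set G : MvPolynomial (Fin m) K := (gen G₀ S).map (algebraMap (MvPolynomial S A) K) with hGdef
  intro x hx0 hx
  funext l
  by_cases hl : l = i₀
  · rw [hl, hx0]
    rfl
  obtain ⟨D, hD⟩ := exists_par (G₀ := G₀) K (Finsupp.single l d) (h₂ l hl)
  obtain ⟨L, D', y, hy, hD'⟩ := exists_der D x
  have hczL : CharZero L := charZero_of_injective_algebraMap (algebraMap K L).injective
  have hev : ∀ P : MvPolynomial (Fin m) K, ((aeval y P : L) : AlgebraicClosure K) =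
      eval x (P.map (algebraMap K (AlgebraicClosure K))) := by
    intro P
    have h1 := comp_aeval_apply (f := y) L.val P
    have h2 : (fun i => L.val (y i)) = x := funext hy
    rw [h2] at h1
    rw [eval_map, ← aeval_def]
    exact h1.symm ▸ rfl
  have hy0 : y i₀ = 0 := by
    apply Subtype.ext
    rw [hy, hx0]
    rfl
  have hk : ∀ k, k ≠ i₀ → aeval y (pderiv k G) = 0 := by
    intro k hk
    apply Subtype.ext
    rw [hev, ← pderiv_map, hx k hk]
    rfl
  have hGh : G.IsHomogeneous d := (gen_hom G₀ S hG hS).map _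
  have hdL : (d : L) ≠ 0 := Nat.cast_ne_zero.2 (by omega)
  have h1 : aeval y G = 0 := by
    have h2 := congrArg (aeval y) hGh.sum_X_mul_pderiv
    rw [map_sum, map_nsmul, nsmul_eq_mul] at h2
    have h3 : ∑ k, aeval y (X k * pderiv k G) = 0 := by
      refine Finset.sum_eq_zero fun k _ => ?_
      rw [map_mul, aeval_X]
      by_cases hk' : k = i₀
      · rw [hk', hy0, zero_mul]
      · rw [hk k hk', mul_zero]
    rw [h3] at h2
    exact (mul_eq_zero.1 h2.symm).resolve_left hdL
  have h2 := der_aeval D D' hD' y G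
  rw [h1, map_zero, Finset.sum_eq_zero (fun k _ => by
    by_cases hk' : k = i₀
    · rw [hk', hy0, map_zero, mul_zero]
    · rw [hk k hk', zero_mul]), add_zero, hD, ← X_pow_eq_monomial, map_pow, aeval_X] at h2
  have h3 : y l = 0 := eq_zero_of_pow_eq_zero h2.symm
  rw [← hy l, h3]
  rfl

/-- The generic member defines a Morse pencil. -/
theorem gen_morse (hd : 2 ≤ d) (hG : G₀.IsHomogeneous d) (hS : ∀ e ∈ S, e.degree = d)
    (h₁ : ∀ l, l ≠ i₀ → Finsupp.single i₀ (d - 1) + Finsupp.single l 1 ∈ S)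
    (h₂ : InfOver i₀ (((gen G₀ S).map (algebraMap (MvPolynomial S A) K)).map (algebraMap K (AlgebraicClosure K)))) :
    MorseOver i₀ d (((gen G₀ S).map (algebraMap (MvPolynomial S A) K)).map (algebraMap K (AlgebraicClosure K))) := by
  have hcz : CharZero K := charZero_frac (A := A) (S := S) K
  have hD : ∀ l, ∃ D : Derivation ℤ K K, l ≠ i₀ →
      cder D ((gen G₀ S).map (algebraMap (MvPolynomial S A) K)) = X i₀ ^ (d - 1) * X l := by
    intro l
    by_cases hl : l = i₀
    · exact ⟨0, fun h => absurd hl h⟩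
    · obtain ⟨D, hD⟩ := exists_par (G₀ := G₀) K _ (h₁ l hl)
      refine ⟨D, fun _ => ?_⟩
      rw [hD, X_pow_eq_monomial]
      have h3 : (X l : MvPolynomial (Fin m) K) = monomial (Finsupp.single l 1) 1 := rfl
      rw [h3, monomial_mul, one_mul]
  choose D hD using hD
  refine ⟨h₂, ?_⟩
  have h3 := gen_lef i₀ hd _ (Hm_iff.2 ((gen_hom G₀ S hG hS).map _)) D hD h₂
  rw [map_pow, map_X] at h3
  exact h3

end Der

section Crit

variable {A : Type} [CommRing A] [IsDomain A] {m d : ℕ} {i₀ : Fin m} {G₀ : MvPolynomial (Fin m) A}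
  {S : Finset (Fin m →₀ ℕ)}

/-- If the part at infinity does not vary and is smooth, the generic member is smooth at infinity. -/
theorem inf_fix (h₂ : ∀ e ∈ S, e i₀ ≠ 0) {Ω : Type} [Field Ω] [IsAlgClosed Ω] (j : A →+* Ω)
    (hj : Function.Injective j) (h : InfOver i₀ (G₀.map j)) : InfOver i₀ ((gen G₀ S).map (jA A S)) := by
  have h1 : InfOver i₀ (G₀.map ((jA A S).comp C)) := inf_up j _ hj ((jA_inj _).comp (C_injective _ _)) h
  intro x hx0 hx
  refine h1 x hx0 fun i hi => ?_
  have h3 := hx i hi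
  unfold gen mb at h3
  rw [map_add, MvPolynomial.map_map, map_sum, map_add, map_sum, map_add, map_sum] at h3
  rw [Finset.sum_eq_zero (fun e _ => by
    rw [map_monomial, pderiv_monomial, eval_monomial]
    have h4 : (((e : Fin m →₀ ℕ) - Finsupp.single i 1).prod fun n k => x n ^ k) = 0 := by
      rw [Finsupp.prod_fintype _ _ (fun _ => pow_zero _)]
      refine Finset.prod_eq_zero (Finset.mem_univ i₀) ?_
      rw [hx0, Finsupp.tsub_apply, Finsupp.single_eq_of_ne hi.symm, tsub_zero]
      exact zero_pow (h₂ e e.2)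
    rw [h4, mul_zero]), add_zero] at h3
  exact h3

/-- The generic member defines a Morse pencil: the coefficients of the `x_{i₀} ^ (d - 1) x_l` vary, and either the
part at infinity does not vary and is smooth or the coefficients of the `x_l ^ d` vary. -/
theorem generic_morse [CharZero A] (hd : 2 ≤ d) (hG : G₀.IsHomogeneous d) (hS : ∀ e ∈ S, e.degree = d)
    (h₁ : ∀ l, l ≠ i₀ → Finsupp.single i₀ (d - 1) + Finsupp.single l 1 ∈ S) {Ω : Type} [Field Ω] [IsAlgClosed Ω]
    (j : A →+* Ω) (hj : Function.Injective j)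
    (h₂ : ((∀ e ∈ S, e i₀ ≠ 0) ∧ InfOver i₀ (G₀.map j)) ∨ ∀ l, l ≠ i₀ → Finsupp.single l d ∈ S) :
    GenericMorse i₀ d G₀ S := by
  have hGj : (gen G₀ S).map (jA A S) = ((gen G₀ S).map (algebraMap (MvPolynomial S A)
      (FractionRing (MvPolynomial S A)))).map (algebraMap (FractionRing (MvPolynomial S A)) (AlgebraicClosure
        (FractionRing (MvPolynomial S A)))) := by
    rw [MvPolynomial.map_map]
    rfl
  rw [generic_iff, hGj]
  refine gen_morse _ hd hG hS h₁ ?_
  rcases h₂ with ⟨h3, h4⟩ | h3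
  · rw [← hGj]
    exact inf_fix h3 j hj h4
  · exact inf_gen _ (by omega) hG hS h3

end Crit

end MPadcPZ
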