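import Pool.Agent.Lib.MP_adc574_ag_OA.C6
import Pool.Agent.Lib.MP_adc574_ag_OA.C8
import Pool.Agent.Lib.MP_adc574_ag_OA.C11
import Pool.Agent.Lib.MP_adc574_ag_OA.C12

/-!
# The larger sieve over a number field for an arbitrary property
-/

set_option autoImplicit false

namespace MPadcPZ

open NumberField MPadcOA

variable {K : Type} [Field K] [NumberField K]

/-- The residue class of `a / b` (anything if there is none). -/
private noncomputable def cls (a b : K → 𝓞 K) (𝔭 : Ideal (𝓞 K)) (t : K) : 𝓞 K ⧸ 𝔭 :=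
  open Classical in
  if h : ∃ c : 𝓞 K ⧸ 𝔭, c * Ideal.Quotient.mk 𝔭 (b t) = Ideal.Quotient.mk 𝔭 (a t) then h.choose else 0

omit [NumberField K] in
private theorem cls_spec (a b : K → 𝓞 K) (𝔭 : Ideal (𝓞 K)) (h𝔭 : 𝔭.IsMaximal) (t : K) (hb : b t ∉ 𝔭) :
    cls a b 𝔭 t * Ideal.Quotient.mk 𝔭 (b t) = Ideal.Quotient.mk 𝔭 (a t) := by
  have h : ∃ c : 𝓞 K ⧸ 𝔭, c * Ideal.Quotient.mk 𝔭 (b t) = Ideal.Quotient.mk 𝔭 (a t) := by
    let _ : Field (𝓞 K ⧸ 𝔭) := @Ideal.Quotient.field _ _ 𝔭 h𝔭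
    have h1 : Ideal.Quotient.mk 𝔭 (b t) ≠ 0 := fun h1 => hb (Ideal.Quotient.eq_zero_iff_mem.1 h1)
    exact ⟨Ideal.Quotient.mk 𝔭 (a t) / Ideal.Quotient.mk 𝔭 (b t), div_mul_cancel₀ _ h1⟩
  unfold cls
  rw [dif_pos h]
  exact h.choose_spec

omit [NumberField K] in
private theorem cls_eq (a b : K → 𝓞 K) (𝔭 : Ideal (𝓞 K)) (h𝔭 : 𝔭.IsMaximal) (t t' : K)
    (hb : b t ∉ 𝔭) (hb' : b t' ∉ 𝔭) (h : cls a b 𝔭 t = cls a b 𝔭 t') :
    a t * b t' - a t' * b t ∈ 𝔭 := by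
  have h1 := cls_spec a b 𝔭 h𝔭 t hb
  have h2 := cls_spec a b 𝔭 h𝔭 t' hb'
  rw [← Ideal.Quotient.eq_zero_iff_mem, map_sub, map_mul, map_mul, ← h1, ← h2, h]
  ring

private theorem logB (B B' z n : ℕ) (hz : 1 ≤ z) (C N : ℝ) (hC : 1 ≤ C) (hN : 0 < N)
    (h : N ≤ ((C * (z : ℝ) ^ B') * (z : ℝ) ^ B) ^ n) :
    Real.log N ≤ n * Real.log C + n * (B' + B) * Real.log z := by
  have hz0 : (0 : ℝ) < z := by exact_mod_cast hz
  have hC0 : (0 : ℝ) < C := by linarith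
  have h5 := Real.log_le_log hN h
  rw [Real.log_pow, Real.log_mul (by positivity) (by positivity), Real.log_mul (by positivity) (by positivity),
    Real.log_pow, Real.log_pow] at h5
  refine h5.trans (le_of_eq ?_)
  ring

/-- The sieve: `Z 𝔭` are the bad residue classes, at most `ε * N𝔭` of them for each `𝔭` which does not contain `M`;
if the class of `t = a / b` is not bad, `t` has the property `G` at `𝔭`. Then all but at most `z / 2` of the `t` of height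
at most `z ^ B` have the property at a share of at least `1 - δ` of the `𝔭` of norm at most `z`. -/
theorem engine (K : Type) [Field K] [NumberField K] (δ : ℝ) (hδ : 0 < δ) (B : ℕ) :
    ∃ ε : ℝ, 0 < ε ∧ ∀ (C : ℝ) (B' : ℕ), ∃ z₀ : ℕ, ∀ z : ℕ, z₀ ≤ z → ∀ M : 𝓞 K, M ≠ 0 →
      house (M : K) ≤ C * (z : ℝ) ^ B' →
      ∀ (G : K → Ideal (𝓞 K) → Prop) (Z : ∀ 𝔭 : Ideal (𝓞 K), Set (𝓞 K ⧸ 𝔭)),
      (∀ 𝔭 : Ideal (𝓞 K), 𝔭.IsMaximal → M ∉ 𝔭 → ((Z 𝔭).ncard : ℝ) ≤ ε * Ideal.absNorm 𝔭) →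
      (∀ 𝔭 : Ideal (𝓞 K), 𝔭.IsMaximal → M ∉ 𝔭 → ∀ (t : K) (a b : 𝓞 K) (c : 𝓞 K ⧸ 𝔭), b ∉ 𝔭 →
        t * b = a → c * Ideal.Quotient.mk 𝔭 b = Ideal.Quotient.mk 𝔭 a → c ∉ Z 𝔭 → G t 𝔭) →
        {t : K | (∃ a b : 𝓞 K, b ≠ 0 ∧ t * b = a ∧ house (a : K) ≤ (z : ℝ) ^ B ∧
            house (b : K) ≤ (z : ℝ) ^ B) ∧
          wtK K (G t) z < (1 - δ) * wtK K (fun _ => True) z}.encard * 2 ≤ z := by
  classical
  obtain ⟨c, hc0, z₁, hc⟩ := mertensK K
  obtain ⟨Θ, hΘ0, hΘ⟩ := thetaK K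
  set n : ℕ := Module.finrank ℚ K with hn
  have hn1 : 1 ≤ n := Module.finrank_pos
  set ε : ℝ := δ ^ 2 * c / (4 * (n + 2 * n * B + Θ)) with hε
  have hε0 : 0 < ε := by positivity
  refine ⟨ε, hε0, fun C' B' => ?_⟩
  obtain ⟨C, hC⟩ : ∃ C : ℝ, C = max C' 1 := ⟨_, rfl⟩
  have hC1 : 1 ≤ C := by rw [hC]; exact le_max_right _ _
  have hCC : C' ≤ C := by rw [hC]; exact le_max_left _ _
  set Y : ℕ := ⌈4 * n * (B' + B : ℝ) / (δ * c)⌉₊ + 1 with hY
  have hY1 : 1 ≤ Y := by omega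
  have hY0 : (0 : ℝ) < Y := by exact_mod_cast hY1
  have hδc : 0 < δ * c := by positivity
  have hYδ : n * (B' + B : ℝ) / Y ≤ δ * c / 4 := by
    have h1 : (4 * n * (B' + B : ℝ) / (δ * c) : ℝ) ≤ Y := by
      have := Nat.le_ceil (4 * n * (B' + B : ℝ) / (δ * c) : ℝ)
      rw [hY]
      push_cast
      linarith
    rw [div_le_iff₀ hδc] at h1
    rw [div_le_iff₀ hY0]
    linarith
  set K₁ : ℝ := n * Real.log C with hK₁
  have hK₁0 : 0 ≤ K₁ := by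
    have h1 : 0 ≤ Real.log C := Real.log_nonneg hC1
    positivity
  set K₀ : ℝ := wtK K (fun _ => True) Y + K₁ with hK₀
  obtain ⟨z₀, hz₀⟩ := exists_nat_gt (Real.exp (max (4 * K₀ / (δ * c)) 2))
  refine ⟨z₀ + z₁, fun z hz M hM0 hMh' G Z hZ hG => ?_⟩
  have hzr : Real.exp (max (4 * K₀ / (δ * c)) 2) < z :=
    hz₀.trans_le (by exact_mod_cast (by omega : z₀ ≤ z))
  have hz0 : (0 : ℝ) < z := (Real.exp_pos _).trans hzr
  have hz1 : 1 ≤ z := by exact_mod_cast hz0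
  have hMh : house (M : K) ≤ C * (z : ℝ) ^ B' :=
    hMh'.trans (mul_le_mul_of_nonneg_right hCC (by positivity))
  have hlog : max (4 * K₀ / (δ * c)) 2 < Real.log z := (Real.lt_log_iff_exp_lt hz0).2 hzr
  have hl2 : 4 * K₀ / (δ * c) < Real.log z := (le_max_left _ _).trans_lt hlog
  have hl3 : 2 < Real.log z := (le_max_right _ _).trans_lt hlog
  set L : ℝ := wtK K (fun _ => True) z with hL
  have hLlog : c * Real.log z ≤ L := hc z (by omega)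
  have hL0 : 0 < L := by
    have : 0 < c * Real.log z := by positivity
    linarith
  set X : ℝ := (z : ℝ) ^ B with hX
  have hX1 : 1 ≤ X := by
    rw [hX]
    exact one_le_pow₀ (by exact_mod_cast hz1)
  -- the exceptional set
  set Tset : Set K := {t : K | (∃ a b : 𝓞 K, b ≠ 0 ∧ t * b = a ∧ house (a : K) ≤ X ∧ house (b : K) ≤ X) ∧
          wtK K (G t) z < (1 - δ) * L} with hTset
  have hfin : Tset.Finite := (finite_height (K := K) X).subset fun t ht => ht.1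
  set T : Finset K := hfin.toFinset with hT
  have hTmem : ∀ t, t ∈ T ↔ t ∈ Tset := fun t => hfin.mem_toFinset
  have hex : ∀ t : K, ∃ ab : 𝓞 K × 𝓞 K, t ∈ T → ab.2 ≠ 0 ∧ t * ab.2 = ab.1 ∧
      house (ab.1 : K) ≤ X ∧ house (ab.2 : K) ≤ X := by
    intro t
    by_cases ht : t ∈ T
    · obtain ⟨⟨a, b, h1, h2, h3, h4⟩, _⟩ := (hTmem t).1 ht
      exact ⟨(a, b), fun _ => ⟨h1, h2, h3, h4⟩⟩
    · exact ⟨(0, 0), fun h => absurd h ht⟩
  choose ab hab using hex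
  set a : K → 𝓞 K := fun t => (ab t).1 with ha
  set b : K → 𝓞 K := fun t => (ab t).2 with hb
  -- the primes
  have hPfin := primesK_finite (K := K) (fun 𝔭 => M ∉ 𝔭) z
  set P : Finset (Ideal (𝓞 K)) := hPfin.toFinset with hP
  have hPmem : ∀ 𝔭, 𝔭 ∈ P ↔ 𝔭.IsMaximal ∧ Ideal.absNorm 𝔭 ≤ z ∧ M ∉ 𝔭 :=
    fun 𝔭 => hPfin.mem_toFinset
  set S : Ideal (𝓞 K) → Finset K := fun 𝔭 => T.filter fun t => b t ∉ 𝔭 ∧ cls a b 𝔭 t ∈ Z 𝔭 with hS
  have hsieve := larger_sieveK T a b X hX1 (fun t ht => hab t ht) P (fun 𝔭 h𝔭 => ((hPmem 𝔭).1 h𝔭).1)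
    ε hε0 S (fun 𝔭 _ => Finset.filter_subset _ _) (cls a b) Z
    (fun 𝔭 h𝔭 => hZ 𝔭 ((hPmem 𝔭).1 h𝔭).1 ((hPmem 𝔭).1 h𝔭).2.2)
    (fun 𝔭 _ t ht => (Finset.mem_filter.1 ht).2.2)
    (fun 𝔭 h𝔭 t ht t' ht' h => cls_eq a b 𝔭 ((hPmem 𝔭).1 h𝔭).1 t t' (Finset.mem_filter.1 ht).2.1
      (Finset.mem_filter.1 ht').2.1 h)
  have hbound := weights_bound T P (fun 𝔭 => (Ideal.absNorm 𝔭 : ℝ)) (by
      intro 𝔭 h𝔭
      have := (absNorm_facts 𝔭 ((hPmem 𝔭).1 h𝔭).1).2.2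
      exact_mod_cast (by omega : 1 ≤ Ideal.absNorm 𝔭)) ε hε0 S (fun 𝔭 _ => Finset.filter_subset _ _)
    (n * Real.log (2 * X ^ 2)) (δ * L / 2) L (Θ * z) (by positivity) hL0 hsieve (by
      intro t ht
      have ht' := (hTmem t).1 ht
      obtain ⟨hb0, htab, hha, hhb⟩ := hab t ht
      have h1 : wtK K (G t) z < (1 - δ) * L := ht'.2
      have h2 := wtK_add_not (K := K) (G t) z
      rw [← hL] at h2
      set dt : 𝓞 K := M * b t with hdt
      have hdt0 : dt ≠ 0 := mul_ne_zero hM0 hb0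
      have h3 : wtK K (fun 𝔭 => ¬ G t 𝔭) z ≤
          wtK K (fun 𝔭 => dt ∈ 𝔭 ∨ (M ∉ 𝔭 ∧ b t ∉ 𝔭 ∧ cls a b 𝔭 t ∈ Z 𝔭)) z := by
        refine wtK_mono _ _ z fun 𝔭 hm hz' hno => ?_
        by_cases h4 : dt ∈ 𝔭
        · exact Or.inl h4
        have h5 : M ∉ 𝔭 := fun h => h4 (Ideal.mul_mem_right _ _ h)
        have h6 : b t ∉ 𝔭 := fun h => h4 (Ideal.mul_mem_left _ _ h)
        refine Or.inr ⟨h5, h6, ?_⟩
        by_contra h7
        exact hno (hG 𝔭 hm h5 t (a t) (b t) (cls a b 𝔭 t) h6 htab (cls_spec a b 𝔭 hm t h6) h7)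
      have h4 := wtK_or (K := K) (fun 𝔭 => dt ∈ 𝔭) (fun 𝔭 => M ∉ 𝔭 ∧ b t ∉ 𝔭 ∧ cls a b 𝔭 t ∈ Z 𝔭) z
      have h7 := wtK_mem dt hdt0 Y z hY1
      have h8 : wtK K (fun 𝔭 => M ∉ 𝔭 ∧ b t ∉ 𝔭 ∧ cls a b 𝔭 t ∈ Z 𝔭) z ≤
          ∑ 𝔭 ∈ P.filter (fun 𝔭 => t ∈ S 𝔭), Real.log (Ideal.absNorm 𝔭) / Ideal.absNorm 𝔭 := by
        rw [wtK_eq]
        refine Finset.sum_le_sum_of_subset_of_nonneg ?_ ?_
        · intro 𝔭 h𝔭
          have h9 := (Set.Finite.mem_toFinset _).1 h𝔭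
          exact Finset.mem_filter.2 ⟨(hPmem 𝔭).2 ⟨h9.1, h9.2.1, h9.2.2.1⟩,
            Finset.mem_filter.2 ⟨ht, h9.2.2.2⟩⟩
        · intro 𝔭 _ _
          exact div_nonneg (Real.log_natCast_nonneg _) (Nat.cast_nonneg _)
      have hnorm : (Ideal.absNorm (Ideal.span {dt}) : ℝ) ≤ ((C * (z : ℝ) ^ B') * (z : ℝ) ^ B) ^ n := by
        refine (absNorm_le_house dt).trans ?_
        refine pow_le_pow_left₀ (house_nonneg _) ?_ n
        have h9 : ((dt : 𝓞 K) : K) = (M : K) * (b t : K) := by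
          rw [hdt]
          push_cast
          ring
        rw [h9]
        refine (house_mul_le _ _).trans ?_
        exact mul_le_mul hMh hhb (house_nonneg _) (by positivity)
      have hpos : (0 : ℝ) < (Ideal.absNorm (Ideal.span {dt}) : ℝ) := by
        have : Ideal.absNorm (Ideal.span {dt}) ≠ 0 := by
          rw [Ne, Ideal.absNorm_eq_zero_iff, Ideal.span_singleton_eq_bot]
          exact hdt0
        exact_mod_cast Nat.pos_of_ne_zero this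
      have h10 := logB B B' z n hz1 C _ hC1 hpos hnorm
      rw [← hK₁] at h10
      have h11 : Real.log (Ideal.absNorm (Ideal.span {dt})) / Y ≤ K₁ + δ * c / 4 * Real.log z := by
        have h12 : Real.log (Ideal.absNorm (Ideal.span {dt})) / Y ≤
            K₁ / Y + n * (B' + B : ℝ) / Y * Real.log z := by
          rw [div_mul_eq_mul_div, ← add_div]
          exact div_le_div_of_nonneg_right h10 hY0.le
        have h13 : K₁ / Y ≤ K₁ := div_le_self hK₁0 (by exact_mod_cast hY1)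
        have h14 : n * (B' + B : ℝ) / Y * Real.log z ≤ δ * c / 4 * Real.log z :=
          mul_le_mul_of_nonneg_right hYδ (by linarith)
        linarith
      have h15 : K₀ ≤ δ * c / 4 * Real.log z := by
        rw [div_lt_iff₀ hδc] at hl2
        linarith
      have h16 : δ * (c * Real.log z) ≤ δ * L := mul_le_mul_of_nonneg_left hLlog hδ.le
      rw [hK₀] at h15
      linarith) (by
      rw [hL, wtK_eq]
      refine Finset.sum_le_sum_of_subset_of_nonneg ?_ ?_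
      · intro 𝔭 h𝔭
        have h9 := (hPmem 𝔭).1 h𝔭
        exact (Set.Finite.mem_toFinset _).2 ⟨h9.1, h9.2.1, trivial⟩
      · intro 𝔭 _ _
        exact div_nonneg (Real.log_natCast_nonneg _) (Nat.cast_nonneg _))
    (hΘ z P fun 𝔭 h𝔭 => ⟨((hPmem 𝔭).1 h𝔭).1, ((hPmem 𝔭).1 h𝔭).2.1⟩)
  have hlogX : Real.log (2 * X ^ 2) = Real.log 2 + 2 * (B * Real.log z) := by
    rw [Real.log_mul (by norm_num) (by positivity), Real.log_pow, hX, Real.log_pow]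
    norm_num
  have hκ : (δ * L / 2) ^ 2 / (ε * L) = (n + 2 * n * B + Θ) / c * L := by
    rw [hε]
    have : (n : ℝ) + 2 * n * B + Θ ≠ 0 := by positivity
    field_simp
    ring
  rw [hlogX, hκ] at hbound
  have hM0 : (0 : ℝ) < n + 2 * n * B + Θ := by positivity
  have h1 : (n + 2 * n * B + Θ) * Real.log z ≤ (n + 2 * n * B + Θ) / c * L := by
    have h2 : (n + 2 * n * B + Θ) / c * (c * Real.log z) ≤ (n + 2 * n * B + Θ) / c * L :=
      mul_le_mul_of_nonneg_left hLlog (by positivity)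
    have h3 : (n + 2 * n * B + Θ) / c * (c * Real.log z) = (n + 2 * n * B + Θ) * Real.log z := by
      field_simp
    linarith
  have h2 : Θ * 2 ≤ (n + 2 * n * B + Θ) / c * L - n * (Real.log 2 + 2 * (B * Real.log z)) := by
    have h3 : Real.log 2 < 1 := by
      have := Real.log_two_lt_d9
      linarith
    have h4 : (n : ℝ) * Real.log 2 ≤ n * Real.log z :=
      mul_le_mul_of_nonneg_left (by linarith) (Nat.cast_nonneg _)
    have h5 : Θ * 2 ≤ Θ * Real.log z := mul_le_mul_of_nonneg_left hl3.le hΘ0.le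
    nlinarith [h1, h4, h5]
  have h3 : ((T.card : ℝ) * 2) * Θ ≤ (z : ℝ) * Θ := by
    calc ((T.card : ℝ) * 2) * Θ = T.card * (Θ * 2) := by ring
      _ ≤ T.card * ((n + 2 * n * B + Θ) / c * L -
          n * (Real.log 2 + 2 * (B * Real.log z))) := mul_le_mul_of_nonneg_left h2 (Nat.cast_nonneg _)
      _ ≤ Θ * z := hbound
      _ = z * Θ := mul_comm _ _
  have h4 : (T.card : ℝ) * 2 ≤ z := le_of_mul_le_mul_right h3 hΘ0
  have h5 : T.card * 2 ≤ z := by exact_mod_cast h4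
  rw [hfin.encard_eq_coe_toFinset_card, ← hT]
  exact_mod_cast h5

end MPadcPZ
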