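import Pool.Agent.Lib.MP_adc574_ag_PZ.LocB
import Pool.Agent.Lib.MP_adc574_ag_PC.N4
import Pool.Agent.Lib.MP_adc574_ag_PC.N7
import Pool.Agent.Lib.MP_adc574_ag_PC.N8
import Pool.Agent.Lib.MP_adc574_ag_PC.U7

/-!
# The specialisations of a fixed Morse polynomial
-/

set_option autoImplicit false

namespace MPadcPZ

open Polynomial MPadcLF MPadcLZ MPadcPC

/-- The ternary form `F` over the field `E` defines a smooth plane curve which is ordinary. -/
def QP (E : Type) [Field E] (F : MvPolynomial (Fin 3) E) : Prop :=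
  IsSmoothForm F ∧ PlaneIsOrdinary (af E F)

section Top

variable {κ : Type} [Field κ] {d : ℕ}

private theorem tf_map {R R' : Type*} [CommRing R] [CommRing R'] {d : ℕ} (ψ : R →+* R') (a : Ic d → R) :
    (tf a).map ψ = tf fun q => ψ (a q) := by
  unfold tf
  rw [Polynomial.map_add, Polynomial.map_pow, Polynomial.map_X, Polynomial.map_sum]
  congr 1
  refine Finset.sum_congr rfl fun q _ => ?_
  split_ifs with h
  · rw [Polynomial.map_mul, Polynomial.map_C, Polynomial.map_pow, Polynomial.map_X]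
  · exact Polynomial.map_zero _

private theorem ev_hz (a : Ic d → κ) (z : κ) : MvPolynomial.eval ![1, z, 0] (hz d a) = (tf a).eval z := by
  unfold hz tf
  simp only [map_add, map_sum, map_mul, map_pow, MvPolynomial.eval_X, MvPolynomial.eval_C]
  have e0 : (![1, z, 0] : Fin 3 → κ) 0 = 1 := rfl
  have e1 : (![1, z, 0] : Fin 3 → κ) 1 = z := rfl
  have e2 : (![1, z, 0] : Fin 3 → κ) 2 = 0 := rfl
  rw [e0, e1, e2, eval_add, eval_pow, eval_X, eval_finsetSum]
  congr 1
  refine Finset.sum_congr rfl fun q _ => ?_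
  have hq := q.2.1
  by_cases h6 : (q.1.1 : ℕ) + q.1.2 = d
  · rw [if_pos h6, show d - (q.1.1 : ℕ) - (q.1.2 : ℕ) = 0 by omega, pow_zero, mul_one, one_pow, mul_one, eval_mul,
      eval_C, eval_pow, eval_X]
  · rw [if_neg h6, zero_pow (by omega), mul_zero, eval_zero]

private theorem ev_p1 (a : Ic d → κ) (z : κ) :
    MvPolynomial.eval ![1, z, 0] (MvPolynomial.pderiv 1 (hz d a)) = (derivative (tf a)).eval z := by
  unfold hz tf
  rw [map_add, map_add, map_sum, map_sum, derivative_add, derivative_X_pow, derivative_sum, eval_add, eval_mul, eval_C,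
    eval_pow, eval_X, eval_finsetSum]
  have e0 : (![1, z, 0] : Fin 3 → κ) 0 = 1 := rfl
  have e1 : (![1, z, 0] : Fin 3 → κ) 1 = z := rfl
  have e2 : (![1, z, 0] : Fin 3 → κ) 2 = 0 := rfl
  congr 1
  · rw [MvPolynomial.pderiv_pow, MvPolynomial.pderiv_X_self]
    simp only [map_mul, map_pow, MvPolynomial.eval_X, map_natCast, mul_one, e1]
  · refine Finset.sum_congr rfl fun q _ => ?_
    have hq := q.2.1
    have e3 : MvPolynomial.pderiv (1 : Fin 3) (MvPolynomial.C (a q) * MvPolynomial.X 0 ^ (q.1.1 : ℕ) * MvPolynomial.X 1 ^ (q.1.2 : ℕ) *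
        MvPolynomial.X 2 ^ (d - q.1.1 - q.1.2)) = MvPolynomial.C (a q) * MvPolynomial.X 0 ^ (q.1.1 : ℕ) *
        (((q.1.2 : ℕ) : MvPolynomial (Fin 3) κ) * MvPolynomial.X 1 ^ ((q.1.2 : ℕ) - 1)) * MvPolynomial.X 2 ^ (d - (q.1.1 : ℕ) - (q.1.2 : ℕ)) := by
      rw [Derivation.leibniz, Derivation.leibniz, Derivation.leibniz, Derivation.leibniz_pow, Derivation.leibniz_pow, Derivation.leibniz_pow,
        MvPolynomial.pderiv_X_self, MvPolynomial.pderiv_X_of_ne (by decide), MvPolynomial.pderiv_X_of_ne (by decide), MvPolynomial.pderiv_C]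
      simp only [smul_zero, smul_eq_mul, nsmul_eq_mul, mul_zero, mul_one, add_zero, zero_add]
      ring
    rw [e3]
    simp only [map_mul, map_pow, MvPolynomial.eval_X, MvPolynomial.eval_C, map_natCast, e0, e1, e2]
    by_cases h6 : (q.1.1 : ℕ) + q.1.2 = d
    · rw [if_pos h6, show d - (q.1.1 : ℕ) - (q.1.2 : ℕ) = 0 by omega, pow_zero, mul_one, one_pow, mul_one,
        derivative_C_mul_X_pow, eval_mul, eval_C, eval_pow, eval_X, mul_assoc]
    · rw [if_neg h6, zero_pow (by omega), mul_zero, derivative_zero, eval_zero]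

/-- The resultant of the form at infinity. -/
theorem exists_res {A : Type} [CommRing A] {Ω : Type} [Field Ω] [CharZero Ω] [IsAlgClosed Ω] (j : A →+* Ω)
    (hd : 2 ≤ d) (a : Ic d → A) (top : ∀ x y : Ω, ¬ (x = 0 ∧ y = 0) →
      ¬ (MvPolynomial.eval ![x, y, 0] (MvPolynomial.pderiv 0 (hz d fun q => j (a q))) = 0 ∧
        MvPolynomial.eval ![x, y, 0] (MvPolynomial.pderiv 1 (hz d fun q => j (a q))) = 0)) :
    ∃ c : A, c ≠ 0 ∧ Tp 1 d (fT d a) (C c) := by
  have hdeg0 : ∀ q : Ic d, (if (q.1.1 : ℕ) + q.1.2 = d then C (a q) * X ^ (q.1.2 : ℕ) else 0 : A[X]).natDegree ≤ d - 1 := by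
    intro q
    split_ifs with h
    · refine (natDegree_C_mul_X_pow_le _ _).trans ?_
      have h1 := q.2.2.2
      omega
    · rw [natDegree_zero]
      exact Nat.zero_le _
  have hdeg : (tf a).natDegree ≤ d := by
    unfold tf
    refine (natDegree_add_le _ _).trans (max_le (natDegree_X_pow_le d) ?_)
    exact natDegree_sum_le_of_forall_le _ _ fun q _ => (hdeg0 q).trans (Nat.sub_le _ _)
  have hdeg' : (derivative (tf a)).natDegree ≤ d - 1 :=
    (natDegree_derivative_le _).trans (Nat.sub_le_sub_right hdeg 1)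
  obtain ⟨u, v, -, -, huv⟩ := exists_mul_add_mul_eq_C_resultant _ _ hdeg hdeg' (Or.inl (by omega))
  refine ⟨resultant (tf a) (derivative (tf a)) d (d - 1), ?_, u.map C, v.map C, ?_⟩
  · intro h0
    have h1 := resultant_map_map (tf a) (derivative (tf a)) d (d - 1) j
    rw [h0, map_zero, ← derivative_map, tf_map j a] at h1
    obtain ⟨h, hh⟩ : ∃ h : Polynomial Ω, h = tf fun q => j (a q) := ⟨_, rfl⟩
    rw [← hh] at h1
    have hcd : h.coeff d = 1 := by
      rw [hh, ← tf_map, coeff_map]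
      unfold tf
      rw [coeff_add, coeff_X_pow, if_pos rfl, finsetSum_coeff, Finset.sum_eq_zero, add_zero, map_one]
      intro q _
      exact coeff_eq_zero_of_natDegree_lt (lt_of_le_of_lt (hdeg0 q) (by omega))
    have h3 : h.natDegree = d := by
      apply le_antisymm
      · rw [hh, ← tf_map]
        exact natDegree_map_le.trans hdeg
      · exact le_natDegree_of_ne_zero (by rw [hcd]; exact one_ne_zero)
    have h4 : (derivative h).natDegree = d - 1 := by
      rw [natDegree_derivative, h3]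
    have h5 : IsCoprime h (derivative h) := by
      refine (Polynomial.isCoprime_iff_aeval_ne_zero_of_isAlgClosed (k := Ω) Ω _ _).2 fun z => ?_
      by_contra hcon
      push Not at hcon
      obtain ⟨e1, e2⟩ := hcon
      rw [coe_aeval_eq_eval] at e1 e2
      rw [hh, ← ev_hz] at e1
      rw [hh, ← ev_p1] at e2
      refine top 1 z (fun h => one_ne_zero h.1) ⟨?_, e2⟩
      have h6 := congrArg (MvPolynomial.eval ![1, z, 0]) (hz_hom d fun q => j (a q)).sum_X_mul_pderiv
      rw [Fin.sum_univ_three, map_add, map_add, map_mul, map_mul, map_mul, MvPolynomial.eval_X, MvPolynomial.eval_X,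
        MvPolynomial.eval_X, nsmul_eq_mul, map_mul, e1, e2, mul_zero, mul_zero, add_zero] at h6
      have e0 : (![1, z, 0] : Fin 3 → Ω) 0 = 1 := rfl
      have e2' : (![1, z, 0] : Fin 3 → Ω) 2 = 0 := rfl
      rw [e0, e2', zero_mul, add_zero, one_mul] at h6
      exact h6
    have h7 := resultant_ne_zero _ _ h5
    rw [h3, h4] at h7
    exact h7 h1
  · rw [topp_fT (by omega), derivative_map, ← Polynomial.map_mul, ← Polynomial.map_mul, ← Polynomial.map_add,
      mul_comm u, mul_comm v, huv, Polynomial.map_C]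

end Top

theorem qp_smul (E : Type) [Field E] (F : MvPolynomial (Fin 3) E) (u : E) (hu : u ≠ 0) (h : QP E F) :
    QP E (MvPolynomial.C u * F) := by
  refine ⟨(smooth_smul u hu F).2 h.1, ?_⟩
  have h1 : af E (MvPolynomial.C u * F) = C (C u) * af E F := by
    rw [map_mul]
    congr 1
    exact MvPolynomial.aeval_C _ _
  rw [h1]
  exact (plane_smul u hu _).2 h.2

/-- The specialisations of a fixed Morse polynomial. -/
theorem loc_plane {d : ℕ} (hd : 3 ≤ d) : LocP QP d := by
  intro A _ _ _ h2 a hM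
  obtain ⟨Ω, _, _, j, hj, hMj, hcz⟩ : ∃ (Ω : Type) (_ : Field Ω) (_ : IsAlgClosed Ω) (j : A →+* Ω),
      Function.Injective j ∧ MorseOver 2 d (hz d fun q => j (a q)) ∧ CharZero Ω := by
    have hinj : Function.Injective (algebraMap A (AlgebraicClosure (FractionRing A))) := by
      rw [IsScalarTower.algebraMap_eq A (FractionRing A) (AlgebraicClosure (FractionRing A))]
      exact (algebraMap (FractionRing A) (AlgebraicClosure (FractionRing A))).injective.comp
        (IsFractionRing.injective A (FractionRing A))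
    exact ⟨AlgebraicClosure (FractionRing A), inferInstance, inferInstance, _, hinj, hM,
      charZero_of_injective_algebraMap hinj⟩
  obtain ⟨c₁, hc₁, hT⟩ := exists_res j (by omega) a (morse_of _ hMj).top
  obtain ⟨c₀, hc₀, hS⟩ := U4_gen d a
  obtain ⟨𝓕, hOk, hF, hΔ0⟩ := U7_core (by
    obtain ⟨x, hx⟩ := h2.exists_right_inv
    exact ⟨x, hx⟩) (by omega) (wt_fT (by omega) a) hc₀ hc₁ hS hT
  obtain ⟨Φ, hΦ⟩ := unif_morse (m := 3) 2 d
  obtain ⟨M, -, hM0, hMs⟩ := hΦ A (hz d a) (hz_hom d a) Ω j hj (by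
    rw [hz_map]
    exact hMj)
  have hlead : ∀ (k : Type) [Field k] (ψ : A →+* k), ψ (evc (hz d a) M * 𝓕.Δ.leadingCoeff) ≠ 0 →
      𝓕.Δ.map ψ ≠ 0 := by
    intro k _ ψ hψ
    rw [map_mul] at hψ
    exact U7_lead ψ (right_ne_zero_of_mul hψ)
  refine ⟨evc (hz d a) M * 𝓕.Δ.leadingCoeff, mul_ne_zero hM0 (leadingCoeff_ne_zero.2 hΔ0), fun ε hε => ?_⟩
  have hB : 𝓕.Big (evc (hz d a) M * 𝓕.Δ.leadingCoeff) := by
    intro κ _ _ _ ψ hψ
    have hmF : mp (mapRingHom ψ) 𝓕.F = fT d fun q => ψ (a q) := by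
      rw [hF]
      exact fT_map ψ a
    refine U7_big hd hOk ψ (fun q => ψ (a q)) hmF (morse_of _ ?_) (hlead κ ψ hψ)
    rw [map_mul] at hψ
    have h3 := hMs κ ψ (left_ne_zero_of_mul hψ)
    rw [hz_map] at h3
    exact h3
  have hg : 0 < gn 1 d := by
    refine Fintype.card_pos_iff.2 ⟨⟨⟨d - 1, by omega⟩, ⟨0, ?_⟩⟩⟩
    show 0 < 1 * (d - 1) - 1
    omega
  obtain ⟨p₀, hp₀⟩ := count_E 𝓕 hOk hg _ hB hlead ε hε
  refine ⟨p₀, fun p hp hle E _ _ _ ψ hψ => ?_⟩
  refine le_trans ?_ (hp₀ p hp hle E ψ hψ)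
  rw [Nat.cast_le]
  have hat : ∀ τ : E, 𝓕.at ψ τ = ph d (fun q => ψ (a q)) - cc τ := by
    intro τ
    unfold Fam.at
    rw [hF]
    exact fT_at ψ a τ
  refine Nat.card_le_card_of_injective (fun t => ⟨t.1, fun h => t.2 ?_⟩) ?_
  · rw [hat] at h
    obtain ⟨h3, h4, h5⟩ := h
    have h6 := smooth_form (by omega) (fun q => ψ (a q)) t.1 h3 h4
    rw [tern_cf (by omega)] at h6
    refine ⟨?_, ?_⟩
    · have h7 : hz d (fun q => ψ (a q)) - MvPolynomial.C t.1 * MvPolynomial.X 2 ^ d = MvPolynomial.C 1 * MvPolynomial.X 1 ^ d +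
          (∑ q : Ic d, MvPolynomial.C (ψ (a q)) * MvPolynomial.X 0 ^ (q.1.1 : ℕ) * MvPolynomial.X 1 ^ (q.1.2 : ℕ) *
            MvPolynomial.X 2 ^ (d - q.1.1 - q.1.2)) + MvPolynomial.C (-t.1) * MvPolynomial.X 2 ^ d := by
        unfold hz
        rw [MvPolynomial.C_neg, MvPolynomial.C_1]
        ring
      rw [h7]
      exact h6
    · have h7 : af E (hz d (fun q => ψ (a q)) - MvPolynomial.C t.1 * MvPolynomial.X 2 ^ d) =
          ph d (fun q => ψ (a q)) - cc t.1 := by
        rw [map_sub, af_hz, map_mul, map_pow]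
        congr 1
        have h8 : af E (MvPolynomial.C t.1) = cc t.1 := MvPolynomial.aeval_C _ _
        have h9 : af E (MvPolynomial.X 2) = 1 := MvPolynomial.aeval_X _ _
        rw [h8, h9, one_pow, mul_one]
      rw [h7]
      exact h5
  · intro t t' h
    have h1 : t.1 = t'.1 := congrArg (fun s => s.1) h
    exact Subtype.ext h1

/-- The theorem over finite fields: for all Morse polynomials of degree `d`. -/
theorem few_plane {d : ℕ} (hd : 3 ≤ d) : FewM QP 2 d {ex d 0 d} :=
  few_of_loc QP qp_smul (by omega) (loc_plane hd)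

end MPadcPZ
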