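import Pool.Agent.Lib.MP_adc574_ag_PZ.PDefs
import Pool.Agent.Lib.MP_adc574_ag_PZ.LocC
import Pool.Agent.Lib.MP_adc574_ag_PZ.Opn

/-!
# Linear systems of plane curves over number fields
-/

set_option autoImplicit false

namespace MPadcPZ

open MvPolynomial MPadcLZ MPadcPC NumberField MPadcOA

section Morse

variable {κ : Type} [Field κ] {d : ℕ} {G : MvPolynomial (Fin 3) κ}

private theorem pdcF {R : Type*} [CommRing R] {N : ℕ} (P : MvPolynomial (Fin N) R) (a b : Fin N) :
    pderiv a (pderiv b P) = pderiv b (pderiv a P) := by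
  rcases eq_or_ne a b with rfl | h
  · rfl
  · ext e
    rw [coeff_pderiv, coeff_pderiv, coeff_pderiv, coeff_pderiv, Finsupp.add_apply, Finsupp.add_apply,
      Finsupp.single_eq_of_ne h.symm, Finsupp.single_eq_of_ne h, add_right_comm, add_zero, add_zero]
    ring

private theorem pdF (d : ℕ) (i : Fin 3) (hi : i ≠ 2) : pderiv i (X 2 ^ d : MvPolynomial (Fin 3) κ) = 0 := by
  rw [Derivation.leibniz_pow, pderiv_X, Pi.single_eq_of_ne (Ne.symm hi), smul_zero, smul_zero]

private theorem eulerF {d : ℕ} {P : MvPolynomial (Fin 3) κ} (hP : P.IsHomogeneous d) (x : Fin 3 → κ) :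
    x 0 * eval x (pderiv 0 P) + x 1 * eval x (pderiv 1 P) + x 2 * eval x (pderiv 2 P) = d * eval x P := by
  have h := congrArg (eval x) hP.sum_X_mul_pderiv
  rw [Fin.sum_univ_three, map_add, map_add, map_mul, map_mul, map_mul, eval_X, eval_X, eval_X, nsmul_eq_mul, map_mul,
    map_natCast] at h
  exact h

theorem inf_of (h : IsTransversal d G) : InfOver 2 G := by
  intro x hx0 hx
  have hxe : x = ![x 0, x 1, 0] := by
    funext i
    fin_cases i
    · rfl
    · rfl
    · exact hx0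
  have h1 := h.inf (x 0) (x 1) (by rw [← hxe]; exact hx 0 (by decide)) (by rw [← hxe]; exact hx 1 (by decide))
  rw [hxe, h1.1, h1.2]
  funext i
  fin_cases i <;> rfl

private theorem norm_sing [CharZero κ] (hd : 1 ≤ d) (hG : G.IsHomogeneous d) (h : InfOver 2 G) {τ : κ}
    {x : Fin 3 → κ} (hx : IsSing G (X 2 ^ d) τ x) : ∃ p q : κ, x 2 ≠ 0 ∧ (x = fun i => x 2 * ![p, q, 1] i) ∧
      IsCritical G p q ∧ eval ![p, q, 1] G = τ := by
  have hx2 : x 2 ≠ 0 := by
    intro h0
    refine hx.1 (h x h0 fun i hi => ?_)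
    rw [hx.2 i, pdF d i hi, map_zero, mul_zero]
  have hxe : x = fun i => x 2 * ![x 0 / x 2, x 1 / x 2, 1] i := by
    funext i
    fin_cases i
    · exact (mul_div_cancel₀ _ hx2).symm
    · exact (mul_div_cancel₀ _ hx2).symm
    · exact (mul_one _).symm
  have hcr : ∀ i, i ≠ 2 → eval ![x 0 / x 2, x 1 / x 2, 1] (pderiv i G) = 0 := by
    intro i hi
    have h1 := hx.2 i
    rw [pdF d i hi, map_zero, mul_zero, hxe, ev_smul hG.pderiv] at h1
    exact (mul_eq_zero.1 h1).resolve_left (pow_ne_zero _ hx2)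
  refine ⟨x 0 / x 2, x 1 / x 2, hx2, hxe, ⟨hcr 0 (by decide), hcr 1 (by decide)⟩, ?_⟩
  have hdk : (d : κ) ≠ 0 := Nat.cast_ne_zero.2 (by omega)
  have h1 := eulerF hG ![x 0 / x 2, x 1 / x 2, 1]
  rw [hcr 0 (by decide), hcr 1 (by decide), mul_zero, mul_zero, zero_add, zero_add] at h1
  have e2 : (![x 0 / x 2, x 1 / x 2, 1] : Fin 3 → κ) 2 = 1 := rfl
  rw [e2, one_mul] at h1
  have h2 := hx.2 2
  rw [Derivation.leibniz_pow, pderiv_X, Pi.single_eq_same, smul_eq_mul, mul_one, nsmul_eq_mul, map_mul, map_natCast,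
    map_pow, eval_X] at h2
  have h3 : eval x (pderiv 2 G) = x 2 ^ (d - 1) * eval ![x 0 / x 2, x 1 / x 2, 1] (pderiv 2 G) := by
    conv_lhs => rw [hxe]
    exact ev_smul hG.pderiv _ _
  rw [h3, h1] at h2
  have h4 : x 2 ^ (d - 1) * (d : κ) * (eval ![x 0 / x 2, x 1 / x 2, 1] G - τ) = 0 := by
    linear_combination h2
  exact sub_eq_zero.1 ((mul_eq_zero.1 h4).resolve_left (mul_ne_zero (pow_ne_zero _ hx2) hdk))

theorem morse_over_of [CharZero κ] (hd : 1 ≤ d) (hG : G.IsHomogeneous d) (h : IsMorse d G) : MorseOver 2 d G := by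
  have hinf := inf_of h.toIsTransversal
  refine ⟨hinf, fun τ x hx => ?_, fun τ x hx v hv => ?_, fun τ x z hx hz => ?_⟩
  · obtain ⟨-, -, hx2, -⟩ := norm_sing hd hG hinf hx
    rw [map_pow, eval_X]
    exact pow_ne_zero _ hx2
  · obtain ⟨p, q, hx2, hxe, hcr, -⟩ := norm_sing hd hG hinf hx
    obtain ⟨Q, hQ⟩ : ∃ Q : MvPolynomial (Fin 3) κ, Q = G - C τ * X 2 ^ d := ⟨_, rfl⟩
    rw [← hQ] at hv
    have hQh : Q.IsHomogeneous d := by
      rw [hQ]
      refine hG.sub ?_
      have h1 := (isHomogeneous_C (Fin 3) τ).mul (isHomogeneous_X_pow (R := κ) 2 d)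
      rwa [zero_add] at h1
    have hQ0 : ∀ i, eval x (pderiv i Q) = 0 := by
      intro i
      rw [hQ, map_sub, pderiv_C_mul, map_sub, map_mul, eval_C, hx.2 i, sub_self]
    have hQG : ∀ a b, b ≠ 2 → eval x (pderiv a (pderiv b Q)) = x 2 ^ (d - 1 - 1) * eval ![p, q, 1] (pderiv a (pderiv b G)) := by
      intro a b hb
      have h1 : pderiv b Q = pderiv b G := by
        rw [hQ, map_sub, pderiv_C_mul, pdF d b hb, mul_zero, sub_zero]
      rw [h1]
      conv_lhs => rw [hxe]
      exact ev_smul hG.pderiv.pderiv _ _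
    have hE : ∀ a, x 0 * eval x (pderiv a (pderiv 0 Q)) + x 1 * eval x (pderiv a (pderiv 1 Q)) +
        x 2 * eval x (pderiv a (pderiv 2 Q)) = 0 := by
      intro a
      have h1 := eulerF (hQh.pderiv (i := a)) x
      rw [hQ0 a, mul_zero, pdcF Q 0 a, pdcF Q 1 a, pdcF Q 2 a] at h1
      exact h1
    have hK : ∀ a, eval x (pderiv a (pderiv 0 Q)) * (v 0 - v 2 / x 2 * x 0) +
        eval x (pderiv a (pderiv 1 Q)) * (v 1 - v 2 / x 2 * x 1) = 0 := by
      intro a
      have h1 := hv a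
      rw [Fin.sum_univ_three] at h1
      have h2 := hE a
      have h3 : v 2 / x 2 * x 2 = v 2 := div_mul_cancel₀ _ hx2
      linear_combination h1 - v 2 / x 2 * h2 + eval x (pderiv a (pderiv 2 Q)) * h3
    have h0 := hK 0
    have h1 := hK 1
    rw [hQG 0 0 (by decide), hQG 0 1 (by decide)] at h0
    rw [hQG 1 0 (by decide), hQG 1 1 (by decide), pdcF G 1 0] at h1
    have hpow : x 2 ^ (d - 1 - 1) ≠ 0 := pow_ne_zero _ hx2
    have hh := h.hess p q hcr
    obtain ⟨w0, hw0⟩ : ∃ w0, w0 = v 0 - v 2 / x 2 * x 0 := ⟨_, rfl⟩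
    obtain ⟨w1, hw1⟩ : ∃ w1, w1 = v 1 - v 2 / x 2 * x 1 := ⟨_, rfl⟩
    obtain ⟨A, hA⟩ : ∃ A, A = eval ![p, q, 1] (pderiv 0 (pderiv 0 G)) := ⟨_, rfl⟩
    obtain ⟨B, hB⟩ : ∃ B, B = eval ![p, q, 1] (pderiv 0 (pderiv 1 G)) := ⟨_, rfl⟩
    obtain ⟨D, hD⟩ : ∃ D, D = eval ![p, q, 1] (pderiv 1 (pderiv 1 G)) := ⟨_, rfl⟩
    rw [← hA, ← hB, ← hD] at hh
    rw [← hA, ← hB, ← hw0, ← hw1] at h0
    rw [← hB, ← hD, ← hw0, ← hw1] at h1
    have h0' : A * w0 + B * w1 = 0 := by
      have h2 : x 2 ^ (d - 1 - 1) * (A * w0 + B * w1) = 0 := by linear_combination h0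
      exact (mul_eq_zero.1 h2).resolve_left hpow
    have h1' : B * w0 + D * w1 = 0 := by
      have h2 : x 2 ^ (d - 1 - 1) * (B * w0 + D * w1) = 0 := by linear_combination h1
      exact (mul_eq_zero.1 h2).resolve_left hpow
    have hz0 : w0 = 0 := by
      have h2 : (A * D - B ^ 2) * w0 = 0 := by linear_combination D * h0' - B * h1'
      exact (mul_eq_zero.1 h2).resolve_left hh
    have hz1 : w1 = 0 := by
      have h2 : (A * D - B ^ 2) * w1 = 0 := by linear_combination A * h1' - B * h0'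
      exact (mul_eq_zero.1 h2).resolve_left hh
    refine ⟨v 2 / x 2, funext fun i => ?_⟩
    fin_cases i
    · exact sub_eq_zero.1 (hw0.symm.trans hz0)
    · exact sub_eq_zero.1 (hw1.symm.trans hz1)
    · exact (div_mul_cancel₀ _ hx2).symm
  · obtain ⟨p, q, hx2, hxe, hcr, hval⟩ := norm_sing hd hG hinf hx
    obtain ⟨p', q', hz2, hze, hcr', hval'⟩ := norm_sing hd hG hinf hz
    obtain ⟨hp, hq⟩ := h.val p q p' q' hcr hcr' (hval.trans hval'.symm)
    refine ⟨z 2 / x 2, funext fun i => ?_⟩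
    have h1 := congrFun hxe i
    have h2 := congrFun hze i
    rw [h2, ← hp, ← hq]
    show z 2 * ![p, q, 1] i = z 2 / x 2 * x i
    rw [h1]
    show z 2 * ![p, q, 1] i = z 2 / x 2 * (x 2 * ![p, q, 1] i)
    rw [← mul_assoc, div_mul_cancel₀ _ hx2]

end Morse

theorem ex_y (d : ℕ) : ex d 0 d = Finsupp.single 1 d := by
  unfold ex
  rw [Finsupp.single_zero, zero_add, Nat.sub_zero, Nat.sub_self, Finsupp.single_zero, add_zero]

section Sys

variable {K : Type} [Field K] [NumberField K] {d : ℕ} {F : MvPolynomial (Fin 3) (𝓞 K)} {S : Finset (Fin 3 →₀ ℕ)}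

private theorem gen_spec (c : S → AlgebraicClosure K) :
    (gen F S).map (eval₂Hom (algebraMap (𝓞 K) (AlgebraicClosure K)) c) =
      member (F.map (algebraMap (𝓞 K) (AlgebraicClosure K))) S c := by
  unfold gen mb member
  rw [map_add, MvPolynomial.map_map, map_sum]
  have h1 : (eval₂Hom (algebraMap (𝓞 K) (AlgebraicClosure K)) c).comp C = algebraMap (𝓞 K) (AlgebraicClosure K) :=
    RingHom.ext fun r => eval₂_C _ _ _
  rw [h1]
  congr 1
  refine Finset.sum_congr rfl fun e _ => ?_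
  rw [map_monomial]
  congr 1
  exact eval₂_X _ _ _

/-- The generic member of a Morse system is Morse. -/
theorem generic_of_system (hd : 2 ≤ d) (h : IsMorseSystem d F S) : GenericMorse 2 d F S := by
  have hcz : CharZero (AlgebraicClosure K) := charZero_of_injective_algebraMap (algebraMap K _).injective
  obtain ⟨c, hc | ⟨hc, h1, h2⟩⟩ := h.good
  · rw [generic_iff]
    have hcM := morse_over_of (by omega) (by
      rw [← gen_spec c]
      exact (gen_hom F S h.hom h.deg).map _) hc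
    refine morse_of_special (by omega) (gen_hom F S h.hom h.deg)
      (eval₂Hom (algebraMap (𝓞 K) (AlgebraicClosure K)) c) ?_ (jA (𝓞 K) S) (jA_inj S)
    rw [gen_spec]
    exact hcM
  · have hGj : (gen F S).map (jA (𝓞 K) S) = ((gen F S).map (algebraMap (MvPolynomial S (𝓞 K))
        (FractionRing (MvPolynomial S (𝓞 K))))).map (algebraMap (FractionRing (MvPolynomial S (𝓞 K)))
          (AlgebraicClosure (FractionRing (MvPolynomial S (𝓞 K))))) := by
      rw [MvPolynomial.map_map]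
      rfl
    rw [generic_iff, hGj]
    refine gen_morse _ hd h.hom h.deg ?_ ?_
    · intro l hl
      fin_cases l
      · exact h1
      · exact h2
      · exact absurd rfl hl
    · rw [← hGj]
      refine inf_of_special (gen_hom F S h.hom h.deg) (eval₂Hom (algebraMap (𝓞 K) (AlgebraicClosure K)) c) ?_
        (jA (𝓞 K) S) (jA_inj S)
      rw [gen_spec]
      exact inf_of hc

theorem monic_of_system (h : IsMorseSystem d F S) : coeff (Finsupp.single 1 d) F ≠ 0 ∨ Finsupp.single 1 d ∈ S := by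
  obtain ⟨c, hc⟩ := h.good
  have h1 : coeff (Finsupp.single 1 d) (member (F.map (algebraMap (𝓞 K) (AlgebraicClosure K))) S c) ≠ 0 := by
    rcases hc with hc | ⟨hc, -⟩
    · exact hc.monic
    · exact hc.monic
  by_contra hcon
  push Not at hcon
  obtain ⟨h2, h3⟩ := hcon
  apply h1
  have h4 := coeff_mb (F.map (algebraMap (𝓞 K) (AlgebraicClosure K))) S c (Finsupp.single 1 d)
  rw [dif_neg h3, add_zero, coeff_map, h2, map_zero] at h4
  exact h4

end Sys

/-- Almost all members of a linear system of plane curves over a number field have ordinary reduction at almost all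
primes. -/
theorem plane_systems {d : ℕ} (hd : 3 ≤ d) (K : Type) [Field K] [NumberField K] (δ : ℝ) (hδ : 0 < δ) (B : ℕ) :
    ∃ z₀ : ℕ, ∀ z : ℕ, z₀ ≤ z → ∀ (F : MvPolynomial (Fin 3) (𝓞 K)) (S : Finset (Fin 3 →₀ ℕ)), IsMorseSystem d F S →
      (∀ e, house ((coeff e F : 𝓞 K) : K) ≤ (z : ℝ) ^ B) →
      ∀ T : Finset (𝓞 K), (∀ t ∈ T, house (t : K) ≤ (z : ℝ) ^ B) →
        {c : S → 𝓞 K | (∀ e, c e ∈ T) ∧
          wtK K (OrdinaryReductionAt (member F S c)) z < (1 - δ) * wtK K (fun _ => True) z}.ncard ≤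
            z * T.card ^ (S.card - 1) := by
  obtain ⟨z₀, hz₀⟩ := almost_all QP 2 d {ex d 0 d} (by
    intro e he
    rw [Finset.mem_singleton.1 he, ex_y, Finsupp.degree_single]) (by
    intro he
    have h1 := Finset.mem_singleton.1 he
    rw [ex_y] at h1
    have h2 := congrArg (fun f => f 1) h1
    simp only [Finsupp.single_eq_same, Finsupp.single_eq_of_ne (show (1 : Fin 3) ≠ 2 by decide)] at h2
    omega) (few_plane hd) K δ hδ B
  refine ⟨z₀, fun z hz F S hS hF T hT => ?_⟩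
  exact hz₀ z hz F S hS.hom hS.deg hS.pencil (generic_of_system (by omega) hS) (fun e he => by
    rw [Finset.mem_singleton.1 he, ex_y]
    exact monic_of_system hS) hF T hT

end MPadcPZ
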