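import Pool.Agent.Lib.MP_adc574_ag_BK.BKDefs
import Pool.Agent.Lib.MP_adc574_ag_OA.CDefs

/-!
# Linear systems of hypersurfaces over number fields: definitions

A hypersurface of degree `d` is given by a homogeneous polynomial `G` of degree `d` in the variables `X i`, `i : Fin m`.
The variable `X i₀` is distinguished: the hyperplane at infinity is `X i₀ = 0`.
-/

set_option autoImplicit false

namespace MPadcPZ.Hyper

open MvPolynomial NumberField MPadcBK

/-- The member with the parameters `c` of the linear system which consists of the `F + ∑ c_e x ^ e`, `e ∈ S`. -/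
noncomputable def member {A : Type} [CommRing A] {m : ℕ} (F : MvPolynomial (Fin m) A) (S : Finset (Fin m →₀ ℕ))
    (c : S → A) : MvPolynomial (Fin m) A :=
  F + ∑ e : S, monomial (e : Fin m →₀ ℕ) (c e)

/-- `x` is a critical point of the restriction of `G` to the affine space `X i₀ = 1`. -/
def IsCritical {κ : Type} [Field κ] {m : ℕ} (i₀ : Fin m) (G : MvPolynomial (Fin m) κ) (x : Fin m → κ) : Prop :=
  x i₀ = 1 ∧ ∀ i, i ≠ i₀ → eval x (pderiv i G) = 0

/-- The section of the hypersurface `G = 0` over the algebraically closed field `κ` with the hyperplane `X i₀ = 0` is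
smooth. -/
def IsTransversal {κ : Type} [Field κ] {m : ℕ} (i₀ : Fin m) (G : MvPolynomial (Fin m) κ) : Prop :=
  ∀ x : Fin m → κ, x i₀ = 0 → (∀ i, i ≠ i₀ → eval x (pderiv i G) = 0) → x = 0

/-- Moreover the restriction of `G` to the affine space `X i₀ = 1` is a Morse function: its critical points are
nondegenerate and have different critical values. -/
structure IsMorse {κ : Type} [Field κ] {m : ℕ} (i₀ : Fin m) (G : MvPolynomial (Fin m) κ) : Prop where
  /-- the section at infinity is smooth -/
  inf : IsTransversal i₀ G
  /-- the Hessian is not degenerate at the critical points -/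
  hess : ∀ x, IsCritical i₀ G x → ∀ v : Fin m → κ, v i₀ = 0 →
    (∀ a, a ≠ i₀ → ∑ b, eval x (pderiv a (pderiv b G)) * v b = 0) → v = 0
  /-- different critical points have different critical values -/
  val : ∀ x y, IsCritical i₀ G x → IsCritical i₀ G y → eval x G = eval y G → x = y

/-- The linear system of the forms `F + ∑ c_e x ^ e`, `e ∈ S`, of degree `d` over the ring of integers of the number field
`K` contains with a form `G` all `G + c (X i₀) ^ d`, and one of its members over the algebraic closure is a Morse function;
or it contains with a form `G` all `G + L (X i₀) ^ (d - 1)`, `L` a linear form, and the section at infinity of one of its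
members is smooth. -/
structure IsMorseSystem {K : Type} [Field K] [NumberField K] {m : ℕ} (i₀ : Fin m) (d : ℕ)
    (F : MvPolynomial (Fin m) (𝓞 K)) (S : Finset (Fin m →₀ ℕ)) : Prop where
  /-- `F` has degree `d` -/
  hom : F.IsHomogeneous d
  /-- the monomials in `S` have degree `d` -/
  deg : ∀ e ∈ S, e.degree = d
  /-- the coefficient of `X i₀ ^ d` varies -/
  pencil : Finsupp.single i₀ d ∈ S
  /-- there is a good member -/
  good : ∃ c : S → AlgebraicClosure K,
    IsMorse i₀ (member (F.map (algebraMap (𝓞 K) (AlgebraicClosure K))) S c) ∨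
      (IsTransversal i₀ (member (F.map (algebraMap (𝓞 K) (AlgebraicClosure K))) S c) ∧
        ∀ l, l ≠ i₀ → Finsupp.single i₀ (d - 1) + Finsupp.single l 1 ∈ S)

/-- The hypersurface `G = 0` over the ring of integers of the number field `K` has good reduction at the maximal ideal `𝔭`
as a hypersurface, which is ordinary in the sense of Bloch and Kato. -/
def OrdinaryReductionAt {K : Type} [Field K] [NumberField K] {m : ℕ} (G : MvPolynomial (Fin m) (𝓞 K))
    (𝔭 : Ideal (𝓞 K)) : Prop :=
  ∃ (E : Type) (_ : Field E) (φ : 𝓞 K →+* E), Function.Surjective φ ∧ RingHom.ker φ = 𝔭 ∧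
    Smooth (G.map φ) ∧ IsBlochKatoOrdinary (G.map φ)

end MPadcPZ.Hyper
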