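import Pool.Agent.Lib.MP_adc574_ag_PZ.Noe
import Pool.Agent.Lib.MP_adc574_ag_PZ.AMain
import Pool.Agent.Lib.MP_adc574_ag_PC.UD

/-!
# Ternary forms and polynomials in two variables
-/

set_option autoImplicit false

namespace MPadcPZ

open MvPolynomial MPadcLZ MPadcPC

/-- The exponent of `x ^ i y ^ j z ^ (d - i - j)`. -/
noncomputable def ex (d i j : ℕ) : Fin 3 →₀ ℕ := Finsupp.single 0 i + Finsupp.single 1 j + Finsupp.single 2 (d - i - j)

theorem ex_zero (d i j : ℕ) : ex d i j 0 = i := by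
  simp [ex]

theorem ex_one (d i j : ℕ) : ex d i j 1 = j := by
  simp [ex]

theorem ex_two (d i j : ℕ) : ex d i j 2 = d - i - j := by
  simp [ex]

theorem term_eq {A : Type*} [CommRing A] (d i j : ℕ) (c : A) :
    (C c * X 0 ^ i * X 1 ^ j * X 2 ^ (d - i - j) : MvPolynomial (Fin 3) A) = monomial (ex d i j) c := by
  rw [C_mul_X_pow_eq_monomial, X_pow_eq_monomial, X_pow_eq_monomial, monomial_mul, monomial_mul, mul_one, mul_one]
  rfl

theorem eq_ex {d : ℕ} (e : Fin 3 →₀ ℕ) (he : e.degree = d) : e = ex d (e 0) (e 1) := by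
  rw [Finsupp.degree_eq_sum, Fin.sum_univ_three] at he
  ext i
  fin_cases i
  · exact (ex_zero _ _ _).symm
  · exact (ex_one _ _ _).symm
  · show e 2 = ex d (e 0) (e 1) 2
    rw [ex_two]
    omega

/-- The terms of a ternary form. -/
theorem form_eq {A : Type*} [CommRing A] {d : ℕ} (hd : 1 ≤ d) (G : MvPolynomial (Fin 3) A) (hG : G.IsHomogeneous d) :
    G = C (coeff (ex d 0 d) G) * X 1 ^ d + C (coeff (ex d 0 0) G) * X 2 ^ d +
      ∑ q : Ic d, C (coeff (ex d q.1.1 q.1.2) G) * X 0 ^ (q.1.1 : ℕ) * X 1 ^ (q.1.2 : ℕ) * X 2 ^ (d - q.1.1 - q.1.2) := by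
  classical
  have h1 : (C (coeff (ex d 0 d) G) * X 1 ^ d : MvPolynomial (Fin 3) A) = monomial (ex d 0 d) (coeff (ex d 0 d) G) := by
    rw [← term_eq, pow_zero, mul_one, Nat.sub_zero, Nat.sub_self, pow_zero, mul_one]
  have h2 : (C (coeff (ex d 0 0) G) * X 2 ^ d : MvPolynomial (Fin 3) A) = monomial (ex d 0 0) (coeff (ex d 0 0) G) := by
    rw [← term_eq, pow_zero, mul_one, pow_zero, mul_one, Nat.sub_zero, Nat.sub_zero]
  rw [h1, h2]
  ext e
  rw [coeff_add, coeff_add, coeff_sum]
  simp only [term_eq, coeff_monomial]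
  by_cases he : e.degree = d
  · have hex := eq_ex e he
    have hle : e 0 + e 1 ≤ d := by
      rw [Finsupp.degree_eq_sum, Fin.sum_univ_three] at he
      omega
    by_cases ha : e 0 = 0 ∧ e 1 = d
    · have hee : ex d 0 d = e := by rw [hex, ha.1, ha.2]
      have hne : ex d 0 0 ≠ e := by
        intro h
        have h3 := congrArg (fun f => f 1) h
        simp only [ex_one] at h3
        omega
      rw [if_pos hee, if_neg hne, Finset.sum_eq_zero, add_zero, add_zero, hee]
      intro q _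
      rw [if_neg]
      intro h
      apply q.2.2.2
      have h3 := congrArg (fun f => f 0) h
      have h4 := congrArg (fun f => f 1) h
      simp only [ex_zero, ex_one] at h3 h4
      exact ⟨by rw [h3, ha.1], by rw [h4, ha.2]⟩
    · by_cases hb : e 0 = 0 ∧ e 1 = 0
      · have hee : ex d 0 0 = e := by rw [hex, hb.1, hb.2]
        have hne : ex d 0 d ≠ e := by
          intro h
          have h3 := congrArg (fun f => f 1) h
          simp only [ex_one] at h3
          omega
        rw [if_neg hne, if_pos hee, Finset.sum_eq_zero, add_zero, zero_add, hee]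
        intro q _
        rw [if_neg]
        intro h
        apply q.2.2.1
        have h3 := congrArg (fun f => f 0) h
        have h4 := congrArg (fun f => f 1) h
        simp only [ex_zero, ex_one] at h3 h4
        exact ⟨by rw [h3, hb.1], by rw [h4, hb.2]⟩
      · have hne1 : ex d 0 d ≠ e := by
          intro h
          have h3 := congrArg (fun f => f 0) h
          have h4 := congrArg (fun f => f 1) h
          simp only [ex_zero, ex_one] at h3 h4
          exact ha ⟨h3.symm, h4.symm⟩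
        have hne2 : ex d 0 0 ≠ e := by
          intro h
          have h3 := congrArg (fun f => f 0) h
          have h4 := congrArg (fun f => f 1) h
          simp only [ex_zero, ex_one] at h3 h4
          exact hb ⟨h3.symm, h4.symm⟩
        rw [if_neg hne1, if_neg hne2, zero_add, zero_add]
        rw [Finset.sum_eq_single (⟨(⟨e 0, by omega⟩, ⟨e 1, by omega⟩), hle, hb, ha⟩ : Ic d)]
        · rw [if_pos hex.symm]
          exact congrArg (fun f => coeff f G) hex
        · intro q _ hne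
          rw [if_neg]
          intro h
          apply hne
          have h3 := congrArg (fun f => f 0) h
          have h4 := congrArg (fun f => f 1) h
          simp only [ex_zero, ex_one] at h3 h4
          apply Subtype.ext
          apply Prod.ext
          · exact Fin.ext h3
          · exact Fin.ext h4
        · intro h
          exact absurd (Finset.mem_univ _) h
  · have hdeg : ∀ i j, i + j ≤ d → (ex d i j).degree = d := by
      intro i j hij
      rw [Finsupp.degree_eq_sum, Fin.sum_univ_three, ex_zero, ex_one, ex_two]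
      omega
    have hne : ∀ i j, i + j ≤ d → ex d i j ≠ e := fun i j hij h => he (by rw [← h]; exact hdeg i j hij)
    rw [if_neg (hne 0 d (by omega)), if_neg (hne 0 0 (by omega)), Finset.sum_eq_zero, add_zero, add_zero]
    · exact hG.coeff_eq_zero he
    · intro q _
      rw [if_neg (hne _ _ q.2.1)]

section Conv

variable {κ : Type} [Field κ]

/-- The normalized coefficients. -/
noncomputable def nc (d : ℕ) (u : κ) (G : MvPolynomial (Fin 3) κ) (q : Ic d) : κ :=
  coeff (ex d q.1.1 q.1.2) G * u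

theorem form_nc {d : ℕ} (hd : 1 ≤ d) (G : MvPolynomial (Fin 3) κ) (hG : G.IsHomogeneous d)
    (hu : coeff (ex d 0 d) G ≠ 0) :
    G = C (coeff (ex d 0 d) G) * (hz d (nc d (coeff (ex d 0 d) G)⁻¹ G) +
      C (coeff (ex d 0 0) G * (coeff (ex d 0 d) G)⁻¹) * X 2 ^ d) := by
  obtain ⟨u, hu'⟩ : ∃ u, u = coeff (ex d 0 d) G := ⟨_, rfl⟩
  rw [← hu'] at hu ⊢
  have h1 : ∀ (c : κ) (P : MvPolynomial (Fin 3) κ), C u * (C (c * u⁻¹) * P) = C c * P := by
    intro c P
    rw [← mul_assoc, ← C_mul]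
    congr 2
    field_simp
  conv_lhs => rw [form_eq hd G hG]
  unfold hz nc
  rw [mul_add, mul_add, h1, Finset.mul_sum, ← hu']
  have h2 : (∑ q : Ic d, C u * (C (coeff (ex d q.1.1 q.1.2) G * u⁻¹) * X 0 ^ (q.1.1 : ℕ) * X 1 ^ (q.1.2 : ℕ) *
      X 2 ^ (d - q.1.1 - q.1.2)) : MvPolynomial (Fin 3) κ) = ∑ q : Ic d, C (coeff (ex d q.1.1 q.1.2) G) * X 0 ^ (q.1.1 : ℕ) * X 1 ^ (q.1.2 : ℕ) *
      X 2 ^ (d - q.1.1 - q.1.2) := by
    refine Finset.sum_congr rfl fun q _ => ?_
    rw [mul_assoc (C (coeff (ex d q.1.1 q.1.2) G * u⁻¹)), mul_assoc (C (coeff (ex d q.1.1 q.1.2) G * u⁻¹)), h1]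
    ring
  rw [h2]
  ring

/-- Scaling of the pencil. -/
theorem morse_scale {m : ℕ} {i₀ : Fin m} {d : ℕ} {G : MvPolynomial (Fin m) κ} {u : κ} (hu : u ≠ 0)
    (h : MorseOver i₀ d (C u * G)) : MorseOver i₀ d G := by
  have hs : ∀ τ x, IsSing G (X i₀ ^ d) τ x → IsSing (C u * G) (X i₀ ^ d) (u * τ) x := by
    rintro τ x ⟨h1, h2⟩
    refine ⟨h1, fun i => ?_⟩
    rw [pderiv_C_mul, map_mul, eval_C, h2 i, mul_assoc]
  refine ⟨fun x hx0 hx => h.inf x hx0 fun i hi => ?_, ?_, ?_, ?_⟩
  · rw [pderiv_C_mul, map_mul, hx i hi, mul_zero]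
  · intro τ x hx
    exact h.lef.base _ x (hs τ x hx)
  · intro τ x hx v hv
    refine h.lef.node _ x (hs τ x hx) v fun a => ?_
    have h1 : C u * G - C (u * τ) * X i₀ ^ d = C u * (G - C τ * X i₀ ^ d) := by
      rw [C_mul]
      ring
    have h2 : ∀ b, eval x (pderiv a (pderiv b (C u * G - C (u * τ) * X i₀ ^ d))) * v b =
        u * (eval x (pderiv a (pderiv b (G - C τ * X i₀ ^ d))) * v b) := by
      intro b
      rw [h1, pderiv_C_mul, pderiv_C_mul, map_mul, eval_C, mul_assoc]
    simp only [h2]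
    rw [← Finset.mul_sum, hv a, mul_zero]
  · intro τ x y hx hy
    exact h.lef.uniq _ x y (hs τ x hx) (hs τ y hy)

theorem hz_hom {R : Type*} [CommRing R] (d : ℕ) (a : Ic d → R) : (hz d a).IsHomogeneous d := by
  unfold hz
  refine (isHomogeneous_X_pow 1 d).add (IsHomogeneous.sum _ _ _ fun q _ => ?_)
  rw [term_eq]
  refine isHomogeneous_monomial _ ?_
  have h1 := q.2.1
  rw [Finsupp.degree_eq_sum, Fin.sum_univ_three, ex_zero, ex_one, ex_two]
  omega

private theorem pdc {R : Type*} [CommRing R] {N : ℕ} (P : MvPolynomial (Fin N) R) (a b : Fin N) :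
    pderiv a (pderiv b P) = pderiv b (pderiv a P) := by
  have h := Derivation.congr_fun (show ⁅pderiv a, pderiv b⁆ = (0 : Derivation R (MvPolynomial (Fin N) R) _) from by
    apply MvPolynomial.derivation_ext
    intro i
    rw [Derivation.commutator_apply, pderiv_X, pderiv_X]
    by_cases hb : b = i
    · subst hb
      by_cases ha : a = b
      · subst ha
        rw [sub_self]
        rfl
      · rw [Pi.single_eq_same, pderiv_one, Pi.single_eq_of_ne (Ne.symm ha), map_zero, sub_zero]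
        rfl
    · rw [Pi.single_eq_of_ne (Ne.symm hb), map_zero]
      by_cases ha : a = i
      · subst ha
        rw [Pi.single_eq_same, pderiv_one, sub_zero]
        rfl
      · rw [Pi.single_eq_of_ne (Ne.symm ha), map_zero, sub_zero]
        rfl) P
  rw [Derivation.commutator_apply] at h
  exact sub_eq_zero.1 h

private theorem pd2 (d : ℕ) (i : Fin 3) (hi : i ≠ 2) : pderiv i (X 2 ^ d : MvPolynomial (Fin 3) κ) = 0 := by
  rw [Derivation.leibniz_pow, pderiv_X, Pi.single_eq_of_ne (Ne.symm hi), smul_zero, smul_zero]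

private theorem euler {d : ℕ} {P : MvPolynomial (Fin 3) κ} (hP : P.IsHomogeneous d) (x : Fin 3 → κ) :
    x 0 * eval x (pderiv 0 P) + x 1 * eval x (pderiv 1 P) + x 2 * eval x (pderiv 2 P) = d * eval x P := by
  have h := congrArg (eval x) hP.sum_X_mul_pderiv
  rw [Fin.sum_univ_three, map_add, map_add, map_mul, map_mul, map_mul, eval_X, eval_X, eval_X, nsmul_eq_mul, map_mul,
    map_natCast] at h
  exact h

private theorem sing_of_crit {d : ℕ} (a : Ic d → κ) {x y : κ} (h : IsCrit a x y) :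
    IsSing (hz d a) (X 2 ^ d) (vh (hz d a) x y) ![x, y, 1] := by
  obtain ⟨h0, h1⟩ := h
  have h0' : eval ![x, y, 1] (pderiv 0 (hz d a)) = 0 := h0
  have h1' : eval ![x, y, 1] (pderiv 1 (hz d a)) = 0 := h1
  refine ⟨fun h => one_ne_zero (congrFun h 2), fun i => ?_⟩
  have h2 := euler (hz_hom d a) ![x, y, 1]
  rw [h0', h1', mul_zero, mul_zero, zero_add, zero_add] at h2
  have h3 : (![x, y, 1] : Fin 3 → κ) 2 = 1 := rfl
  rw [h3, one_mul] at h2
  fin_cases i
  · show eval ![x, y, 1] (pderiv 0 (hz d a)) = vh (hz d a) x y * eval ![x, y, 1] (pderiv 0 (X 2 ^ d))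
    rw [h0', pd2 d 0 (by decide), map_zero, mul_zero]
  · show eval ![x, y, 1] (pderiv 1 (hz d a)) = vh (hz d a) x y * eval ![x, y, 1] (pderiv 1 (X 2 ^ d))
    rw [h1', pd2 d 1 (by decide), map_zero, mul_zero]
  · show eval ![x, y, 1] (pderiv 2 (hz d a)) = vh (hz d a) x y * eval ![x, y, 1] (pderiv 2 (X 2 ^ d))
    rw [h2, Derivation.leibniz_pow, pderiv_X, Pi.single_eq_same, smul_eq_mul, mul_one, nsmul_eq_mul, map_mul,
      map_natCast, map_pow, eval_X, h3, one_pow, mul_one, mul_comm]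
    rfl

/-- The affine form of the definition of a Morse pencil. -/
theorem morse_of {d : ℕ} (a : Ic d → κ) (h : MorseOver 2 d (hz d a)) : Morse a := by
  refine ⟨fun x y hxy hcon => hxy ?_, fun x y hc hh => ?_, fun x y x' y' hc hc' hv => ?_⟩
  · have h1 := h.inf ![x, y, 0] rfl fun i hi => by
      fin_cases i
      · exact hcon.1
      · exact hcon.2
      · exact absurd rfl hi
    exact ⟨congrFun h1 0, congrFun h1 1⟩
  · obtain ⟨pt, hpt⟩ : ∃ pt : Fin 3 → κ, pt = ![x, y, 1] := ⟨_, rfl⟩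
    have hp0 : pt 0 = x := by rw [hpt]; rfl
    have hp1 : pt 1 = y := by rw [hpt]; rfl
    have hp2 : pt 2 = 1 := by rw [hpt]; rfl
    have hs := sing_of_crit a hc
    obtain ⟨τ, hτ⟩ : ∃ τ, τ = vh (hz d a) x y := ⟨_, rfl⟩
    rw [← hτ, ← hpt] at hs
    obtain ⟨f, hf⟩ : ∃ f : Fin 3 → Fin 3 → κ, ∀ i j, f i j = eval pt (pderiv i (pderiv j (hz d a - C τ * X 2 ^ d))) :=
      ⟨_, fun _ _ => rfl⟩
    have hfa : ∀ i j, j ≠ 2 → f i j = eval pt (pderiv i (pderiv j (hz d a))) := by
      intro i j hj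
      rw [hf, map_sub, pderiv_C_mul, pd2 d j hj, mul_zero, sub_zero]
    have hsym : ∀ i j, f i j = f j i := fun i j => by rw [hf, hf, pdc]
    have hQ : ∀ j, eval pt (pderiv j (hz d a - C τ * X 2 ^ d)) = 0 := by
      intro j
      rw [map_sub, pderiv_C_mul, map_sub, map_mul, eval_C, hs.2 j, sub_self]
    have hQh : (hz d a - C τ * X 2 ^ d).IsHomogeneous d := by
      refine (hz_hom d a).sub ?_
      have h1 := (isHomogeneous_C (Fin 3) τ).mul (isHomogeneous_X_pow (R := κ) (2 : Fin 3) d)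
      rwa [zero_add] at h1
    have hE : ∀ j, x * f 0 j + y * f 1 j + f 2 j = 0 := by
      intro j
      have h1 := euler (hQh.pderiv (i := j)) pt
      rw [hQ j, mul_zero, hp0, hp1, hp2, one_mul, ← hf, ← hf, ← hf] at h1
      exact h1
    have hess0 : f 0 0 * f 1 1 - f 0 1 ^ 2 = 0 := by
      rw [hfa 0 0 (by decide), hfa 1 1 (by decide), hfa 0 1 (by decide), hpt]
      exact hh
    obtain ⟨v0, v1, hv0, hv1, hne⟩ : ∃ v0 v1 : κ, f 0 0 * v0 + f 0 1 * v1 = 0 ∧ f 0 1 * v0 + f 1 1 * v1 = 0 ∧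
        ¬ (v0 = 0 ∧ v1 = 0) := by
      by_cases h1 : f 0 0 = 0 ∧ f 0 1 = 0
      · exact ⟨1, 0, by rw [h1.1]; ring, by rw [h1.2]; ring, fun h2 => one_ne_zero h2.1⟩
      · refine ⟨- f 0 1, f 0 0, by ring, by linear_combination hess0, fun h2 => h1 ⟨h2.2, neg_eq_zero.1 h2.1⟩⟩
    obtain ⟨c, hc'⟩ := h.lef.node τ pt hs ![v0, v1, 0] (by
      have key : ∀ i, ∑ b, f i b * (![v0, v1, 0] : Fin 3 → κ) b = f i 0 * v0 + f i 1 * v1 := by
        intro i
        rw [Fin.sum_univ_three]
        show f i 0 * v0 + f i 1 * v1 + f i 2 * 0 = _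
        ring
      intro i
      have h1 : ∑ b, eval pt (pderiv i (pderiv b (hz d a - C τ * X 2 ^ d))) * (![v0, v1, 0] : Fin 3 → κ) b =
          ∑ b, f i b * (![v0, v1, 0] : Fin 3 → κ) b := Finset.sum_congr rfl fun b _ => by rw [hf]
      rw [h1, key]
      fin_cases i
      · exact hv0
      · show f 1 0 * v0 + f 1 1 * v1 = 0
        rw [hsym 1 0]
        exact hv1
      · show f 2 0 * v0 + f 2 1 * v1 = 0
        have e0 := hE 0
        have e1 := hE 1
        rw [hsym 1 0] at e0
        linear_combination v0 * e0 + v1 * e1 - x * hv0 - y * hv1)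
    have h2 := congrFun hc' 2
    have h3 : (0 : κ) = c * pt 2 := h2
    rw [hp2, mul_one] at h3
    apply hne
    have h4 := congrFun hc' 0
    have h5 := congrFun hc' 1
    have h6 : v0 = c * pt 0 := h4
    have h7 : v1 = c * pt 1 := h5
    rw [← h3, zero_mul] at h6 h7
    exact ⟨h6, h7⟩
  · have h1 := sing_of_crit a hc
    have h2 := sing_of_crit a hc'
    rw [← hv] at h2
    obtain ⟨c, hc1⟩ := h.lef.uniq _ _ _ h1 h2
    have h3 : (1 : κ) = c * 1 := congrFun hc1 2
    rw [mul_one] at h3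
    have h4 : x' = c * x := congrFun hc1 0
    have h5 : y' = c * y := congrFun hc1 1
    rw [← h3, one_mul] at h4 h5
    exact ⟨h4.symm, h5.symm⟩

end Conv

end MPadcPZ
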