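import Pool.Agent.Lib.MP_adc574_ag_PZ.LocA

/-!
# Uniformity in the Morse polynomials

The theorem on the specialisations of a fixed generic Morse polynomial implies the theorem on all Morse polynomials over
finite fields of large characteristic: noetherian induction.
-/

set_option autoImplicit false

namespace MPadcPZ

open MvPolynomial MPadcLZ MPadcPC

/-- The theorem on the specialisations of a fixed Morse polynomial. -/
def LocP (Q : ∀ (E : Type) [Field E], MvPolynomial (Fin 3) E → Prop) (d : ℕ) : Prop :=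
  ∀ (A : Type) [CommRing A] [IsDomain A] [CharZero A], IsUnit (2 : A) → ∀ a : Ic d → A,
    MorseOver 2 d (hz d fun q => algebraMap A (AlgebraicClosure (FractionRing A)) (a q)) → ∃ dis : A, dis ≠ 0 ∧
      ∀ ε : ℝ, 0 < ε → ∃ p₀ : ℕ, ∀ p : ℕ, p.Prime → p₀ ≤ p →
        ∀ (E : Type) [Field E] [Finite E] [CharP E p] (ψ : A →+* E), ψ dis ≠ 0 →
          (Nat.card {t : E // ¬ Q E (hz d (fun q => ψ (a q)) - C t * X 2 ^ d)} : ℝ) ≤ ε * Nat.card E

private theorem count_scale (Q : ∀ (E : Type) [Field E], MvPolynomial (Fin 3) E → Prop)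
    (hQ : ∀ (E : Type) [Field E] (F : MvPolynomial (Fin 3) E) (u : E), u ≠ 0 → Q E F → Q E (C u * F))
    {E : Type} [Field E] [Finite E] (P : MvPolynomial (Fin 3) E) (u c : E) (hu : u ≠ 0) (d : ℕ) :
    Nat.card {t : E // ¬ Q E (C u * (P + C c * X 2 ^ d) - C t * X 2 ^ d)} ≤
      Nat.card {s : E // ¬ Q E (P - C s * X 2 ^ d)} := by
  refine Nat.card_le_card_of_injective (fun t => ⟨t.1 / u - c, fun h => t.2 ?_⟩) ?_
  · have h1 := hQ E _ u hu h
    have h2 : (C t.1 : MvPolynomial (Fin 3) E) = C u * C (t.1 / u) := by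
      rw [← C_mul, mul_div_cancel₀ _ hu]
    have h3 : C u * (P + C c * X 2 ^ d) - C t.1 * X 2 ^ d = C u * (P - C (t.1 / u - c) * X 2 ^ d) := by
      rw [C_sub, h2]
      ring
    rw [h3]
    exact h1
  · intro t t' h
    have h1 : t.1 / u - c = t'.1 / u - c := congrArg Subtype.val h
    have h2 : t.1 / u = t'.1 / u := by linear_combination h1
    exact Subtype.ext ((div_left_inj' hu).1 h2)

private theorem gg_hom (m d : ℕ) : (gg m d).IsHomogeneous d := by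
  unfold gg
  refine IsHomogeneous.sum _ _ _ fun e _ => isHomogeneous_monomial _ ?_
  exact (mem_ed _).1 e.2

theorem map_hom {A B : Type*} [CommRing A] [CommRing B] {m d : ℕ} {G : MvPolynomial (Fin m) A}
    (hG : G.IsHomogeneous d) (φ : A →+* B) : (G.map φ).IsHomogeneous d :=
  hG.map φ

private theorem morse_nc {κ : Type} [Field κ] {d : ℕ} (hd : 1 ≤ d) (G : MvPolynomial (Fin 3) κ)
    (hG : G.IsHomogeneous d) (hu : coeff (ex d 0 d) G ≠ 0) (h : MorseOver 2 d G) :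
    MorseOver 2 d (hz d (nc d (coeff (ex d 0 d) G)⁻¹ G)) := by
  rw [form_nc hd G hG hu] at h
  have h1 := morse_shift (-(coeff (ex d 0 0) G * (coeff (ex d 0 d) G)⁻¹)) (morse_scale hu h)
  rw [C_neg, neg_mul, add_neg_cancel_right] at h1
  exact h1

/-- The theorem on all Morse polynomials. -/
theorem few_of_loc (Q : ∀ (E : Type) [Field E], MvPolynomial (Fin 3) E → Prop)
    (hQ : ∀ (E : Type) [Field E] (F : MvPolynomial (Fin 3) E) (u : E), u ≠ 0 → Q E F → Q E (C u * F))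
    {d : ℕ} (hd : 1 ≤ d) (h : LocP Q d) : FewM Q 2 d {ex d 0 d} := by
  intro ε hε
  obtain ⟨e₁, he₁⟩ : ∃ e₁, e₁ = ex d 0 d := ⟨_, rfl⟩
  have key := noeth (R := MvPolynomial (Ed 3 d) ℤ) (fun E _ φ => coeff e₁ ((gg 3 d).map φ) ≠ 0 →
    IsMorsePencil 2 d ((gg 3 d).map φ) →
      (Nat.card {t : E // ¬ Q E ((gg 3 d).map φ - C t * X 2 ^ d)} : ℝ) ≤ ε * Nat.card E) ?_
  · obtain ⟨p₀, hp₀⟩ := key
    refine ⟨p₀, fun p hp hle E _ _ _ G hG hu hM => ?_⟩
    have h1 := hp₀ p hp hle E (evc G)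
    rw [gg_map G hG] at h1
    exact h1 (by rw [he₁]; exact hu _ (Finset.mem_singleton_self _)) hM
  intro 𝔮 h𝔮
  by_cases h1 : coeff e₁ (gg 3 d) ∈ 𝔮
  · refine ⟨1, (Ideal.ne_top_iff_one _).1 h𝔮.ne_top, 0, fun p _ _ E _ _ _ φ hφ _ h2 => ?_⟩
    rw [coeff_map, hφ _ h1] at h2
    exact absurd rfl h2
  by_cases hchar : ∃ ℓ : ℕ, ℓ ≠ 0 ∧ (ℓ : MvPolynomial (Ed 3 d) ℤ) ∈ 𝔮
  · obtain ⟨ℓ, hℓ, hmem⟩ := hchar
    refine ⟨1, (Ideal.ne_top_iff_one _).1 h𝔮.ne_top, ℓ + 1, fun p _ hle E _ _ _ φ hφ _ => ?_⟩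
    have h2 := hφ _ hmem
    rw [map_natCast, CharP.cast_eq_zero_iff E p] at h2
    have h3 := Nat.le_of_dvd (Nat.pos_of_ne_zero hℓ) h2
    omega
  by_cases hZ : ∃ i, (⟨𝔮, h𝔮⟩ : PrimeSpectrum _) ∈ Zs (SM 2 d (gg 3 d) i)
  · obtain ⟨M, hM, h2⟩ := strat_neg (SM 2 d (gg 3 d)) ⟨𝔮, h𝔮⟩ hZ
    refine ⟨M, hM, 0, fun p _ _ E _ _ _ φ hφ hMφ _ hMor => ?_⟩
    exfalso
    unfold IsMorsePencil at hMor
    rw [MvPolynomial.map_map, morse_iff] at hMor
    obtain ⟨i, hi⟩ := h2 ⟨RingHom.ker ((algebraMap E (AlgebraicClosure E)).comp φ), RingHom.ker_isPrime _⟩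
      (fun r hr => by
        show (algebraMap E (AlgebraicClosure E)) (φ r) = 0
        rw [hφ r hr, map_zero])
      (fun hr => by
        have h3 : (algebraMap E (AlgebraicClosure E)) (φ M) = 0 := hr
        exact hMφ ((map_eq_zero _).1 h3))
    obtain ⟨z, hz⟩ := (mem_Zs _ _).1 hi
    obtain ⟨P, hP, hne⟩ := hMor i z
    exact hne (hz P hP)
  -- the main case
  obtain ⟨u₀, hu₀⟩ : ∃ u₀, u₀ = Ideal.Quotient.mk 𝔮 (coeff e₁ (gg 3 d)) := ⟨_, rfl⟩
  have hdom : IsDomain (MvPolynomial (Ed 3 d) ℤ ⧸ 𝔮) := Ideal.Quotient.isDomain 𝔮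
  have hcz : CharZero (MvPolynomial (Ed 3 d) ℤ ⧸ 𝔮) := by
    refine charZero_of_inj_zero fun n hn => ?_
    by_contra hne
    refine hchar ⟨n, hne, ?_⟩
    rw [← Ideal.Quotient.eq_zero_iff_mem, map_natCast]
    exact hn
  have hu0 : u₀ ≠ 0 := fun h2 => h1 (by
    rw [← Ideal.Quotient.eq_zero_iff_mem, ← hu₀]
    exact h2)
  have hw : (2 * u₀) ≠ 0 := mul_ne_zero two_ne_zero hu0
  have hle : Submonoid.powers (2 * u₀) ≤ nonZeroDivisors (MvPolynomial (Ed 3 d) ℤ ⧸ 𝔮) := powers_le_nonZeroDivisors_of_noZeroDivisors hw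
  obtain ⟨A, _, _, hloc⟩ : ∃ (A : Type) (_ : CommRing A) (_ : Algebra (MvPolynomial (Ed 3 d) ℤ ⧸ 𝔮) A),
      IsLocalization.Away (2 * u₀) A := ⟨Localization.Away (2 * u₀), inferInstance, inferInstance, inferInstance⟩
  have hdA : IsDomain A := IsLocalization.isDomain_of_le_nonZeroDivisors A hle
  have hinj : Function.Injective (algebraMap (MvPolynomial (Ed 3 d) ℤ ⧸ 𝔮) A) := IsLocalization.injective A hle
  have hczA : CharZero A := charZero_of_injective_algebraMap hinj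
  have hun : IsUnit (algebraMap (MvPolynomial (Ed 3 d) ℤ ⧸ 𝔮) A (2 * u₀)) :=
    IsLocalization.Away.algebraMap_isUnit (2 * u₀)
  rw [map_mul, map_ofNat, IsUnit.mul_iff] at hun
  obtain ⟨h2, ⟨v, hv⟩⟩ := hun
  obtain ⟨α, hα⟩ : ∃ α : MvPolynomial (Ed 3 d) ℤ →+* A, α = (algebraMap (MvPolynomial (Ed 3 d) ℤ ⧸ 𝔮) A).comp
    (Ideal.Quotient.mk 𝔮) := ⟨_, rfl⟩
  have hαu : α (coeff e₁ (gg 3 d)) = v := by
    rw [hα, RingHom.comp_apply, ← hu₀, hv]
  have hα0 : ∀ r, α r = 0 ↔ r ∈ 𝔮 := by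
    intro r
    rw [hα, RingHom.comp_apply, map_eq_zero_iff _ hinj, Ideal.Quotient.eq_zero_iff_mem]
  obtain ⟨a, ha⟩ : ∃ a : Ic d → A, ∀ q, a q = α (coeff (ex d q.1.1 q.1.2) (gg 3 d)) * (↑v⁻¹ : A) := ⟨_, fun _ => rfl⟩
  have hspec : ∀ (k : Type) [Field k] (ψ : A →+* k), (fun q => ψ (a q)) =
      nc d (coeff (ex d 0 d) ((gg 3 d).map (ψ.comp α)))⁻¹ ((gg 3 d).map (ψ.comp α)) ∧
        coeff (ex d 0 d) ((gg 3 d).map (ψ.comp α)) ≠ 0 := by
    intro k _ ψ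
    have h3 : coeff (ex d 0 d) ((gg 3 d).map (ψ.comp α)) * ψ (↑v⁻¹ : A) = 1 := by
      rw [coeff_map, ← he₁, RingHom.comp_apply, hαu, ← map_mul, Units.mul_inv, map_one]
    have h4 : coeff (ex d 0 d) ((gg 3 d).map (ψ.comp α)) ≠ 0 := left_ne_zero_of_mul_eq_one h3
    refine ⟨?_, h4⟩
    funext q
    unfold nc
    rw [ha, map_mul, coeff_map, RingHom.comp_apply]
    congr 1
    exact eq_inv_of_mul_eq_one_right h3
  have hMo : MorseOver 2 d (hz d fun q => algebraMap A (AlgebraicClosure (FractionRing A)) (a q)) := by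
    obtain ⟨h3, h4⟩ := hspec _ (algebraMap A (AlgebraicClosure (FractionRing A)))
    rw [h3]
    refine morse_nc hd _ ((gg_hom 3 d).map _) h4 ?_
    rw [morse_iff]
    intro i z
    by_contra hcon
    push Not at hcon
    apply hZ
    refine ⟨i, ?_⟩
    have h5 := (mem_Zs ((algebraMap A (AlgebraicClosure (FractionRing A))).comp α) (SM 2 d (gg 3 d) i)).2 ⟨z, hcon⟩
    have h6 : (⟨RingHom.ker ((algebraMap A (AlgebraicClosure (FractionRing A))).comp α), RingHom.ker_isPrime _⟩ :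
        PrimeSpectrum (MvPolynomial (Ed 3 d) ℤ)) = ⟨𝔮, h𝔮⟩ := by
      apply PrimeSpectrum.ext
      ext r
      show (algebraMap A (AlgebraicClosure (FractionRing A))) (α r) = 0 ↔ r ∈ 𝔮
      have hinj2 : Function.Injective (algebraMap A (AlgebraicClosure (FractionRing A))) := by
        rw [IsScalarTower.algebraMap_eq A (FractionRing A) (AlgebraicClosure (FractionRing A))]
        exact (algebraMap (FractionRing A) (AlgebraicClosure (FractionRing A))).injective.comp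
          (IsFractionRing.injective A (FractionRing A))
      rw [map_eq_zero_iff _ hinj2, hα0]
    rw [h6] at h5
    exact h5
  obtain ⟨dis, hdis0, hdis⟩ := h A h2 a hMo
  obtain ⟨p₁, hp₁⟩ := hdis ε hε
  obtain ⟨n, b, hb⟩ := IsLocalization.Away.surj (2 * u₀) dis
  obtain ⟨m, rfl⟩ := Ideal.Quotient.mk_surjective b
  have hm : m ∉ 𝔮 := by
    intro hm
    rw [Ideal.Quotient.eq_zero_iff_mem.2 hm, map_zero] at hb
    rcases mul_eq_zero.1 hb with h3 | h3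
    · exact hdis0 h3
    · have hn : n ≠ 0 := fun h0 => by
        rw [h0, pow_zero] at h3
        exact one_ne_zero h3
      have h5 : algebraMap (MvPolynomial (Ed 3 d) ℤ ⧸ 𝔮) A (2 * u₀) = 0 := (pow_eq_zero_iff hn).1 h3
      exact hw ((map_eq_zero_iff _ hinj).1 h5)
  have h2q : (2 : MvPolynomial (Ed 3 d) ℤ) ∉ 𝔮 := fun h3 => hchar ⟨2, two_ne_zero, by exact_mod_cast h3⟩
  refine ⟨m * (2 * coeff e₁ (gg 3 d)), fun h3 => ?_, p₁, fun p hp hle' E _ _ _ φ hφ hMφ hu hMor => ?_⟩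
  · rcases h𝔮.mem_or_mem h3 with h4 | h4
    · exact hm h4
    · rcases h𝔮.mem_or_mem h4 with h5 | h5
      · exact h2q h5
      · exact h1 h5
  · rw [map_mul, map_mul, map_ofNat] at hMφ
    have hm' : φ m ≠ 0 := left_ne_zero_of_mul hMφ
    have hw' : (2 : E) * φ (coeff e₁ (gg 3 d)) ≠ 0 := right_ne_zero_of_mul hMφ
    obtain ⟨φ₀, hφ₀⟩ : ∃ φ₀ : (MvPolynomial (Ed 3 d) ℤ ⧸ 𝔮) →+* E, ∀ r, φ₀ (Ideal.Quotient.mk 𝔮 r) = φ r :=
      ⟨Ideal.Quotient.lift 𝔮 φ hφ, fun r => Ideal.Quotient.lift_mk _ _ _⟩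
    have hunit : IsUnit (φ₀ (2 * u₀)) := by
      rw [map_mul, map_ofNat, hu₀, hφ₀]
      exact isUnit_iff_ne_zero.2 hw'
    obtain ⟨ψ, hψ⟩ : ∃ ψ : A →+* E, ∀ r, ψ (algebraMap _ A r) = φ₀ r :=
      ⟨IsLocalization.Away.lift (2 * u₀) hunit, fun r => IsLocalization.Away.lift_eq (2 * u₀) hunit r⟩
    have hψα : ψ.comp α = φ := by
      refine RingHom.ext fun r => ?_
      rw [hα, RingHom.comp_apply, RingHom.comp_apply, hψ, hφ₀]
    have hdisψ : ψ dis ≠ 0 := by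
      intro h3
      have h4 := congrArg ψ hb
      rw [map_mul, h3, zero_mul, hψ, hφ₀] at h4
      exact hm' h4.symm
    have h5 := hp₁ p hp hle' E ψ hdisψ
    obtain ⟨h6, h7⟩ := hspec E ψ
    rw [h6, hψα] at h5
    rw [hψα] at h7
    refine le_trans ?_ h5
    rw [Nat.cast_le]
    have h8 := count_scale Q hQ (hz d (nc d (coeff (ex d 0 d) ((gg 3 d).map φ))⁻¹ ((gg 3 d).map φ)))
      (coeff (ex d 0 d) ((gg 3 d).map φ)) (coeff (ex d 0 0) ((gg 3 d).map φ) * (coeff (ex d 0 d) ((gg 3 d).map φ))⁻¹) h7 d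
    rw [← form_nc hd ((gg 3 d).map φ) ((gg_hom 3 d).map _) h7] at h8
    exact h8

end MPadcPZ
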