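import Pool.Agent.Lib.MP_adc574_ag_PZ.Mor

/-!
# Noetherian induction for statements over finite fields
-/

set_option autoImplicit false

namespace MPadcPZ

open MvPolynomial PrimeSpectrum Topology

section

variable {R : Type*} [CommRing R] {V : Type*} [Finite V]

/-- The systems which have a solution for `𝔮` have a solution for almost all specialisations. -/
theorem strat_neg [IsNoetherianRing R] {ι : Type*} [Finite ι] (S : ι → Set (MvPolynomial V R)) (𝔮 : PrimeSpectrum R)
    (h : ∃ i, 𝔮 ∈ Zs (S i)) : ∃ M : R, M ∉ 𝔮.asIdeal ∧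
      ∀ 𝔭 : PrimeSpectrum R, 𝔮.asIdeal ≤ 𝔭.asIdeal → M ∉ 𝔭.asIdeal → ∃ i, 𝔭 ∈ Zs (S i) := by
  classical
  have h1 : IsConstructible (⋃ i, Zs (S i)) := IsConstructible.iUnion fun i => Zs_constr (S i)
  obtain ⟨T, hT⟩ := exists_constructibleSetData_iff.2 h1
  have h2 : 𝔮 ∈ T.toSet := by
    rw [hT]
    exact Set.mem_iUnion.2 h
  obtain ⟨D, hD, h3⟩ := Set.mem_iUnion₂.1 h2
  refine ⟨D.f, ?_, fun 𝔭 hle hM => ?_⟩
  · intro h4
    apply h3.2
    rw [mem_zeroLocus, Set.singleton_subset_iff]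
    exact h4
  · have h4 : 𝔭 ∈ T.toSet := by
      refine Set.mem_iUnion₂.2 ⟨D, hD, ?_, ?_⟩
      · rw [mem_zeroLocus]
        exact ((mem_zeroLocus _ _).1 h3.1).trans hle
      · intro h5
        rw [mem_zeroLocus, Set.singleton_subset_iff] at h5
        exact hM h5
    rw [hT] at h4
    exact Set.mem_iUnion.1 h4

end

/-- Noetherian induction: a statement on the homomorphisms from `R` to finite fields of large characteristic. -/
theorem noeth {R : Type} [CommRing R] [IsNoetherianRing R]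
    (St : ∀ (E : Type) [Field E], (R →+* E) → Prop)
    (hloc : ∀ 𝔮 : Ideal R, 𝔮.IsPrime → ∃ M : R, M ∉ 𝔮 ∧ ∃ p₀ : ℕ, ∀ p : ℕ, p.Prime → p₀ ≤ p →
      ∀ (E : Type) [Field E] [Finite E] [CharP E p] (φ : R →+* E), (∀ r ∈ 𝔮, φ r = 0) → φ M ≠ 0 → St E φ) :
    ∃ p₀ : ℕ, ∀ p : ℕ, p.Prime → p₀ ≤ p → ∀ (E : Type) [Field E] [Finite E] [CharP E p] (φ : R →+* E), St E φ := by
  have key : ∀ I : Ideal R, ∃ p₀ : ℕ, ∀ p : ℕ, p.Prime → p₀ ≤ p →
      ∀ (E : Type) [Field E] [Finite E] [CharP E p] (φ : R →+* E), (∀ r ∈ I, φ r = 0) → St E φ := by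
    intro I
    induction I using IsNoetherian.induction with
    | hgt I ih =>
      have hlt : ∀ M : R, M ∉ I → I < I ⊔ Ideal.span {M} := by
        intro M hM
        refine lt_of_le_of_ne le_sup_left fun h => hM ?_
        rw [h]
        exact Ideal.mem_sup_right (Ideal.mem_span_singleton_self M)
      have hker : ∀ (M : R) (E : Type) [Field E] (φ : R →+* E), (∀ r ∈ I, φ r = 0) → φ M = 0 →
          ∀ r ∈ I ⊔ Ideal.span {M}, φ r = 0 := by
        intro M E _ φ h1 h2 r hr
        have h3 : I ⊔ Ideal.span {M} ≤ RingHom.ker φ := by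
          refine sup_le h1 ?_
          rw [Ideal.span_singleton_le_iff_mem]
          exact h2
        exact h3 hr
      by_cases htop : I = ⊤
      · refine ⟨0, fun p _ _ E _ _ _ φ h => ?_⟩
        have h1 := h 1 (by rw [htop]; trivial)
        rw [map_one] at h1
        exact absurd h1 one_ne_zero
      · by_cases hpr : Ideal.IsPrime I
        · obtain ⟨M, hM, p₁, h1⟩ := hloc I hpr
          obtain ⟨p₂, h2⟩ := ih _ (hlt M hM)
          refine ⟨max p₁ p₂, fun p hp hle E _ _ _ φ hφ => ?_⟩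
          by_cases hz : φ M = 0
          · exact h2 p hp ((le_max_right _ _).trans hle) E φ (hker M E φ hφ hz)
          · exact h1 p hp ((le_max_left _ _).trans hle) E φ hφ hz
        · have h1 : ∃ x y : R, x * y ∈ I ∧ x ∉ I ∧ y ∉ I := by
            by_contra hcon
            push Not at hcon
            refine hpr ⟨htop, fun {x y} hxy => ?_⟩
            by_cases hx : x ∈ I
            · exact Or.inl hx
            · exact Or.inr (hcon x y hxy hx)
          obtain ⟨x, y, hxy, hx, hy⟩ := h1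
          obtain ⟨p₁, h1⟩ := ih _ (hlt x hx)
          obtain ⟨p₂, h2⟩ := ih _ (hlt y hy)
          refine ⟨max p₁ p₂, fun p hp hle E _ _ _ φ hφ => ?_⟩
          have h3 := hφ _ hxy
          rw [map_mul] at h3
          rcases mul_eq_zero.1 h3 with h4 | h4
          · exact h1 p hp ((le_max_left _ _).trans hle) E φ (hker x E φ hφ h4)
          · exact h2 p hp ((le_max_right _ _).trans hle) E φ (hker y E φ hφ h4)
  obtain ⟨p₀, h⟩ := key ⊥
  refine ⟨p₀, fun p hp hle E _ _ _ φ => h p hp hle E φ fun r hr => ?_⟩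
  rw [Ideal.mem_bot] at hr
  rw [hr, map_zero]

end MPadcPZ
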