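import Pool.Agent.Lib.MP_adc574_ag_PC.ND

/-!
# Linear systems of plane curves over number fields: definitions

A plane curve of degree `d` is given by a homogeneous polynomial `G` of degree `d` in the variables `x = X 0`, `y = X 1`,
`z = X 2`.
-/

set_option autoImplicit false

namespace MPadcPZ

open MvPolynomial NumberField MPadcPC

/-- The member with the parameters `c` of the linear system which consists of the `F + ∑ c_e x ^ e`, `e ∈ S`. -/
noncomputable def member {A : Type} [CommRing A] (F : MvPolynomial (Fin 3) A) (S : Finset (Fin 3 →₀ ℕ))
    (c : S → A) : MvPolynomial (Fin 3) A :=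
  F + ∑ e : S, monomial (e : Fin 3 →₀ ℕ) (c e)

/-- `(x, y)` is a critical point of the polynomial `G(x, y, 1)`. -/
def IsCritical {κ : Type} [Field κ] (G : MvPolynomial (Fin 3) κ) (x y : κ) : Prop :=
  eval ![x, y, 1] (pderiv 0 G) = 0 ∧ eval ![x, y, 1] (pderiv 1 G) = 0

/-- The form `G` of degree `d` over the algebraically closed field `κ` contains the monomial `y ^ d`, and the curve `G = 0`
has no singular point on the line `z = 0` and is not tangent to it. -/
structure IsTransversal {κ : Type} [Field κ] (d : ℕ) (G : MvPolynomial (Fin 3) κ) : Prop where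
  /-- the coefficient of `y ^ d` is not zero -/
  monic : coeff (Finsupp.single 1 d) G ≠ 0
  /-- the binary form `G(x, y, 0)` is squarefree -/
  inf : ∀ x y : κ, eval ![x, y, 0] (pderiv 0 G) = 0 → eval ![x, y, 0] (pderiv 1 G) = 0 → x = 0 ∧ y = 0

/-- Moreover `G(x, y, 1)` is a Morse function: its critical points are nondegenerate and have different critical
values. -/
structure IsMorse {κ : Type} [Field κ] (d : ℕ) (G : MvPolynomial (Fin 3) κ) : Prop extends IsTransversal d G where
  /-- the determinant of the Hessian is not zero at the critical points -/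
  hess : ∀ x y : κ, IsCritical G x y → eval ![x, y, 1] (pderiv 0 (pderiv 0 G)) * eval ![x, y, 1] (pderiv 1 (pderiv 1 G)) -
    eval ![x, y, 1] (pderiv 0 (pderiv 1 G)) ^ 2 ≠ 0
  /-- different critical points have different critical values -/
  val : ∀ x y x' y' : κ, IsCritical G x y → IsCritical G x' y' → eval ![x, y, 1] G = eval ![x', y', 1] G →
    x = x' ∧ y = y'

/-- The linear system of the forms `F + ∑ c_e x ^ e`, `e ∈ S`, of degree `d` over the ring of integers of the number field
`K` contains with a form `G` all `G + c z ^ d`, and one of its members over the algebraic closure is a Morse function; or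
it contains with a form `G` all `G + (a x + b y + c z) z ^ (d - 1)`, and one of its members is transversal to the line
`z = 0`. -/
structure IsMorseSystem {K : Type} [Field K] [NumberField K] (d : ℕ) (F : MvPolynomial (Fin 3) (𝓞 K))
    (S : Finset (Fin 3 →₀ ℕ)) : Prop where
  /-- `F` has degree `d` -/
  hom : F.IsHomogeneous d
  /-- the monomials in `S` have degree `d` -/
  deg : ∀ e ∈ S, e.degree = d
  /-- the coefficient of `z ^ d` varies -/
  pencil : Finsupp.single 2 d ∈ S
  /-- there is a good member -/
  good : ∃ c : S → AlgebraicClosure K,
    IsMorse d (member (F.map (algebraMap (𝓞 K) (AlgebraicClosure K))) S c) ∨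
      (IsTransversal d (member (F.map (algebraMap (𝓞 K) (AlgebraicClosure K))) S c) ∧
        Finsupp.single 2 (d - 1) + Finsupp.single 0 1 ∈ S ∧ Finsupp.single 2 (d - 1) + Finsupp.single 1 1 ∈ S)

/-- The plane curve `G = 0` over the ring of integers of the number field `K` has good reduction at the maximal ideal `𝔭`
as a plane curve (the reduction of `G` defines a smooth plane curve), which is ordinary in the sense of Bloch and Kato;
`G(x, y, 1)` is considered as a polynomial in `y` whose coefficients are polynomials in `x`. -/
def OrdinaryReductionAt {K : Type} [Field K] [NumberField K] (G : MvPolynomial (Fin 3) (𝓞 K)) (𝔭 : Ideal (𝓞 K)) :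
    Prop :=
  ∃ (E : Type) (_ : Field E) (φ : 𝓞 K →+* E), Function.Surjective φ ∧ RingHom.ker φ = 𝔭 ∧
    IsSmoothForm (G.map φ) ∧
    PlaneIsOrdinary (aeval ![Polynomial.C Polynomial.X, Polynomial.X, 1] (G.map φ) : Polynomial (Polynomial E))

end MPadcPZ
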