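import Pool.Agent.Lib.MP_adc574_ag_LZ.GeoD
import Pool.Agent.Lib.MP_adc574_ag_BK.BKDefs

/-!
# Spreading out of Lefschetz pencils

`R` is a domain, `G`, `H` are polynomials over `R` which define a Lefschetz pencil over an algebraically closed field which
contains `R`. There is `M ≠ 0` in `R` such that the images of `G`, `H` under all homomorphisms from `R` to a field which do
not map `M` to `0` define a Lefschetz pencil.
-/

set_option autoImplicit false

namespace MPadcPZ

open MvPolynomial MPadcLZ MPadcBK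

universe u

section Null

attribute [local instance] MvPolynomial.algebraMvPolynomial

theorem loc_mem {R : Type*} [CommRing R] [IsDomain R] {F : Type*} [Field F] [Algebra R F] [IsFractionRing R F]
    {σ : Type*} (I : Ideal (MvPolynomial σ R)) (Q : MvPolynomial σ R)
    (h : Q.map (algebraMap R F) ∈ I.map (MvPolynomial.map (algebraMap R F))) : ∃ M : R, M ≠ 0 ∧ C M * Q ∈ I := by
  have h1 : algebraMap (MvPolynomial σ R) (MvPolynomial σ F) = MvPolynomial.map (algebraMap R F) := rfl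
  have hinj : Function.Injective (MvPolynomial.map (σ := σ) (algebraMap R F)) :=
    MvPolynomial.map_injective _ (IsFractionRing.injective R F)
  have h2 : algebraMap (MvPolynomial σ R) (MvPolynomial σ F) Q ∈
      I.map (algebraMap (MvPolynomial σ R) (MvPolynomial σ F)) := by
    rw [h1]
    exact h
  rw [IsLocalization.mem_map_algebraMap_iff ((nonZeroDivisors R).map (C (σ := σ)))] at h2
  obtain ⟨⟨⟨a, ha⟩, ⟨_, m, hm, rfl⟩⟩, h3⟩ := h2
  refine ⟨m, nonZeroDivisors.ne_zero hm, ?_⟩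
  have h4 : C m * Q = a := by
    apply hinj
    rw [map_mul, mul_comm]
    exact h3
  rw [h4]
  exact ha

/-- The Nullstellensatz with denominators. -/
theorem null_den {R : Type*} [CommRing R] [IsDomain R] {σ : Type*} [Finite σ] (S : Set (MvPolynomial σ R))
    {Ω : Type*} [Field Ω] [IsAlgClosed Ω] (j : R →+* Ω) (hj : Function.Injective j)
    (h : ∀ x : σ → Ω, ∃ P ∈ S, eval₂ j x P ≠ 0) : ∃ M : R, M ≠ 0 ∧ C M ∈ Ideal.span S := by
  let a₁ : FractionRing R →+* Ω := IsFractionRing.lift hj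
  let _ : Algebra (FractionRing R) Ω := a₁.toAlgebra
  have ha : (algebraMap (FractionRing R) Ω).comp (algebraMap R (FractionRing R)) = j := by
    apply RingHom.ext
    intro r
    exact IsFractionRing.lift_algebraMap hj r
  have h1 : (1 : MvPolynomial σ (FractionRing R)) ∈
      ((Ideal.span S).map (MvPolynomial.map (algebraMap R (FractionRing R)))).radical := by
    rw [← vanishingIdeal_zeroLocus_eq_radical (K := Ω)]
    intro x hx
    exfalso
    obtain ⟨P, hP, h2⟩ := h x
    apply h2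
    have h3 := hx (P.map (algebraMap R (FractionRing R))) (Ideal.mem_map_of_mem _ (Ideal.subset_span hP))
    rw [aeval_def, eval₂_map, ha] at h3
    exact h3
  obtain ⟨n, hn⟩ := h1
  rw [one_pow] at hn
  have h4 : (1 : MvPolynomial σ R).map (algebraMap R (FractionRing R)) ∈
      (Ideal.span S).map (MvPolynomial.map (algebraMap R (FractionRing R))) := by
    rw [map_one]
    exact hn
  obtain ⟨M, hM0, hM⟩ := loc_mem (Ideal.span S) 1 h4
  exact ⟨M, hM0, by rwa [mul_one] at hM⟩

theorem null_use {R : Type*} [CommRing R] {σ : Type*} (S : Set (MvPolynomial σ R)) (M : R) (hM : C M ∈ Ideal.span S)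
    {k : Type*} [CommRing k] (φ : R →+* k) (hφ : φ M ≠ 0) (x : σ → k) : ∃ P ∈ S, eval₂ φ x P ≠ 0 := by
  by_contra h
  push Not at h
  have h1 : Ideal.span S ≤ RingHom.ker (eval₂Hom φ x) := by
    rw [Ideal.span_le]
    intro P hP
    exact h P hP
  have h2 : eval₂ φ x (C M) = 0 := h1 hM
  rw [eval₂_C] at h2
  exact hφ h2

end Null

section Systems

variable {R : Type u} [CommRing R] {N : ℕ}

/-- The variables `x`, `y`, `τ`, `s`. -/
abbrev Vr (N : ℕ) : Type := (Fin N ⊕ Fin N) ⊕ Fin 2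

/-- `Q(x)`. -/
noncomputable def rx (Q : MvPolynomial (Fin N) R) : MvPolynomial (Vr N) R := rename (fun a => Sum.inl (Sum.inl a)) Q

/-- `Q(y)`. -/
noncomputable def ry (Q : MvPolynomial (Fin N) R) : MvPolynomial (Vr N) R := rename (fun a => Sum.inl (Sum.inr a)) Q

/-- The equations of a singular point `x`. -/
noncomputable def sx (G H : MvPolynomial (Fin N) R) (i : Fin N) : MvPolynomial (Vr N) R :=
  rx (pderiv i G) - X (Sum.inr 0) * rx (pderiv i H)

/-- The equations of a singular point `y`. -/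
noncomputable def sy (G H : MvPolynomial (Fin N) R) (i : Fin N) : MvPolynomial (Vr N) R :=
  ry (pderiv i G) - X (Sum.inr 0) * ry (pderiv i H)

/-- The equations of the kernel of the Hessian. -/
noncomputable def hx (G H : MvPolynomial (Fin N) R) (a : Fin N) : MvPolynomial (Vr N) R :=
  ∑ b, (rx (pderiv a (pderiv b G)) - X (Sum.inr 0) * rx (pderiv a (pderiv b H))) * X (Sum.inl (Sum.inr b))

/-- `x` and `y` are linearly independent. -/
noncomputable def ind (a b : Fin N) : MvPolynomial (Vr N) R :=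
  X (Sum.inr 1) * (X (Sum.inl (Sum.inr a)) * X (Sum.inl (Sum.inl b)) -
    X (Sum.inl (Sum.inr b)) * X (Sum.inl (Sum.inl a))) - 1

/-- A singular point on the base locus. -/
noncomputable def SB (G H : MvPolynomial (Fin N) R) (i : Fin N) : Set (MvPolynomial (Vr N) R) :=
  Set.range (sx G H) ∪ {rx H, X (Sum.inr 1) * X (Sum.inl (Sum.inl i)) - 1}

/-- A singular point which is not a node. -/
noncomputable def SN (G H : MvPolynomial (Fin N) R) (a b : Fin N) : Set (MvPolynomial (Vr N) R) :=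
  Set.range (sx G H) ∪ Set.range (hx G H) ∪ {ind a b}

/-- Two singular points. -/
noncomputable def SU (G H : MvPolynomial (Fin N) R) (a b : Fin N) : Set (MvPolynomial (Vr N) R) :=
  Set.range (sx G H) ∪ Set.range (sy G H) ∪ {ind a b}

/-- The point with the coordinates `x`, `y`, `τ`, `s`. -/
def pt {k : Type*} (x y : Fin N → k) (τ s : k) : Vr N → k := Sum.elim (Sum.elim x y) ![τ, s]

theorem pt_eta {k : Type*} (z : Vr N → k) : pt (fun a => z (Sum.inl (Sum.inl a))) (fun a => z (Sum.inl (Sum.inr a)))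
    (z (Sum.inr 0)) (z (Sum.inr 1)) = z := by
  funext c
  rcases c with (c | c) | c
  · rfl
  · rfl
  · fin_cases c <;> rfl

variable {k : Type u} [Field k] (φ : R →+* k) (G H : MvPolynomial (Fin N) R) (x y : Fin N → k) (τ s : k)

theorem ev_rx (Q : MvPolynomial (Fin N) R) : eval₂ φ (pt x y τ s) (rx Q) = eval x (Q.map φ) := by
  unfold rx
  rw [eval₂_rename, eval_map]
  rfl

theorem ev_ry (Q : MvPolynomial (Fin N) R) : eval₂ φ (pt x y τ s) (ry Q) = eval y (Q.map φ) := by
  unfold ry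
  rw [eval₂_rename, eval_map]
  rfl

theorem ev_sx (i : Fin N) : eval₂ φ (pt x y τ s) (sx G H i) =
    eval x (pderiv i (G.map φ)) - τ * eval x (pderiv i (H.map φ)) := by
  unfold sx
  rw [eval₂_sub, eval₂_mul, ev_rx, ev_rx, eval₂_X, pderiv_map, pderiv_map]
  rfl

theorem ev_sy (i : Fin N) : eval₂ φ (pt x y τ s) (sy G H i) =
    eval y (pderiv i (G.map φ)) - τ * eval y (pderiv i (H.map φ)) := by
  unfold sy
  rw [eval₂_sub, eval₂_mul, ev_ry, ev_ry, eval₂_X, pderiv_map, pderiv_map]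
  rfl

theorem ev_hx (a : Fin N) : eval₂ φ (pt x y τ s) (hx G H a) =
    ∑ b, eval x (pderiv a (pderiv b (G.map φ - C τ * H.map φ))) * y b := by
  unfold hx
  rw [eval₂_sum]
  refine Finset.sum_congr rfl fun b _ => ?_
  rw [eval₂_mul, eval₂_sub, eval₂_mul, ev_rx, ev_rx, eval₂_X, eval₂_X, map_sub, map_sub, map_sub,
    pderiv_C_mul, pderiv_C_mul, map_mul, eval_C, pderiv_map, pderiv_map, pderiv_map, pderiv_map]
  rfl

theorem ev_ind (a b : Fin N) : eval₂ φ (pt x y τ s) (ind a b : MvPolynomial (Vr N) R) =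
    s * (y a * x b - y b * x a) - 1 := by
  unfold ind
  rw [eval₂_sub, eval₂_mul, eval₂_sub, eval₂_mul, eval₂_mul, eval₂_one]
  simp only [eval₂_X]
  rfl

theorem ev_s (i : Fin N) : eval₂ φ (pt x y τ s) (X (Sum.inr 1) * X (Sum.inl (Sum.inl i)) - 1 : MvPolynomial (Vr N) R) =
    s * x i - 1 := by
  rw [eval₂_sub, eval₂_mul, eval₂_one]
  simp only [eval₂_X]
  rfl

variable {φ G H}

/-- Two vectors with vanishing minors. -/
private theorem prop_of_minors {x v : Fin N → k} (hx : x ≠ 0) (h : ∀ a b, v a * x b - v b * x a = 0) :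
    ∃ c : k, v = c • x := by
  obtain ⟨i, hi⟩ := Function.ne_iff.1 hx
  have hi' : x i ≠ 0 := hi
  refine ⟨v i / x i, funext fun a => ?_⟩
  have h1 := h a i
  rw [Pi.smul_apply, smul_eq_mul, div_mul_eq_mul_div, eq_div_iff hi']
  linear_combination h1

private theorem minors_of_prop {x v : Fin N → k} {c : k} (h : v = c • x) (a b : Fin N) : v a * x b - v b * x a = 0 := by
  rw [h, Pi.smul_apply, Pi.smul_apply, smul_eq_mul, smul_eq_mul]
  ring

theorem base_iff : (∀ τ x, IsSing (G.map φ) (H.map φ) τ x → eval x (H.map φ) ≠ 0) ↔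
    ∀ i, ∀ z : Vr N → k, ∃ P ∈ SB G H i, eval₂ φ z P ≠ 0 := by
  constructor
  · intro h i z
    by_contra hz
    push Not at hz
    rw [← pt_eta z] at hz
    have h1 : ∀ l, eval (fun a => z (Sum.inl (Sum.inl a))) (pderiv l (G.map φ)) =
        z (Sum.inr 0) * eval (fun a => z (Sum.inl (Sum.inl a))) (pderiv l (H.map φ)) := by
      intro l
      have h2 := hz (sx G H l) (Or.inl ⟨l, rfl⟩)
      rw [ev_sx] at h2
      exact sub_eq_zero.1 h2
    have h3 := hz (rx H) (Or.inr (Or.inl rfl))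
    rw [ev_rx] at h3
    have h4 := hz _ (Or.inr (Or.inr rfl))
    rw [ev_s] at h4
    refine h _ _ ⟨?_, h1⟩ h3
    intro h0
    have h5 : z (Sum.inl (Sum.inl i)) = 0 := congrFun h0 i
    rw [h5, mul_zero, zero_sub, neg_eq_zero] at h4
    exact one_ne_zero h4
  · intro h τ x hx h0
    obtain ⟨i, hi⟩ := Function.ne_iff.1 hx.1
    have hi' : x i ≠ 0 := hi
    obtain ⟨P, hP, h1⟩ := h i (pt x 0 τ (x i)⁻¹)
    rcases hP with ⟨l, rfl⟩ | rfl | rfl
    · rw [ev_sx, hx.2 l, sub_self] at h1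
      exact h1 rfl
    · rw [ev_rx, h0] at h1
      exact h1 rfl
    · rw [ev_s, inv_mul_cancel₀ hi', sub_self] at h1
      exact h1 rfl

theorem node_iff : (∀ τ x, IsSing (G.map φ) (H.map φ) τ x → ∀ v : Fin N → k,
      (∀ a, ∑ b, eval x (pderiv a (pderiv b (G.map φ - C τ * H.map φ))) * v b = 0) → ∃ c : k, v = c • x) ↔
    ∀ a b, ∀ z : Vr N → k, ∃ P ∈ SN G H a b, eval₂ φ z P ≠ 0 := by
  constructor
  · intro h a b z
    by_contra hz
    push Not at hz
    rw [← pt_eta z] at hz
    have h1 : ∀ l, eval (fun a => z (Sum.inl (Sum.inl a))) (pderiv l (G.map φ)) =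
        z (Sum.inr 0) * eval (fun a => z (Sum.inl (Sum.inl a))) (pderiv l (H.map φ)) := by
      intro l
      have h2 := hz (sx G H l) (Or.inl (Or.inl ⟨l, rfl⟩))
      rw [ev_sx] at h2
      exact sub_eq_zero.1 h2
    have h3 : ∀ l, ∑ b, eval (fun a => z (Sum.inl (Sum.inl a)))
        (pderiv l (pderiv b (G.map φ - C (z (Sum.inr 0)) * H.map φ))) * z (Sum.inl (Sum.inr b)) = 0 := by
      intro l
      have h2 := hz (hx G H l) (Or.inl (Or.inr ⟨l, rfl⟩))
      rw [ev_hx] at h2
      exact h2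
    have h4 := hz _ (Or.inr rfl)
    rw [ev_ind] at h4
    have hx0 : (fun a => z (Sum.inl (Sum.inl a))) ≠ 0 := by
      intro h0
      have h5 : z (Sum.inl (Sum.inl a)) = 0 := congrFun h0 a
      have h6 : z (Sum.inl (Sum.inl b)) = 0 := congrFun h0 b
      simp only [h5, h6, mul_zero, sub_self, zero_sub, neg_eq_zero] at h4
      exact one_ne_zero h4
    obtain ⟨c, hc⟩ := h _ _ ⟨hx0, h1⟩ (fun a => z (Sum.inl (Sum.inr a))) h3
    have h5 := minors_of_prop hc a b
    rw [h5, mul_zero, zero_sub, neg_eq_zero] at h4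
    exact one_ne_zero h4
  · intro h τ x hx v hv
    refine prop_of_minors hx.1 fun a b => ?_
    by_contra hne
    obtain ⟨P, hP, h1⟩ := h a b (pt x v τ (v a * x b - v b * x a)⁻¹)
    rcases hP with (⟨l, rfl⟩ | ⟨l, rfl⟩) | rfl
    · rw [ev_sx, hx.2 l, sub_self] at h1
      exact h1 rfl
    · rw [ev_hx, hv l] at h1
      exact h1 rfl
    · rw [ev_ind, inv_mul_cancel₀ hne, sub_self] at h1
      exact h1 rfl

theorem uniq_iff : (∀ τ x y, IsSing (G.map φ) (H.map φ) τ x → IsSing (G.map φ) (H.map φ) τ y → ∃ c : k, y = c • x) ↔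
    ∀ a b, ∀ z : Vr N → k, ∃ P ∈ SU G H a b, eval₂ φ z P ≠ 0 := by
  constructor
  · intro h a b z
    by_contra hz
    push Not at hz
    rw [← pt_eta z] at hz
    have h1 : ∀ l, eval (fun a => z (Sum.inl (Sum.inl a))) (pderiv l (G.map φ)) =
        z (Sum.inr 0) * eval (fun a => z (Sum.inl (Sum.inl a))) (pderiv l (H.map φ)) := by
      intro l
      have h2 := hz (sx G H l) (Or.inl (Or.inl ⟨l, rfl⟩))
      rw [ev_sx] at h2
      exact sub_eq_zero.1 h2
    have h3 : ∀ l, eval (fun a => z (Sum.inl (Sum.inr a))) (pderiv l (G.map φ)) =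
        z (Sum.inr 0) * eval (fun a => z (Sum.inl (Sum.inr a))) (pderiv l (H.map φ)) := by
      intro l
      have h2 := hz (sy G H l) (Or.inl (Or.inr ⟨l, rfl⟩))
      rw [ev_sy] at h2
      exact sub_eq_zero.1 h2
    have h4 := hz _ (Or.inr rfl)
    rw [ev_ind] at h4
    have hx0 : (fun a => z (Sum.inl (Sum.inl a))) ≠ 0 := by
      intro h0
      have h5 : z (Sum.inl (Sum.inl a)) = 0 := congrFun h0 a
      have h6 : z (Sum.inl (Sum.inl b)) = 0 := congrFun h0 b
      simp only [h5, h6, mul_zero, sub_self, zero_sub, neg_eq_zero] at h4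
      exact one_ne_zero h4
    have hy0 : (fun a => z (Sum.inl (Sum.inr a))) ≠ 0 := by
      intro h0
      have h5 : z (Sum.inl (Sum.inr a)) = 0 := congrFun h0 a
      have h6 : z (Sum.inl (Sum.inr b)) = 0 := congrFun h0 b
      simp only [h5, h6, zero_mul, mul_zero, sub_self, zero_sub, neg_eq_zero] at h4
      exact one_ne_zero h4
    obtain ⟨c, hc⟩ := h _ _ _ ⟨hx0, h1⟩ ⟨hy0, h3⟩
    have h5 := minors_of_prop hc a b
    rw [h5, mul_zero, zero_sub, neg_eq_zero] at h4
    exact one_ne_zero h4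
  · intro h τ x y hx hy
    refine prop_of_minors hx.1 fun a b => ?_
    by_contra hne
    obtain ⟨P, hP, h1⟩ := h a b (pt x y τ (y a * x b - y b * x a)⁻¹)
    rcases hP with (⟨l, rfl⟩ | ⟨l, rfl⟩) | rfl
    · rw [ev_sx, hx.2 l, sub_self] at h1
      exact h1 rfl
    · rw [ev_sy, hy.2 l, sub_self] at h1
      exact h1 rfl
    · rw [ev_ind, inv_mul_cancel₀ hne, sub_self] at h1
      exact h1 rfl

end Systems

section Spread

variable {R : Type u} [CommRing R] [IsDomain R] {N : ℕ}

/-- Finitely many conditions. -/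
private theorem fin_prod {ι : Type*} [Finite ι] (p : ι → R → Prop) (hp : ∀ i M, p i M → ∀ M', p i (M * M'))
    (h : ∀ i, ∃ M : R, M ≠ 0 ∧ p i M) : ∃ M : R, M ≠ 0 ∧ ∀ i, p i M := by
  classical
  have := Fintype.ofFinite ι
  choose m hm0 hm using h
  refine ⟨∏ i, m i, Finset.prod_ne_zero_iff.2 fun i _ => hm0 i, fun i => ?_⟩
  rw [← Finset.mul_prod_erase _ _ (Finset.mem_univ i)]
  exact hp i _ (hm i) _

omit [IsDomain R] in
private theorem C_mul_mem {σ : Type*} (S : Set (MvPolynomial σ R)) (M M' : R) (h : C M ∈ Ideal.span S) :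
    C (M * M') ∈ Ideal.span S := by
  rw [C_mul]
  exact Ideal.mul_mem_right _ _ h

/-- Lefschetz pencils spread out. -/
theorem spread_lef (G H : MvPolynomial (Fin N) R) {Ω : Type u} [Field Ω] [IsAlgClosed Ω] (j : R →+* Ω)
    (hj : Function.Injective j) (hL : IsLef (G.map j) (H.map j)) :
    ∃ M : R, M ≠ 0 ∧ ∀ (k : Type u) [Field k] (φ : R →+* k), φ M ≠ 0 → IsLef (G.map φ) (H.map φ) := by
  obtain ⟨M₁, h10, h1⟩ := fin_prod (fun i M => C M ∈ Ideal.span (SB G H i)) (fun i M h M' => C_mul_mem _ M M' h)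
    fun i => null_den (SB G H i) j hj (base_iff.1 hL.base i)
  obtain ⟨M₂, h20, h2⟩ := fin_prod (fun i : Fin N × Fin N => fun M => C M ∈ Ideal.span (SN G H i.1 i.2))
    (fun i M h M' => C_mul_mem _ M M' h) fun i => null_den (SN G H i.1 i.2) j hj (node_iff.1 hL.node i.1 i.2)
  obtain ⟨M₃, h30, h3⟩ := fin_prod (fun i : Fin N × Fin N => fun M => C M ∈ Ideal.span (SU G H i.1 i.2))
    (fun i M h M' => C_mul_mem _ M M' h) fun i => null_den (SU G H i.1 i.2) j hj (uniq_iff.1 hL.uniq i.1 i.2)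
  refine ⟨M₁ * M₂ * M₃, mul_ne_zero (mul_ne_zero h10 h20) h30, fun k _ φ hφ => ?_⟩
  rw [map_mul, map_mul] at hφ
  have k3 := right_ne_zero_of_mul hφ
  have k2 := right_ne_zero_of_mul (left_ne_zero_of_mul hφ)
  have k1 := left_ne_zero_of_mul (left_ne_zero_of_mul hφ)
  exact ⟨base_iff.2 fun i z => null_use _ M₁ (h1 i) φ k1 z,
    node_iff.2 fun a b z => null_use _ M₂ (h2 (a, b)) φ k2 z,
    uniq_iff.2 fun a b z => null_use _ M₃ (h3 (a, b)) φ k3 z⟩

/-- Smoothness spreads out. -/
theorem spread_smooth (H : MvPolynomial (Fin N) R) {F : Type u} [Field F] [Algebra R F] [IsFractionRing R F]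
    (hH : Smooth (H.map (algebraMap R F))) :
    ∃ M : R, M ≠ 0 ∧ ∀ (k : Type u) [Field k] (φ : R →+* k), φ M ≠ 0 → Smooth (H.map φ) := by
  have key : ∀ i : Fin N, ∃ M : R, M ≠ 0 ∧ ∃ n : ℕ, C M * (X i : MvPolynomial (Fin N) R) ^ n ∈
      Ideal.span (Set.range fun j => pderiv j H) := by
    intro i
    obtain ⟨n, hn⟩ := hH i
    obtain ⟨M, hM0, hM⟩ := loc_mem (F := F) (Ideal.span (Set.range fun j => pderiv j H)) (X i ^ n) (by
      rw [map_pow, map_X, Ideal.map_span, ← Set.range_comp]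
      have h1 : (⇑(MvPolynomial.map (algebraMap R F)) ∘ fun j => pderiv j H) =
          fun j => pderiv j (H.map (algebraMap R F)) := by
        funext j
        rw [pderiv_map]
        rfl
      rw [h1]
      exact hn)
    exact ⟨M, hM0, n, hM⟩
  obtain ⟨M, hM0, hM⟩ := fin_prod (fun i M => ∃ n : ℕ, C M * (X i : MvPolynomial (Fin N) R) ^ n ∈
      Ideal.span (Set.range fun j => pderiv j H)) (by
        rintro i M ⟨n, hn⟩ M'
        refine ⟨n, ?_⟩
        rw [C_mul, mul_comm (C M), mul_assoc]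
        exact Ideal.mul_mem_left _ _ hn) key
  refine ⟨M, hM0, fun k _ φ hφ i => ?_⟩
  obtain ⟨n, hn⟩ := hM i
  refine ⟨n, ?_⟩
  have h1 := Ideal.mem_map_of_mem (MvPolynomial.map φ) hn
  rw [Ideal.map_span, ← Set.range_comp, map_mul, map_C, map_pow, map_X] at h1
  have h2 : (⇑(MvPolynomial.map φ) ∘ fun j => pderiv j H) = fun j => pderiv j (H.map φ) := by
    funext j
    rw [pderiv_map]
    rfl
  rw [h2] at h1
  have h3 := Ideal.mul_mem_left _ (C (φ M)⁻¹) h1
  rwa [← mul_assoc, ← C_mul, inv_mul_cancel₀ hφ, C_1, one_mul] at h3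

end Spread

end MPadcPZ
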